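import Pool.Agent.Strip051.Four.Defs

/-! # The four probes: the new point is between `h0` and `h0 + s / 2` -/

namespace Pool.Agent.Strip051.Four

open Pool.Agent.StripNear Pool.Agent.StripSquare Pool.Agent.Strip051

section

variable {s t y r q : ℝ}

theorem gam_self (r q : ℝ) : gam r q 0 = 0 := by
  unfold gam
  rw [if_pos le_rfl, vir_zero]

/-- The gain of the second probe. -/
theorem high_j2 (P : Par s t) (h1 : h0 ≤ y) (h2 : y ≤ h0 + s / 2) :
    2 * g (h0 + s / 2 - y) - 1 ≤ gn (j2 s) r q y := by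
  have hh := h0_lt
  have hg := h0_gt
  have hs0 := P.s0
  have hs1 := P.s1
  have h3 := le_gn (r := r) (q := q) (y := y) (z0 := y) (v := g (h0 + s / 2 - y) - 1) (j2_ok P)
    (by simp only [j2]; linear_combination h1 + (1 / 2) * hg + hs1) (by simp only [j2]; linear_combination h1 + 2 * h2 + hh)
    (by
      intro z k1 k2
      simp only [j2] at k1 k2 ⊢
      right
      rcases le_total z (h0 + s / 2) with h | h
      · have e1 := a2_le2 (s := s) (z := z)
        have e2 := arc_sub (a := y) (b := h0 + s / 2) (x := z) (y := h0 + s / 2) h2 h (by linear_combination h1 + h2 + hh + k1)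
          (by linear_combination h1 + (1 / 4) * hh + (1 / 2) * hs1)
        rw [sub_self, g_zero] at e2
        linear_combination e1 + e2
      · have e1 := a2_le3 (s := s) (z := z)
        have e2 := arc_sub (a := h0) (b := y) (x := h0 + s / 2) (y := z) h1 h (by linear_combination h2)
          (by linear_combination (1 / 2) * hg + hs1 + k2)
        rw [add_sub_cancel_left] at e2
        linear_combination e1 + e2)
  rw [sub_self, gam_self] at h3
  simp only [j2] at h3 ⊢
  rw [a2_eq2 P h1 h2, show y - (h0 + s / 2) = -(h0 + s / 2 - y) by ring, g_neg] at h3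
  linear_combination h3

/-- The gain of the second probe, seen from the upper half. -/
theorem high_j2' (P : Par s t) (h1 : h0 + s / 2 ≤ y) (h2 : y ≤ h0 + s) :
    2 * g (y - h0) + 1 - 2 * g (s / 2) ≤ gn (j2 s) r q y := by
  have hh := h0_lt
  have hg := h0_gt
  have hs0 := P.s0
  have hs1 := P.s1
  have h3 := le_gn (r := r) (q := q) (y := y) (z0 := y) (v := g (y - h0) - g (s / 2)) (j2_ok P)
    (by simp only [j2]; linear_combination h1 + (3 / 4) * hg + (1 / 2) * hs1) (by simp only [j2]; linear_combination h2 + hh)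
    (by
      intro z k1 k2
      simp only [j2] at k1 k2 ⊢
      right
      rcases le_total z h0 with h | h
      · have e1 := a2_le1 (s := s) (z := z)
        have e2 := arc_sub (a := y) (b := h0 + s) (x := z) (y := h0) h2 h (by linear_combination hh + k1)
          (by linear_combination 2 * h1 + h2)
        rw [show h0 - y = -(y - h0) by ring, show h0 - (h0 + s) = -s by ring, g_neg, g_neg] at e2
        linear_combination e1 + e2
      · have e1 := a2_le2 (s := s) (z := z)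
        have e2 := arc_sub (a := h0 + s / 2) (b := y) (x := h0) (y := z) h1 h (by linear_combination h2 + (1 / 2) * hh + hs1)
          (by linear_combination (3 / 4) * hg + (1 / 2) * hs1 + k2)
        rw [show h0 - (h0 + s / 2) = -(s / 2) by ring, show h0 - y = -(y - h0) by ring, g_neg,
          g_neg] at e2
        linear_combination e1 + e2)
  rw [sub_self, gam_self] at h3
  simp only [j2] at h3 ⊢
  rw [a2_eq3 P h1 h2] at h3
  linear_combination h3

/-- The gain of the third probe. -/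
theorem high_j3 (P : Par s t) (h1 : h0 ≤ y) (h2 : y ≤ h0 + s / 2) :
    2 * g (h0 + s - y) + 1 - 2 * g (s / 2) ≤ gn (j3 s) r q y := by
  rw [j2_gn]
  have := high_j2' (r := q) (q := r) (y := 2 * h0 + s - y) P (by linear_combination h2) (by linear_combination h1)
  rw [show 2 * h0 + s - y - h0 = h0 + s - y by ring] at this
  exact this

/-- The gain of the first probe. -/
theorem high_j1 (P : Par s t) (h1 : h0 ≤ y) (q1 : 1 / 2 ≤ q) (q2 : q ≤ 1) (hq : y - q ≤ t) :
    1 + g (ext q) + g q - g (y - ext q - t) - g (y - q - t) ≤ gn (j1 t) r q y := by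
  have hh := h0_lt
  have hg := h0_gt
  have hs0 := P.s0
  have hs1 := P.s1
  have ht0 := P.t0
  have hts := P.ts
  obtain ⟨b1, b2, b3, b4, b5, b6⟩ := ext_spec q1 q2
  have hm := ext_meet q1 q2
  have hee : q / 2 + h0 * g q = ext q := rfl
  rw [hee] at b2 b3 b5 b6 hm
  -- g (q - e) - g e = g q
  have hm2 : g (ext q - q) = g (ext q) + g q := by
    rw [show ext q - q = -(q - ext q) by ring, g_neg]
    linear_combination hm
  have h3 := le_gn (r := r) (q := q) (y := y) (z0 := t) (v := g (ext q) - g (y - ext q - t))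
    (j1_ok P) P.t0 le_rfl
    (by
      intro z k1 k2
      simp only [j1] at k1 k2 ⊢
      rcases le_total (y - ext q) z with h | h
      · right
        have e2 := arc_sub (a := t) (b := y) (x := y - ext q) (y := z) (by linear_combination h1 + (1 / 2) * hg + hs1 + hts) h
          (by linear_combination b6) (by linear_combination k2)
        rw [show y - ext q - y = -(ext q) by ring, g_neg] at e2
        linear_combination e2
      · left
        have e2 := arc_sub (a := y - q) (b := t) (x := z) (y := y - ext q) hq h (by linear_combination (1 / 2) * hh + hs1 + hts + k1)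
          (by linear_combination q2 + b5)
        rw [show y - ext q - (y - q) = q - ext q by ring,
          show y - ext q - t = -(t - (y - ext q)) by ring, g_neg] at e2
        have e3 : g (z - (y - q)) - g q ≤ gam r q (z - y) := by
          unfold gam
          split
          · next h' =>
            have : z = y ∨ z < y := by
              rcases lt_or_ge z y with h | h
              · right; exact h
              · left; exact le_antisymm (by linear_combination h1 + (1 / 2) * hg + hs1 + hts + k2) (by linear_combination h')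
            exfalso
            exact absurd h' (not_le.mpr (by linear_combination h1 + (1 / 2) * hg + hs1 + hts + k2))
          · unfold vir
            refine le_trans ?_ (le_max_right _ _)
            rw [show z - (y - q) = -(-(z - y) - q) by ring, g_neg]
        rw [show y - ext q - t = -(t - (y - ext q)) by ring, g_neg]
        linear_combination -hm + e2 + e3)
  simp only [j1, sub_self, g_zero] at h3
  have h4 : gam r q (t - y) ≤ g (y - q - t) - g q := by
    unfold gam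
    split
    · next h =>
      exfalso
      exact absurd h (not_le.mpr (by linear_combination h1 + (1 / 2) * hg + hs1 + hts))
    · unfold vir
      have e1 : g (-(t - y) - q) = g (y - q - t) := by
        congr 1
        ring
      rw [e1]
      apply max_le
      · have : g q ≤ g (t - (y - q)) := g_anti (by linear_combination hq) (by linear_combination h1 + (1 / 2) * hg + hs1 + hts)
        rw [show y - q - t = -(t - (y - q)) by ring, g_neg]
        linear_combination this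
      · exact le_rfl
  simp only [j1]
  linear_combination h3 + h4

/-! ### Real inequalities -/

theorem g_upper {x : ℝ} (hx : x ^ 2 ≤ 1) : g x ≤ 1 - x ^ 2 / 2 - x ^ 4 / 8 := by
  have h1 := g_sq hx
  have h2 := g_nonneg x
  set z := x ^ 2 with hz
  have h3 : x ^ 4 = z ^ 2 := by rw [hz]; ring
  rw [h3]
  have hz0 : 0 ≤ z := sq_nonneg x
  have h4 : 0 ≤ 1 - z / 2 - z ^ 2 / 8 := by linear_combination (5 / 8) * hx + (1 / 8) * (mul_nonneg (sub_nonneg.mpr (sq_nonneg (x))) (sub_nonneg.mpr hx))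
  have h5 : g x ^ 2 ≤ (1 - z / 2 - z ^ 2 / 8) ^ 2 := by
    rw [h1]
    have : 0 ≤ z ^ 3 / 8 + z ^ 4 / 64 := by positivity
    linear_combination this
  exact abs_le_of_sq_le_sq' h5 h4 |>.2

theorem g_lower {x : ℝ} (hx : x ^ 2 ≤ 9 / 20) : 1 - x ^ 2 / 2 - x ^ 4 / 6 ≤ g x := by
  have h1 := g_sq (r := x) (by linear_combination hx)
  have h2 := g_nonneg x
  set z := x ^ 2 with hz
  have h3 : x ^ 4 = z ^ 2 := by rw [hz]; ring
  rw [h3]
  have hz0 : 0 ≤ z := sq_nonneg x
  have h5 : (1 - z / 2 - z ^ 2 / 6) ^ 2 ≤ g x ^ 2 := by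
    rw [h1]
    have e : (1 - z / 2 - z ^ 2 / 6) ^ 2 = 1 - z - z ^ 2 * (1 / 12 - z / 6 - z ^ 2 / 36) := by ring
    rw [e]
    have : 0 ≤ 1 / 12 - z / 6 - z ^ 2 / 36 := by linear_combination (43 / 240) * hx + (1 / 36) * (mul_nonneg (sub_nonneg.mpr (sq_nonneg (x))) (sub_nonneg.mpr hx))
    have := mul_nonneg (sq_nonneg z) this
    linear_combination this
  exact abs_le_of_sq_le_sq' h5 h2 |>.2

/-- The value of the potential when nothing is needed from the first probe. -/
theorem high_far (P : Par s t) :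
    (1 + g s) / 2 + g (s / 2) ≤ g (61 / 200 * s) + g (161 / 200 * s) := by
  have hh := h0_lt
  have hs0 := P.s0
  have hs1 := P.s1
  have hX : s ^ 2 ≤ 1 / 5 := by linear_combination (8661 / 40000) * hh + (8661 / 20000) * hs1 + (1 / 2) * (mul_nonneg (sub_nonneg.mpr (le_of_lt hh)) (sub_nonneg.mpr hs0)) +
    (mul_nonneg (sub_nonneg.mpr hs0) (sub_nonneg.mpr hs1))
  have hX0 : 0 ≤ s ^ 2 := sq_nonneg s
  have e1 := g_upper (x := s) (by linear_combination hX)
  have e2 := g_upper (x := s / 2) (by linear_combination (1 / 4) * hX)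
  have e3 := g_lower (x := 61 / 200 * s) (by linear_combination (3721 / 40000) * hX)
  have e4 := g_lower (x := 161 / 200 * s) (by linear_combination (25921 / 40000) * hX)
  have f2 : (s / 2) ^ 2 / 2 = s ^ 2 / 8 := by ring
  have f3 : (s / 2) ^ 4 / 8 = s ^ 4 / 128 := by ring
  rw [f2, f3] at e2
  have f4 : (61 / 200 * s) ^ 2 / 2 = 3721 / 80000 * s ^ 2 := by ring
  have f5 : (61 / 200 * s) ^ 4 / 6 = 61 ^ 4 / (200 ^ 4 * 6) * s ^ 4 := by ring
  rw [f4, f5] at e3
  have f6 : (161 / 200 * s) ^ 2 / 2 = 25921 / 80000 * s ^ 2 := by ring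
  have f7 : (161 / 200 * s) ^ 4 / 6 = 161 ^ 4 / (200 ^ 4 * 6) * s ^ 4 := by ring
  rw [f6, f7] at e4
  have f8 : s ^ 4 ≤ s ^ 2 / 5 := by linear_combination (mul_nonneg (sub_nonneg.mpr (sq_nonneg (s))) (sub_nonneg.mpr hX))
  have f9 : 0 ≤ s ^ 4 := by positivity
  norm_num at e1 e2 e3 e4 ⊢
  linear_combination (102027959 / 24000000000) * hX0 + (1 / 2) * e1 + e2 + (5372041 / 4800000000) * f8 +
    e3 + e4

/-- Bounds of the parameters. -/
theorem par_bounds (P : Par s t) : s ≤ 0.43305 ∧ 0.9 ≤ g s ∧ g t ^ 2 = 1 - t ^ 2 ∧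
    g s ^ 2 = 1 - s ^ 2 ∧ s / 2 ≤ t ∧ t ≤ 0.51 * s ∧ 0.97 ≤ g t ∧ g t ≤ 1 := by
  have hh := h0_lt
  have hs0 := P.s0
  have hs1 := P.s1
  have ht0 := P.t0
  have hts := P.ts
  have hgt := P.gt
  have a1 : s ≤ 0.43305 := by linear_combination (1 / 2) * hh + hs1
  have a2 := g_sq (r := s) (by linear_combination (8661 / 40000) * hh + (8661 / 20000) * hs1 + (1 / 2) * (mul_nonneg (sub_nonneg.mpr (le_of_lt hh)) (sub_nonneg.mpr hs0)) +
    (mul_nonneg (sub_nonneg.mpr hs0) (sub_nonneg.mpr hs1)))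
  have a3 := g_nonneg s
  have a4 : 0.9 ≤ g s := by exact not_lt.mp (fun hg__ => absurd hh (not_lt.mpr (by linear_combination (12000 / 2887) * hg__ + 2 * hs1 - (40000 / 8661) * a2 + (20000 / 8661) * (mul_nonneg (sub_nonneg.mpr (le_of_lt hh)) (sub_nonneg.mpr hs0)) + (40000 / 8661) * (mul_nonneg (sub_nonneg.mpr hs0) (sub_nonneg.mpr hs1)) + (40000 / 8661) * (mul_nonneg (sub_nonneg.mpr (le_of_lt hg__)) (sub_nonneg.mpr a3)))))
  have a5 := g_le_one s
  have a6 := g_sq (r := t) (by linear_combination (8661 / 40000) * hh + (8661 / 20000) * hs1 + (1 / 2) * (mul_nonneg (sub_nonneg.mpr (le_of_lt hh)) (sub_nonneg.mpr hs0)) +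
    (mul_nonneg (sub_nonneg.mpr hs0) (sub_nonneg.mpr hs1)) + (mul_nonneg (sub_nonneg.mpr hs0) (sub_nonneg.mpr hts)) +
    (mul_nonneg (sub_nonneg.mpr ht0) (sub_nonneg.mpr hts)))
  have a7 : 16 * t ^ 2 * (1 + g s) = (7 + g s) * s ^ 2 := by
    have : t ^ 2 = 1 - ((3 + g s) / 4) ^ 2 := by
      rw [← hgt]
      linear_combination a6
    rw [this]
    have : s ^ 2 = 1 - g s ^ 2 := by linear_combination a2
    rw [this]
    ring
  have a8 : s / 2 ≤ t := by
    have : (s / 2) ^ 2 ≤ t ^ 2 := by linear_combination (3 / 2) * hgt + (1 / 4) * a2 - a6 + (mul_nonneg (sub_nonneg.mpr (ge_of_eq hgt)) (sub_nonneg.mpr (le_of_eq hgt))) +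
      (1 / 2) * (mul_nonneg (sub_nonneg.mpr (le_of_eq hgt)) (sub_nonneg.mpr a3)) + (3 / 16) * (mul_nonneg (sub_nonneg.mpr a5) (sub_nonneg.mpr a5))
    exact abs_le_of_sq_le_sq' this ht0 |>.2
  have a9 : t ≤ 0.51 * s := by
    have : t ^ 2 ≤ (0.51 * s) ^ 2 := by linear_combination -(1743 / 1250) * hgt - (45899 / 190000) * a2 + (581 / 625) * a6 +
      (11 / 4750) * a7 + (88 / 2375) * (mul_nonneg (sub_nonneg.mpr (sq_nonneg (t))) (sub_nonneg.mpr a4)) +
      (440 / 49419) * (mul_nonneg (sub_nonneg.mpr (sq_nonneg (0.51 * s))) (sub_nonneg.mpr a5)) +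
      (581 / 625) * (mul_nonneg (sub_nonneg.mpr (le_of_eq hgt)) (sub_nonneg.mpr (le_of_eq hgt))) +
      (581 / 1250) * (mul_nonneg (sub_nonneg.mpr (ge_of_eq hgt)) (sub_nonneg.mpr a3)) + (1743 / 9500) * (mul_nonneg (sub_nonneg.mpr a4) (sub_nonneg.mpr a5))
    exact abs_le_of_sq_le_sq' this (by positivity) |>.2
  exact ⟨a1, a4, a6, a2, a8, a9, by linear_combination -hgt + (1 / 4) * a4, by linear_combination hgt + (1 / 4) * a5⟩

/-- The bound of `1 - cos`. -/
theorem W_bound {τ W S : ℝ} (hs0 : 0 ≤ s) (hs1 : s ≤ 0.43305) (hτ0 : 0 ≤ τ)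
    (hτ1 : τ ≤ 39 / 200 * s) (hW0 : 0 ≤ W) (hW1 : W ≤ 0.134) (hS : S ^ 2 = W * (2 - W))
    (h1 : S / 2 ≤ τ + h0 * W) (h2 : -S / 2 ≤ τ + h0 * W) : W ≤ 3.1 * τ ^ 2 := by
  have hh := h0_lt
  have hg := h0_gt
  have hq := h0_sq
  have hp := h0_pos
  have hτ2 : τ ≤ 0.08445 := by linear_combination (39 / 200) * hs1 + hτ1
  have a1 : (S / 2) ^ 2 ≤ (τ + h0 * W) ^ 2 := by
    apply sq_le_sq'
    · linear_combination h2
    · exact h1
  have a2 : W * (1 - 2 * W - 4 * h0 * τ) ≤ 2 * τ ^ 2 := by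
    have e : (S / 2) ^ 2 = W * (2 - W) / 4 := by rw [div_pow, hS]; ring
    rw [e] at a1
    have e2 : (τ + h0 * W) ^ 2 = τ ^ 2 + 2 * h0 * τ * W + 3 / 4 * W ^ 2 := by
      have : (τ + h0 * W) ^ 2 = τ ^ 2 + 2 * h0 * τ * W + h0 ^ 2 * W ^ 2 := by ring
      rw [this, hq]
    rw [e2] at a1
    linear_combination 2 * a1
  have a3 : 4 * h0 * τ ≤ 0.2926 := by linear_combination (337779 / 500000) * hs1 + (8661 / 2500) * hτ1 + 4 * (mul_nonneg (sub_nonneg.mpr hτ0) (sub_nonneg.mpr (le_of_lt hh)))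
  have hτsq : τ ^ 2 ≤ 0.00714 := by linear_combination (13173381 / 800000000) * hs1 + (1521 / 40000) * (mul_nonneg (sub_nonneg.mpr hs0) (sub_nonneg.mpr hs1)) +
    (39 / 200) * (mul_nonneg (sub_nonneg.mpr hs0) (sub_nonneg.mpr hτ1)) + (mul_nonneg (sub_nonneg.mpr hτ0) (sub_nonneg.mpr hτ1))
  have b1 : W ≤ 4.57 * τ ^ 2 := by
    have : W * 0.4394 ≤ W * (1 - 2 * W - 4 * h0 * τ) :=
      mul_le_mul_of_nonneg_left (by linear_combination 2 * hW1 + a3) hW0
    linear_combination (4029 / 219700) * (sq_nonneg τ) + (5000 / 2197) * a2 + (5000 / 2197) * this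
  have b2 : W ≤ 0.0327 := by linear_combination (457 / 100) * hτsq + b1
  have b3 : W * 0.642 ≤ W * (1 - 2 * W - 4 * h0 * τ) :=
    mul_le_mul_of_nonneg_left (by linear_combination a3 + (457 / 50) * hτsq + 2 * b1) hW0
  have b4 : W ≤ 3.12 * τ ^ 2 := by linear_combination (72500 / 46697) * a2 + (152 / 46697) * b1 + (72500 / 46697) * b3
  have b5 : W ≤ 0.0223 := by linear_combination (500 / 321) * a2 + (1000 / 321) * hτsq + (500 / 321) * b3
  have b6 : W * 0.6628 ≤ W * (1 - 2 * W - 4 * h0 * τ) :=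
    mul_le_mul_of_nonneg_left (by linear_combination (1000 / 321) * a2 + a3 + (2000 / 321) * hτsq + (1000 / 321) * b3) hW0
  linear_combination (31 / 20) * a2 + (1367 / 1040) * b3 + (49 / 208) * b6

/-- The final inequality. -/
theorem final_poly {τ W : ℝ} (hs0 : 0 ≤ s) (hs1 : s ≤ 0.43305) (ht1 : t ≤ 0.51 * s)
    (ht0 : s / 2 ≤ t) (hτ0 : 0 ≤ τ) (hτ1 : τ ≤ 39 / 200 * s)
    (hW : W ≤ 3.1 * τ ^ 2) :
    W * (1 + 4 * h0 * (t - τ)) ≤ τ * (3 * s - 4 * t) := by
  have hh := h0_lt
  have hg := h0_gt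
  have hp := h0_pos
  have h1 : 0 ≤ t - τ := by linear_combination (61 / 200) * hs0 + ht0 + hτ1
  have h2 : 1 + 4 * h0 * (t - τ) ≤ 1 + 3.4644 * (t - τ) := by linear_combination (61 / 50) * (mul_nonneg (sub_nonneg.mpr hs0) (sub_nonneg.mpr (le_of_lt hh))) +
    4 * (mul_nonneg (sub_nonneg.mpr ht0) (sub_nonneg.mpr (le_of_lt hh))) + 4 * (mul_nonneg (sub_nonneg.mpr hτ1) (sub_nonneg.mpr (le_of_lt hh)))
  have h3 : 0 ≤ 1 + 4 * h0 * (t - τ) := by positivity
  calc W * (1 + 4 * h0 * (t - τ)) ≤ 3.1 * τ ^ 2 * (1 + 3.4644 * (t - τ)) :=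
        mul_le_mul hW h2 h3 (by positivity)
    _ = τ * (3.1 * τ * (1 + 3.4644 * (t - τ))) := by ring
    _ ≤ τ * (3 * s - 4 * t) := by
        apply mul_le_mul_of_nonneg_left _ hτ0
        have k1 : 3.1 * τ * (1 + 3.4644 * (t - τ)) ≤
            3.1 * τ * (1 + 3.4644 * (0.51 * s - τ)) := by
          apply mul_le_mul_of_nonneg_left _ (by positivity)
          linear_combination (8661 / 2500) * ht1
        have k2 : 3.1 * τ * (1 + 3.4644 * (0.51 * s - τ)) ≤ 0.96 * s := by
          set d := 39 / 200 * s - τ with hd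
          have e : τ = 39 / 200 * s - d := by rw [hd]; ring
          rw [e]
          linear_combination (155165649577 / 36592725000) * (sq_nonneg (τ)) + (31 / 10) * hτ1 +
            (2370 / 2887) * (mul_nonneg (sub_nonneg.mpr hs0) (sub_nonneg.mpr hs1)) + (276086478229 / 93827500000) * (mul_nonneg (sub_nonneg.mpr hs0) (sub_nonneg.mpr hτ1)) +
            (118913521771 / 18296362500) * (mul_nonneg (sub_nonneg.mpr hτ1) (sub_nonneg.mpr hτ1))
        linear_combination 4 * ht1 + k1 + k2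

/-- The angle of the virtual disc. -/
theorem angle (q1 : 1 / 2 ≤ q) (q2 : q ≤ 1) : ∃ W S : ℝ, 0 ≤ W ∧ W ≤ 0.134 ∧
    S ^ 2 = W * (2 - W) ∧ q = h0 * (1 - W) - S / 2 ∧ ext q = h0 * (1 - W) + S / 2 ∧
    g (ext q) + g q = 1 - W := by
  have hh := h0_lt
  have hg := h0_gt
  have hsq := h0_sq
  have hp := h0_pos
  obtain ⟨-, -, b3, -⟩ := ext_spec q1 q2
  have hee : q / 2 + h0 * g q = ext q := rfl
  rw [hee] at b3
  have hGq := g_nonneg q
  have q3 : 1 / 4 ≤ q ^ 2 := by linear_combination q1 + (mul_nonneg (sub_nonneg.mpr q1) (sub_nonneg.mpr q1))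
  have hGq2 := g_sq (r := q) (by linear_combination (3 / 2) * q2 + (mul_nonneg (sub_nonneg.mpr q1) (sub_nonneg.mpr q2)))
  have h00 : h0 * h0 = 3 / 4 := by rw [← hsq]; ring
  have hS0 : g q ≤ h0 := by
    have : g q ^ 2 ≤ h0 ^ 2 := by
      rw [hGq2, hsq]
      linear_combination q3
    exact abs_le_of_sq_le_sq' this hp.le |>.2
  have hS1 : h0 * g q - q / 2 ≤ 1 / 2 := by
    have := mul_le_mul_of_nonneg_left hS0 hp.le
    linear_combination (1 / 2) * q1 + hsq + this
  have hS2 : -(1 / 2) ≤ h0 * g q - q / 2 := by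
    have := mul_nonneg hp.le hGq
    linear_combination (1 / 2) * q2 + this
  have hC0 : 0 ≤ h0 * q + g q / 2 := by positivity
  generalize g q = G at *
  have d4 : (h0 * q + G / 2) ^ 2 + (h0 * G - q / 2) ^ 2 = 1 := by
    have : (h0 * q + G / 2) ^ 2 + (h0 * G - q / 2) ^ 2 = (h0 ^ 2 + 1 / 4) * (q ^ 2 + G ^ 2) := by
      ring
    rw [this, hsq, hGq2]
    ring
  have d5 : (h0 * G - q / 2) ^ 2 ≤ 1 / 4 := by
    have := sq_le_sq' hS2 hS1
    linear_combination this
  have hC1 : h0 * q + G / 2 ≤ 1 := by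
    have : (h0 * q + G / 2) ^ 2 ≤ 1 ^ 2 := by linear_combination (sq_nonneg (h0 * G - q / 2)) + d4
    exact abs_le_of_sq_le_sq' this (by norm_num) |>.2
  have hC2 : h0 ≤ h0 * q + G / 2 := by
    have : h0 ^ 2 ≤ (h0 * q + G / 2) ^ 2 := by
      rw [hsq]
      linear_combination -d4 + d5
    exact abs_le_of_sq_le_sq' this hC0 |>.2
  refine ⟨1 - (h0 * q + G / 2), h0 * G - q / 2, by linear_combination hC1, by linear_combination hg + hC2, by linear_combination d4, ?_, ?_, ?_⟩
  · have : h0 * (1 - (1 - (h0 * q + G / 2))) - (h0 * G - q / 2) / 2 = (h0 * h0 + 1 / 4) * q := by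
      ring
    rw [this, h00]
    ring
  · have : h0 * (1 - (1 - (h0 * q + G / 2))) + (h0 * G - q / 2) / 2 =
        (h0 * h0 - 1 / 4) * q + h0 * G := by ring
    rw [this, h00, ← hee]
    ring
  · rw [b3]
    ring

/-- The algebraic form of the inequality. -/
theorem high_alg {τ W S T GA GB G1 G2 G3 c : ℝ} (hs0 : 0 ≤ s) (hs1 : s ≤ 0.43305)
    (ht1 : t ≤ 0.51 * s) (ht0 : s / 2 ≤ t) (hτ0 : 0 ≤ τ) (hτ1 : τ ≤ 39 / 200 * s) (hW0 : 0 ≤ W)
    (hW : W ≤ 3.1 * τ ^ 2) (hS : S ^ 2 = W * (2 - W)) (hT : T ^ 2 = 1 - t ^ 2) (hT0 : 0.97 ≤ T)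
    (hT1 : T ≤ 1) (hc : c = 4 * T - 3)
    (gA : GA ^ 2 = 1 - (t - τ - h0 * W + S / 2) ^ 2)
    (gB : GB ^ 2 = 1 - (t - τ - h0 * W - S / 2) ^ 2)
    (n1 : (s * τ - τ ^ 2) / 2 ≤ G1 - G2) (n2 : 2 * s * τ - τ ^ 2 ≤ (G3 - c) * (4 * T - 2))
    (n3 : c ≤ G3) :
    (1 + c) / 2 + G2 ≤ 1 + (1 - W) - GA - GB + G1 + G3 := by
  have hsq := h0_sq
  have hf := final_poly hs0 hs1 ht1 ht0 hτ0 hτ1 hW
  have k1 : 2 * T * GA ≤ GA ^ 2 + T ^ 2 := by linear_combination (sq_nonneg (GA - T))
  have k2 : 2 * T * GB ≤ GB ^ 2 + T ^ 2 := by linear_combination (sq_nonneg (GB - T))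
  have k3 : (t - τ - h0 * W + S / 2) ^ 2 + (t - τ - h0 * W - S / 2) ^ 2 =
      2 * (t - τ) ^ 2 - 4 * h0 * W * (t - τ) + 3 / 2 * W ^ 2 + W * (2 - W) / 2 := by
    have : (t - τ - h0 * W + S / 2) ^ 2 + (t - τ - h0 * W - S / 2) ^ 2 =
      2 * (t - τ) ^ 2 - 4 * h0 * W * (t - τ) + 2 * h0 ^ 2 * W ^ 2 + S ^ 2 / 2 := by ring
    rw [this, hsq, hS]
    ring
  have o1 : 0 ≤ 2 * s * τ - τ ^ 2 := by linear_combination (361 / 200) * (mul_nonneg (sub_nonneg.mpr hs0) (sub_nonneg.mpr hτ0)) +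
    (mul_nonneg (sub_nonneg.mpr hτ0) (sub_nonneg.mpr hτ1))
  have o2 : 0 ≤ G3 - c := by linear_combination n3
  have o3 : (2 * s * τ - τ ^ 2) * (2 - T) ≤ (G3 - c) * (4 * T - 2) * (2 - T) :=
    mul_le_mul_of_nonneg_right n2 (by linear_combination hT1)
  have o4 : (G3 - c) * ((4 * T - 2) * (2 - T)) ≤ (G3 - c) * (2 * T) :=
    mul_le_mul_of_nonneg_left (by linear_combination 4 * (sq_nonneg (T - 1))) o2
  have hT00 : 0 < T := by linear_combination hT0
  have p1 : W * (2 * T - 1 + 4 * h0 * (t - τ) - W) ≤ W * (1 + 4 * h0 * (t - τ)) :=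
    mul_le_mul_of_nonneg_left (by linear_combination hW0 + 2 * hT1) hW0
  have p2 : τ * (3 * s - 4 * t) ≤ τ * ((4 - T) * s - 4 * t) := by
    apply mul_le_mul_of_nonneg_left _ hτ0
    have : 0 ≤ (1 - T) * s := mul_nonneg (by linear_combination hT1) hs0
    linear_combination this
  have q3 : T * (s * τ - τ ^ 2) ≤ 2 * T * (G1 - G2) := by
    have := mul_le_mul_of_nonneg_left n1 hT00.le
    linear_combination 2 * this
  have goal2 : 0 ≤ 2 * T * (1 + (1 - W) - GA - GB + G1 + G3 - G2 - (1 + c) / 2) := by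
    subst hc
    linear_combination -2 * hT + gA + gB + hf + k1 + k2 - k3 + p1 + p2 + q3 + o3 + o4
  have goal3 := nonneg_of_mul_nonneg_right goal2 (by linear_combination 2 * hT00)
  linear_combination goal3

/-- The new point is close to `h0`. -/
theorem high_near (P : Par s t) {τ : ℝ} (hτ0 : 0 ≤ τ) (hτ1 : τ ≤ 39 / 200 * s) (q1 : 1 / 2 ≤ q)
    (q2 : q ≤ 1) (hq : q ≤ h0 + τ) (he : ext q ≤ h0 + τ) :
    h0 + τ - q ≤ t ∧ (1 + g s) / 2 + g (s / 2) ≤
      1 + g (ext q) + g q - g (h0 + τ - ext q - t) - g (h0 + τ - q - t) +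
        g (s / 2 - τ) + g (s - τ) := by
  have hh := h0_lt
  have hs0 := P.s0
  have hgt := P.gt
  obtain ⟨c1, c2, c3, c4, c5, c6, c7, c8⟩ := par_bounds P
  obtain ⟨W, S, hW0, hW1, hSW, d1, d2, d3⟩ := angle q1 q2
  have e1 : S / 2 ≤ τ + h0 * W := by
    rw [d2] at he
    linear_combination he
  have e2 : -S / 2 ≤ τ + h0 * W := by
    rw [d1] at hq
    linear_combination hq
  have hWb := W_bound hs0 c1 hτ0 hτ1 hW0 hW1 hSW e1 e2
  have hτ2 : τ ^ 2 ≤ (39 / 200 * s) ^ 2 := pow_le_pow_left₀ hτ0 hτ1 2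
  have hss : s ^ 2 ≤ 0.43305 * s := by
    have := mul_le_mul_of_nonneg_right c1 hs0
    linear_combination this
  have hWs : W ≤ 0.0512 * s := by
    have : (39 / 200 * s) ^ 2 = 0.038025 * s ^ 2 := by ring
    linear_combination (1225189 / 1560000000) * hτ0 + (1225189 / 1560000000) * hτ1 + hWb +
      (31 / 10) * hτ2 + (47151 / 400000) * hss
  have hhW : h0 * W ≤ 0.0444 * s := by
    have := mul_le_mul_of_nonneg_right hh.le hW0
    linear_combination (5021920643 / 5200000000000) * hτ0 + (5021920643 / 5200000000000) * hτ1 +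
      (8661 / 10000) * hWb + (268491 / 100000) * hτ2 + (408374811 / 4000000000) * hss + this
  have hhW0 : 0 ≤ h0 * W := mul_nonneg h0_pos.le hW0
  constructor
  · rw [d1]
    linear_combination (106 / 975) * hτ0 + (2056 / 975) * hτ1 + he + c5 - d2 + 2 * hhW
  have f1 : g (h0 + τ - ext q - t) = g (t - τ - h0 * W + S / 2) := by
    rw [← g_neg]
    congr 1
    rw [d2]
    ring
  have f2 : g (h0 + τ - q - t) = g (t - τ - h0 * W - S / 2) := by
    rw [← g_neg]
    congr 1
    nth_rewrite 1 [d1]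
    ring
  have hA2 : (t - τ - h0 * W + S / 2) ^ 2 ≤ 1 ^ 2 := by
    apply sq_le_sq' <;> linarith
  have hB2 : (t - τ - h0 * W - S / 2) ^ 2 ≤ 1 ^ 2 := by
    apply sq_le_sq' <;> linarith
  have gA := g_sq (r := t - τ - h0 * W + S / 2) (by linear_combination hA2)
  have gB := g_sq (r := t - τ - h0 * W - S / 2) (by linear_combination hB2)
  have hsx : s ^ 2 ≤ 1 := by linear_combination (8661 / 20000) * c1 + hss
  have m1 := g_sq (r := s / 2) (by
    have : (s / 2) ^ 2 = s ^ 2 / 4 := by ring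
    linear_combination (8661 / 80000) * c1 + (1 / 4) * hss)
  have m2 := g_sq (r := s / 2 - τ) (by
    have : (s / 2 - τ) ^ 2 ≤ 1 ^ 2 := by apply sq_le_sq' <;> linarith
    linear_combination this)
  have m3 := g_sq (r := s - τ) (by
    have : (s - τ) ^ 2 ≤ 1 ^ 2 := by apply sq_le_sq' <;> linarith
    linear_combination this)
  have m4 := g_le_one (s / 2)
  have m5 := g_le_one (s / 2 - τ)
  have m6 := g_le_one (s - τ)
  have m7 := g_nonneg (s / 2)
  have m8 := g_nonneg (s / 2 - τ)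
  have m9 := g_nonneg (s - τ)
  have u1 : g (s / 2) ≤ g (s / 2 - τ) := g_anti (by linear_combination (61 / 39) * hτ0 + (100 / 39) * hτ1) (by linear_combination hτ0)
  have u2 : g s ≤ g (s - τ) := g_anti (by linear_combination (161 / 39) * hτ0 + (200 / 39) * hτ1) (by linear_combination hτ0)
  have hc : g s = 4 * g t - 3 := by linear_combination -4 * hgt
  have n1 : (s * τ - τ ^ 2) / 2 ≤ g (s / 2 - τ) - g (s / 2) := by
    have v1 : (g (s / 2 - τ) - g (s / 2)) * (g (s / 2 - τ) + g (s / 2)) = s * τ - τ ^ 2 := by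
      linear_combination -m1 + m2
    have v2 : (g (s / 2 - τ) - g (s / 2)) * (g (s / 2 - τ) + g (s / 2)) ≤
        (g (s / 2 - τ) - g (s / 2)) * 2 :=
      mul_le_mul_of_nonneg_left (by linear_combination m4 + m5) (by linear_combination u1)
    linear_combination (1 / 2) * m1 - (1 / 2) * m2 + (1 / 2) * v2
  have n2 : 2 * s * τ - τ ^ 2 ≤ (g (s - τ) - g s) * (4 * g t - 2) := by
    have v1 : (g (s - τ) - g s) * (g (s - τ) + g s) = 2 * s * τ - τ ^ 2 := by linear_combination -c4 + m3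
    have v2 : (g (s - τ) - g s) * (g (s - τ) + g s) ≤ (g (s - τ) - g s) * (4 * g t - 2) :=
      mul_le_mul_of_nonneg_left (by linear_combination -4 * hgt + m6) (by linear_combination u2)
    linear_combination c4 - m3 + v2
  have := high_alg hs0 c1 c6 c5 hτ0 hτ1 hW0 hWb hSW c3 c7 c8 hc gA gB n1 n2 u2
  rw [f1, f2]
  linear_combination -d3 + this

theorem highC (P : Par s t) : HighC s t := by
  intro y r q h1 h2 r1 r2 r3 r4 q1 q2 q3 q4
  have k2 := high_j2 (r := r) (q := q) P h1 h2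
  have k3 := high_j3 (r := r) (q := q) P h1 h2
  have hs0 := P.s0
  set τ := y - h0 with hτ
  have e1 : h0 + s / 2 - y = s / 2 - τ := by rw [hτ]; ring
  have e2 : h0 + s - y = s - τ := by rw [hτ]; ring
  have e3 : y = h0 + τ := by rw [hτ]; ring
  rw [e1] at k2
  rw [e2] at k3
  have hτ0 : 0 ≤ τ := by linear_combination h1
  rcases le_total τ (39 / 200 * s) with h | h
  · obtain ⟨a1, a2⟩ := high_near P hτ0 h q1 q2 (by linear_combination q3) (by linear_combination q4)
    rw [← e3] at a1 a2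
    have k1 := high_j1 (r := r) P h1 q1 q2 a1
    linear_combination (1 / 2) * k3 + (1 / 2) * k2 + a2 + k1
  · have k1 := gn_nonneg (r := r) (q := q) (y := y) (j1_ok P)
    have a1 := high_far P
    have a2 : g (61 / 200 * s) ≤ g (s / 2 - τ) := g_anti (by linear_combination h2) (by linear_combination h)
    have a3 : g (161 / 200 * s) ≤ g (s - τ) := g_anti (by linear_combination h1 + 2 * h2) (by linear_combination h)
    linear_combination (1 / 2) * k3 + (1 / 2) * k2 + k1 + a1 + a2 + a3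

end

end Pool.Agent.Strip051.Four
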