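import Pool.Agent.Strip051.Four.LowE

/-! # The new point is between `t` and `s` -/

namespace Pool.Agent.Strip051.Four

open Pool.Agent.StripNear Pool.Agent.StripSquare Pool.Agent.Strip051 Low

section

variable {s t z : ℝ}

theorem a2_at1 (P : Par s t) : a2 s s = 1 / 2 + g (s / 2) - g s := by
  have hh := h0_gt
  have := P.s1
  have := P.s0
  rw [a2_eq1 P le_rfl (by linear_combination this + 2 * (‹s ≤ h0 / 2›)), show s - (h0 + s) = -h0 by ring, g_neg, g_h0]
  ring

theorem a2_at2 (P : Par s t) : a2 s h0 = g (s / 2) := by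
  rw [a2_eq2 P le_rfl (by linear_combination (1 / 2) * P.s0), show h0 - (h0 + s / 2) = -(s / 2) by ring, g_neg]

theorem a2_at3 (P : Par s t) : a2 s (h0 + s / 2) = 1 := by
  rw [a2_eq2 P (by linear_combination (1 / 2) * P.s0) le_rfl, sub_self, g_zero]

theorem a2_at4 (P : Par s t) : a2 s (h0 + s) = g s + 1 - g (s / 2) := by
  rw [a2_eq3 P (by linear_combination (1 / 2) * P.s0) le_rfl, add_sub_cancel_left]
  ring

/-- `r` and `ext r` are `p` and `q` in some order. -/
def Two (r p q : ℝ) : Prop := (r = q ∧ ext r = p) ∨ (r = p ∧ ext r = q)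

variable {y r x p q β E : ℝ}

/-- The situation: `p ≤ q` are the heights of the virtual disc and of the exit, `E` is the height
of the upper one above `h0 + s`. -/
structure Sit (s y r p q β E : ℝ) : Prop where
  two : Two r p q
  r1 : 1 / 2 ≤ r
  r2 : r ≤ 1
  β0 : 0 ≤ β
  β1 : β ≤ 1 / 2
  hp : p = h0 * g β - β / 2
  hq : q = h0 * g β + β / 2
  hE : E = y - s + β / 2 - h0 * ph β
  p1 : 1 / 2 ≤ p
  y1 : 7071 / 10000 * s ≤ y
  y2 : y ≤ s

theorem Sit.yq (h : Sit s y r p q β E) : y + q = h0 + s + E := by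
  rw [h.hq, h.hE]
  unfold ph
  ring

theorem Sit.yp (h : Sit s y r p q β E) : y + p = h0 + s + E - β := by
  rw [h.hp, h.hE]
  unfold ph
  ring

theorem Sit.gβ (h : Sit s y r p q β E) : g (ext r - r) = g β := by
  have e : q - p = β := by
    rw [h.hp, h.hq]
    ring
  rcases h.two with ⟨h1, h2⟩ | ⟨h1, h2⟩
  · rw [h2, h1, show p - q = -β by linear_combination -e, g_neg]
  · rw [h2, h1, e]

/-- A bound for the second probe. -/
theorem Sit.two_ge (h : Sit s y r p q β E) {j : Probe} {H C1 α1 z1 b1 C2 α2 z2 b2 v : ℝ}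
    (hj : j.Ok H)
    (a1 : ∀ z, j.lo ≤ z → z ≤ j.hi → j.a z ≤ g (z - C1) + α1)
    (a2 : ∀ z, j.lo ≤ z → z ≤ j.hi → j.a z ≤ g (z - C2) + α2)
    (c1 : y ≤ C1) (c1' : C1 ≤ y + q) (l1 : j.lo ≤ z1) (l1' : z1 ≤ j.hi) (d1 : y ≤ z1)
    (d1' : z1 ≤ y + 2 * q) (f1 : b1 ≤ j.a z1)
    (c2 : y ≤ C2) (c2' : C2 ≤ y + p) (l2 : j.lo ≤ z2) (l2' : z2 ≤ j.hi) (d2 : y ≤ z2)
    (d2' : z2 ≤ y + 2 * p) (f2 : b2 ≤ j.a z2)
    (v1 : v ≤ g β - (g (y + p - C1) + α1) - g (y + q - z1) + b1)
    (v2 : v ≤ g β - (g (y + q - C2) + α2) - g (y + p - z2) + b2) : v ≤ gn j r x y := by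
  rcases h.two with ⟨e1, e2⟩ | ⟨e1, e2⟩
  · have := gain_ge (q := x) (C := C1) (α := α1) (z0 := z1) (β := b1) hj h.r1 h.r2 c1
      (by rw [e1]; exact c1') a1 l1 l1' d1 (by rw [e1]; exact d1') f1
    rw [h.gβ, e2, e1] at this
    rw [e1]
    exact v1.trans this
  · have := gain_ge (q := x) (C := C2) (α := α2) (z0 := z2) (β := b2) hj h.r1 h.r2 c2
      (by rw [e1]; exact c2') a2 l2 l2' d2 (by rw [e1]; exact d2') f2
    rw [h.gβ, e2, e1] at this
    rw [e1]
    exact v2.trans this

/-! ### The second probe -/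

theorem Sit.f1 (P : Par s t) (h : Sit s y r p q β E) (hE : 0 ≤ E) :
    g β - g (E - β) - g (h0 + E) + 1 / 2 ≤ gn (j2 s) r x y := by
  have hh := h0_lt
  have hg := h0_gt
  have := P.s0
  have := P.s1
  have := h.p1
  have := h.y1
  have := h.y2
  have := h.β0
  have e1 := h.yq
  have e2 := h.yp
  apply h.two_ge (j := j2 s) (C1 := h0 + s) (α1 := g (s / 2) - g s) (z1 := s)
    (b1 := 1 / 2 + g (s / 2) - g s) (C2 := s) (α2 := g s + 1 / 2 - g (s / 2)) (z2 := h0 + s)
    (b2 := g s + 1 - g (s / 2)) (j2_ok P) (fun z _ _ => a2_le1) (fun z _ _ => a2_le4)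
  all_goals try simp only [j2]
  any_goals linarith
  · exact (a2_at1 P).ge
  · exact (a2_at4 P).ge
  · rw [show y + p - (h0 + s) = E - β by linear_combination e2, show y + q - s = h0 + E by linear_combination e1]
    linear_combination
  · rw [show y + p - (h0 + s) = E - β by linear_combination e2, show y + q - s = h0 + E by linear_combination e1]
    linear_combination

theorem Sit.f2 (P : Par s t) (h : Sit s y r p q β E) (hE : 0 ≤ E) :
    g β - g (s / 2 + E - β) - g (h0 + E) + 1 / 2 + g (s / 2) - g s ≤ gn (j2 s) r x y := by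
  have hh := h0_lt
  have hg := h0_gt
  have := P.s0
  have := P.s1
  have := h.p1
  have := h.y1
  have := h.y2
  have := h.β0
  have e1 := h.yq
  have e2 := h.yp
  apply h.two_ge (j := j2 s) (C1 := h0 + s / 2) (α1 := 0) (z1 := s)
    (b1 := 1 / 2 + g (s / 2) - g s) (C2 := s) (α2 := g s + 1 / 2 - g (s / 2)) (z2 := h0 + s / 2)
    (b2 := 1) (j2_ok P) (fun z _ _ => by rw [add_zero]; exact a2_le2) (fun z _ _ => a2_le4)
  all_goals try simp only [j2]
  any_goals linarith
  · exact (a2_at1 P).ge
  · exact (a2_at3 P).ge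
  · rw [show y + p - (h0 + s / 2) = s / 2 + E - β by linear_combination e2,
      show y + q - s = h0 + E by linear_combination e1]
    linear_combination
  · rw [show y + p - (h0 + s / 2) = s / 2 + E - β by linear_combination e2,
      show y + q - s = h0 + E by linear_combination e1]
    linear_combination

theorem Sit.f3 (P : Par s t) (h : Sit s y r p q β E) (hE : 0 ≤ E) :
    g β - g (s + E - β) - g (h0 + E) - 1 / 2 + 2 * g (s / 2) - g s ≤ gn (j2 s) r x y := by
  have hh := h0_lt
  have hg := h0_gt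
  have := P.s0
  have := P.s1
  have := h.p1
  have := h.y1
  have := h.y2
  have := h.β0
  have e1 := h.yq
  have e2 := h.yp
  apply h.two_ge (j := j2 s) (C1 := h0) (α1 := 1 - g (s / 2)) (z1 := s)
    (b1 := 1 / 2 + g (s / 2) - g s) (C2 := s) (α2 := g s + 1 / 2 - g (s / 2)) (z2 := h0)
    (b2 := g (s / 2)) (j2_ok P) (fun z _ _ => a2_le3) (fun z _ _ => a2_le4)
  all_goals try simp only [j2]
  any_goals linarith
  · exact (a2_at1 P).ge
  · exact (a2_at2 P).ge
  · rw [show y + p - h0 = s + E - β by linear_combination e2, show y + q - s = h0 + E by linear_combination e1]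
    linear_combination
  · rw [show y + p - h0 = s + E - β by linear_combination e2, show y + q - s = h0 + E by linear_combination e1]
    linear_combination

theorem Sit.f4 (P : Par s t) (h : Sit s y r p q β E) (hB : 0 ≤ s + E - β) (hE : -(s / 2) ≤ E) :
    g β - g (s / 2 + E - β) - g (s + E) + g (s / 2) ≤ gn (j2 s) r x y := by
  have hh := h0_lt
  have hg := h0_gt
  have := P.s0
  have := P.s1
  have := h.p1
  have := h.y1
  have := h.y2
  have := h.β0
  have e1 := h.yq
  have e2 := h.yp
  apply h.two_ge (j := j2 s) (C1 := h0 + s / 2) (α1 := 0) (z1 := h0)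
    (b1 := g (s / 2)) (C2 := h0) (α2 := 1 - g (s / 2)) (z2 := h0 + s / 2)
    (b2 := 1) (j2_ok P) (fun z _ _ => by rw [add_zero]; exact a2_le2) (fun z _ _ => a2_le3)
  all_goals try simp only [j2]
  any_goals linarith
  · exact (a2_at2 P).ge
  · exact (a2_at3 P).ge
  · rw [show y + p - (h0 + s / 2) = s / 2 + E - β by linear_combination e2,
      show y + q - h0 = s + E by linear_combination e1]
    linear_combination
  · rw [show y + p - (h0 + s / 2) = s / 2 + E - β by linear_combination e2,
      show y + q - h0 = s + E by linear_combination e1]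
    linear_combination

theorem Sit.f5 (P : Par s t) (h : Sit s y r p q β E) (hB : 0 ≤ s + E - β) (hE : -s ≤ E) :
    g β - g (s + E - β) - g (s + E) - 1 + 2 * g (s / 2) ≤ gn (j2 s) r x y := by
  have hh := h0_lt
  have hg := h0_gt
  have := P.s0
  have := P.s1
  have := h.p1
  have := h.y1
  have := h.y2
  have := h.β0
  have e1 := h.yq
  have e2 := h.yp
  apply h.two_ge (j := j2 s) (C1 := h0) (α1 := 1 - g (s / 2)) (z1 := h0)
    (b1 := g (s / 2)) (C2 := h0) (α2 := 1 - g (s / 2)) (z2 := h0)
    (b2 := g (s / 2)) (j2_ok P) (fun z _ _ => a2_le3) (fun z _ _ => a2_le3)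
  all_goals try simp only [j2]
  any_goals linarith
  · exact (a2_at2 P).ge
  · exact (a2_at2 P).ge
  · rw [show y + p - h0 = s + E - β by linear_combination e2, show y + q - h0 = s + E by linear_combination e1]
    linear_combination
  · rw [show y + p - h0 = s + E - β by linear_combination e2, show y + q - h0 = s + E by linear_combination e1]
    linear_combination

/-! ### The third probe -/

theorem j3_lo (s : ℝ) : (j3 s).lo = 2 * h0 - 1 := by
  simp only [j3, mirP, j2]
  ring

theorem j3_hi (s : ℝ) : (j3 s).hi = 2 * h0 := by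
  simp only [j3, mirP, j2]
  ring

theorem a3_le1 : (j3 s).a z ≤ g (z - h0) + (g (s / 2) - g s) := by
  have := a2_le1 (s := s) (z := 2 * h0 + s - z)
  rw [show 2 * h0 + s - z - (h0 + s) = -(z - h0) by ring, g_neg] at this
  exact this

theorem a3_le2 : (j3 s).a z ≤ g (z - (h0 + s / 2)) + 0 := by
  have := a2_le2 (s := s) (z := 2 * h0 + s - z)
  rw [show 2 * h0 + s - z - (h0 + s / 2) = -(z - (h0 + s / 2)) by ring, g_neg] at this
  rw [add_zero]
  exact this

theorem a3_le3 : (j3 s).a z ≤ g (z - (h0 + s)) + (1 - g (s / 2)) := by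
  have := a2_le3 (s := s) (z := 2 * h0 + s - z)
  rw [show 2 * h0 + s - z - h0 = -(z - (h0 + s)) by ring, g_neg] at this
  exact this

theorem a3_at2 (P : Par s t) : (j3 s).a (h0 + s) = g (s / 2) := by
  have := a2_at2 P
  have e : (j3 s).a (h0 + s) = a2 s (2 * h0 + s - (h0 + s)) := rfl
  rw [e, show 2 * h0 + s - (h0 + s) = h0 by ring]
  exact this

theorem a3_at3 (P : Par s t) : (j3 s).a (h0 + s / 2) = 1 := by
  have := a2_at3 P
  have e : (j3 s).a (h0 + s / 2) = a2 s (2 * h0 + s - (h0 + s / 2)) := rfl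
  rw [e, show 2 * h0 + s - (h0 + s / 2) = h0 + s / 2 by ring]
  exact this

theorem a3_at4 (P : Par s t) : (j3 s).a h0 = g s + 1 - g (s / 2) := by
  have := a2_at4 P
  have e : (j3 s).a h0 = a2 s (2 * h0 + s - h0) := rfl
  rw [e, show 2 * h0 + s - h0 = h0 + s by ring]
  exact this

theorem Sit.t1 (P : Par s t) (h : Sit s y r p q β E) (hE : 0 ≤ E) (hB : 0 ≤ s + E - β) :
    g β - g (E - β) - g (s + E) + g s ≤ gn (j3 s) r x y := by
  have hh := h0_lt
  have hg := h0_gt
  have := P.s0
  have := P.s1
  have := h.p1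
  have := h.y1
  have := h.y2
  have := h.β0
  have e1 := h.yq
  have e2 := h.yp
  apply h.two_ge (j := j3 s) (C1 := h0 + s) (α1 := 1 - g (s / 2)) (z1 := h0)
    (b1 := g s + 1 - g (s / 2)) (C2 := h0) (α2 := g (s / 2) - g s) (z2 := h0 + s)
    (b2 := g (s / 2)) (j3_ok P) (fun z _ _ => a3_le3) (fun z _ _ => a3_le1)
  all_goals try rw [j3_lo]
  all_goals try rw [j3_hi]
  any_goals linarith
  · exact (a3_at4 P).ge
  · exact (a3_at2 P).ge
  · rw [show y + p - (h0 + s) = E - β by linear_combination e2, show y + q - h0 = s + E by linear_combination e1]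
    linear_combination
  · rw [show y + p - (h0 + s) = E - β by linear_combination e2, show y + q - h0 = s + E by linear_combination e1]
    linear_combination

theorem Sit.t2 (P : Par s t) (h : Sit s y r p q β E) (hE : 0 ≤ E) (hB : 0 ≤ s + E - β) :
    g β - g (s / 2 + E - β) - g (s + E) + g s + 1 - g (s / 2) ≤ gn (j3 s) r x y := by
  have hh := h0_lt
  have hg := h0_gt
  have := P.s0
  have := P.s1
  have := h.p1
  have := h.y1
  have := h.y2
  have := h.β0
  have e1 := h.yq
  have e2 := h.yp
  apply h.two_ge (j := j3 s) (C1 := h0 + s / 2) (α1 := 0) (z1 := h0)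
    (b1 := g s + 1 - g (s / 2)) (C2 := h0) (α2 := g (s / 2) - g s) (z2 := h0 + s / 2)
    (b2 := 1) (j3_ok P) (fun z _ _ => a3_le2) (fun z _ _ => a3_le1)
  all_goals try rw [j3_lo]
  all_goals try rw [j3_hi]
  any_goals linarith
  · exact (a3_at4 P).ge
  · exact (a3_at3 P).ge
  · rw [show y + p - (h0 + s / 2) = s / 2 + E - β by linear_combination e2,
      show y + q - h0 = s + E by linear_combination e1]
    linear_combination
  · rw [show y + p - (h0 + s / 2) = s / 2 + E - β by linear_combination e2,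
      show y + q - h0 = s + E by linear_combination e1]
    linear_combination

theorem Sit.t3 (P : Par s t) (h : Sit s y r p q β E) (hB : s / 2 ≤ s + E - β) :
    g β - g (s / 2 + E - β) - g (s / 2 + E) + 1 ≤ gn (j3 s) r x y := by
  have hh := h0_lt
  have hg := h0_gt
  have := P.s0
  have := P.s1
  have := h.p1
  have := h.y1
  have := h.y2
  have := h.β0
  have e1 := h.yq
  have e2 := h.yp
  apply h.two_ge (j := j3 s) (C1 := h0 + s / 2) (α1 := 0) (z1 := h0 + s / 2)
    (b1 := 1) (C2 := h0 + s / 2) (α2 := 0) (z2 := h0 + s / 2)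
    (b2 := 1) (j3_ok P) (fun z _ _ => a3_le2) (fun z _ _ => a3_le2)
  all_goals try rw [j3_lo]
  all_goals try rw [j3_hi]
  any_goals linarith
  · exact (a3_at3 P).ge
  · exact (a3_at3 P).ge
  · rw [show y + p - (h0 + s / 2) = s / 2 + E - β by linear_combination e2,
      show y + q - (h0 + s / 2) = s / 2 + E by linear_combination e1]
    linear_combination
  · rw [show y + p - (h0 + s / 2) = s / 2 + E - β by linear_combination e2,
      show y + q - (h0 + s / 2) = s / 2 + E by linear_combination e1]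
    linear_combination

/-! ### Assembly -/

/-- The sum of the gains of the second and of the third probe. -/
theorem Sit.sum_ge (P : Par s t) (hs : 0 < s) (h : Sit s y r p q β E) :
    4 * ph y - 2 * ph s ≤ gn (j2 s) r x y + gn (j3 s) r x y := by
  have hh := h0_lt
  have hg := h0_gt
  have hs1 := P.s1
  have hs2 : s ^ 2 ≤ 3 / 16 := by
    have := h0_sq
    linear_combination (433 / 1000) * hs1 + (1 / 4) * this + (mul_nonneg (sub_nonneg.mpr (le_of_lt hs)) (sub_nonneg.mpr hs1)) +
      (1 / 2) * (mul_nonneg (sub_nonneg.mpr (le_of_lt hg)) (sub_nonneg.mpr hs1))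
  have hs3 : s ≤ 43302 / 100000 := by linear_combination (10000 / 8661) * hs2 + (2500 / 8661) * (mul_pos (sub_pos.mpr hh) (sub_pos.mpr hh)) +
    (10000 / 8661) * (mul_nonneg (sub_nonneg.mpr (le_of_lt hh)) (sub_nonneg.mpr hs1)) +
    (10000 / 8661) * (mul_nonneg (sub_nonneg.mpr hs1) (sub_nonneg.mpr hs1))
  have hy0 : 0 ≤ y := by linear_combination h.y1 + (7071 / 10000) * hs
  have hβ0 := h.β0
  have hβ1 := h.β1
  have n2 := gn_nonneg (r := r) (q := x) (y := y) (j2_ok P)
  have n3 := gn_nonneg (r := r) (q := x) (y := y) (j3_ok P)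
  have pn : ∀ z, g z = 1 - ph z := fun z => by unfold ph; ring
  have ev : ∀ z, g (-z) = 1 - ph z := fun z => by rw [g_neg]; exact pn z
  rcases le_total 0 E with hE | hE
  · -- the exit is above `h0 + s`
    rcases le_total β (s / 2) with hβ | hβ
    · have k := D1'_nonneg hs hs2 hβ0 hβ h.y2 h.hE hE
      have a1 := h.f3 (x := x) P hE
      have a2 := h.t2 (x := x) P hE (by linear_combination (1 / 2) * hs + hE + hβ)
      rw [pn β, pn (s + E - β), pn (h0 + E), pn (s / 2), pn s] at a1
      rw [pn β, pn (s / 2 + E - β), pn (s + E), pn s, pn (s / 2)] at a2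
      rw [pn (h0 + E)] at k
      linear_combination k + a1 + a2
    · rcases le_total β s with hβs | hβs
      · rcases le_total 0 (s + E - β) with hB | hB
        · have k := D2'_nonneg hs hs2 hβ hβs h.y2 h.hE hE
          have a1 := h.f2 (x := x) P hE
          have a2 := h.t1 (x := x) P hE hB
          rw [show s / 2 + E - β = -(β - s / 2 - E) by ring, ev, pn β, pn (h0 + E),
            pn (s / 2), pn s] at a1
          rw [show E - β = -(β - E) by ring, ev, pn β, pn (s + E), pn s] at a2
          rw [pn (h0 + E)] at k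
          linear_combination k + a1 + a2
        · have k := D3'_nonneg hs hs2 hβ hβs h.y2 h.hE hE hB
          have a1 := h.f1 (x := x) P hE
          rw [show E - β = -(β - E) by ring, ev, pn β, pn (h0 + E)] at a1
          rw [pn (h0 + E)] at k
          linear_combination n3 + k + a1
      · have k := D3_nonneg hs hs2 hβs hβ1 h.y2 h.y1 h.hE
        have a1 := h.f1 (x := x) P hE
        rw [show E - β = -(β - E) by ring, ev, pn β, pn (h0 + E)] at a1
        rw [pn (h0 + E)] at k
        linear_combination n3 + k + a1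
  · -- the exit is below `h0 + s`
    obtain ⟨F, hF⟩ : ∃ F, F = -E := ⟨_, rfl⟩
    have hF0 : 0 ≤ F := by linear_combination hE - hF
    have hFE : F = s - β / 2 + h0 * ph β - y := by
      rw [hF, h.hE]
      ring
    have hEF : E = -F := by linear_combination hF
    have hβs : β ≤ s := by
      by_contra hcon
      push Not at hcon
      have k1 := beta_mono hs.le hcon.le hβ1
      have k2 : h0 * ph s ≤ 86603 / 100000 * (52595 / 100000 * s ^ 2) :=
        mul_le_mul h0_hi (ph_hi2 hs2) (ph_nonneg s) (by norm_num)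
      have := h.y1
      exact absurd hE (not_le.mpr (by linear_combination -hF + hFE + k1 + k2 + this + (19746977619 / 200000000) * (mul_pos (sub_pos.mpr hs) (sub_pos.mpr hh)) + (394028575423 / 4000000000) * (mul_pos (sub_pos.mpr hs) (sub_pos.mpr hg)) + (910976957 / 2000000000) * (mul_nonneg (sub_nonneg.mpr (le_of_lt hs)) (sub_nonneg.mpr hs1))))
    have hκ : h0 * ph β ≤ 198 / 1000 * s := by
      have k1 : ph β ≤ 52595 / 100000 * s ^ 2 := (ph_mono hβ0 hβs).trans (ph_hi2 hs2)
      have k2 : h0 * ph β ≤ 86603 / 100000 * (52595 / 100000 * s ^ 2) :=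
        mul_le_mul h0_hi k1 (ph_nonneg β) (by norm_num)
      linear_combination k2 + (1546977619 / 200000000) * (mul_pos (sub_pos.mpr hs) (sub_pos.mpr hh)) +
        (30028575423 / 4000000000) * (mul_pos (sub_pos.mpr hs) (sub_pos.mpr hg)) + (910976957 / 2000000000) * (mul_nonneg (sub_nonneg.mpr (le_of_lt hs)) (sub_nonneg.mpr hs1))
    have hB : 0 ≤ s + E - β := by
      rw [hEF, hFE]
      have := h.y1
      linear_combination (91 / 10000) * hs + (1 / 2) * hβs + hκ + this
    have hEs : -(s / 2) ≤ E := by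
      rw [hEF, hFE]
      have := h.y1
      linear_combination (91 / 10000) * hs + (1 / 2) * hβ0 + hκ + this
    rcases le_total β (s / 2) with hβ | hβ
    · rcases le_total (s / 2) (s + E - β) with hB1 | hB1
      · have k := D1_nonneg hs hs2 hβ0 hβ h.y2 hy0 hFE hF0
        have a1 := h.f5 (x := x) P hB (by linear_combination hβ0 + hB)
        have a2 := h.t3 (x := x) P hB1
        rw [hEF, pn β, pn (s + -F - β), pn (s + -F), pn (s / 2)] at a1
        rw [hEF, pn β, pn (s / 2 + -F - β), pn (s / 2 + -F)] at a2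
        rw [show s - β - F = s + -F - β by ring, show s / 2 - β - F = s / 2 + -F - β by ring,
          show s - F = s + -F by ring, show s / 2 - F = s / 2 + -F by ring] at k
        linear_combination k + a1 + a2
      · have k := D4_nonneg hs hs2 hβ0 hβ h.y2 hy0 hFE hF0 (by linear_combination hF + hB) (by linear_combination -hF + hB1)
          (by linear_combination hF + hEs)
        have a1 := h.f4 (x := x) P hB hEs
        rw [show s / 2 + E - β = -(β - s / 2 + F) by linear_combination hF, ev, pn β,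
          show s + E = s - F by linear_combination hF, pn (s - F), pn (s / 2)] at a1
        linear_combination n3 + k + a1
    · have k := D2_nonneg hs hs2 hβ hβs h.y2 h.y1 hFE hF0
      have a1 := h.f4 (x := x) P hB hEs
      rw [show s / 2 + E - β = -(β - s / 2 + F) by linear_combination hF, ev, pn β,
        show s + E = s - F by linear_combination hF, pn (s - F), pn (s / 2)] at a1
      linear_combination n3 + k + a1

/-- The new point is between `t` and `s`. -/
theorem lowA (P : Par s t) : LowA s t := by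
  intro y r h1 h2 hr1 hr2
  have hh := h0_lt
  have hg := h0_gt
  have hq := h0_sq
  have hp := h0_pos
  have hs0 := P.s0
  have hs1 := P.s1
  have ht0 := P.t0
  have n2 := gn_nonneg (r := r) (q := y) (y := y) (j2_ok P)
  have n3 := gn_nonneg (r := r) (q := y) (y := y) (j3_ok P)
  by_cases hN : 1 + g s - 2 * g y ≤ 0
  · linear_combination (1 / 2) * n2 + (1 / 2) * n3 + hN
  push Not at hN
  have hy0 : 0 ≤ y := by linear_combination h1 + ht0
  have hs2 : s ^ 2 ≤ 1 := by linear_combination (8661 / 69280) * hq + (8661 / 20000) * hs1 + (1 / 2) * (mul_nonneg (sub_nonneg.mpr (le_of_lt hh)) (sub_nonneg.mpr hs0)) +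
    (8661 / 69280) * (mul_pos (sub_pos.mpr hg) (sub_pos.mpr hg)) + (mul_nonneg (sub_nonneg.mpr hs0) (sub_nonneg.mpr hs1))
  have gs := g_sq hs2
  have gy := g_sq (r := y) (by linear_combination hs2 + (mul_nonneg (sub_nonneg.mpr h1) (sub_nonneg.mpr h2)) + (mul_nonneg (sub_nonneg.mpr h2) (sub_nonneg.mpr hs0)) +
    (mul_nonneg (sub_nonneg.mpr h2) (sub_nonneg.mpr ht0)))
  have gs0 := g_nonneg s
  have gs1 := g_le_one s
  have gy0 := g_nonneg y
  have hy2 : s ^ 2 ≤ 2 * y ^ 2 := by linear_combination gs - 2 * gy + 5000 * (mul_pos (sub_pos.mpr hh) (sub_pos.mpr hN)) +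
    5000 * (mul_pos (sub_pos.mpr hg) (sub_pos.mpr hN)) + (1 / 2) * (mul_nonneg (sub_nonneg.mpr (le_of_lt hN)) (sub_nonneg.mpr gs0)) +
    (mul_nonneg (sub_nonneg.mpr (le_of_lt hN)) (sub_nonneg.mpr gy0)) + (1 / 2) * (mul_nonneg (sub_nonneg.mpr gs1) (sub_nonneg.mpr gs1))
  have hspos : 0 < s := by
    rcases hs0.eq_or_lt with h | h
    · exfalso
      have hy : y = 0 := by exact le_antisymm (by linear_combination h2 - h) (by linear_combination h1 + ht0)
      rw [← h, hy, g_zero] at hN
      exact absurd hN (not_lt.mpr (by linear_combination))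
    · exact h
  have hy3 : 7071 / 10000 * s ≤ y := by exact not_lt.mp (fun hg__ => absurd hy2 (not_le.mpr (by linear_combination (959 / 50000000) * (sq_nonneg (s)) + 2 * (mul_pos (sub_pos.mpr hg__) (sub_pos.mpr hg__)) + 4 * (mul_nonneg (sub_nonneg.mpr (le_of_lt hg__)) (sub_nonneg.mpr h1)) + 4 * (mul_nonneg (sub_nonneg.mpr (le_of_lt hg__)) (sub_nonneg.mpr ht0)))))
  obtain ⟨a2, a3, a4, a5, a6, a7⟩ := ext_spec hr1 hr2
  have he : ext r = r / 2 + h0 * g r := rfl
  rw [← he] at a3 a4 a5 a6 a7
  have hgr0 := g_nonneg r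
  have hgr : g r ≤ h0 := by
    have := g_anti (a := 1 / 2) (b := r) (by norm_num) hr1
    rwa [g_half_eq] at this
  obtain ⟨b1, b2, b3, b4, b5⟩ := ext_facts hr1 hr2
  have hsum : r + ext r = 2 * h0 * g (ext r - r) := by
    rw [b3, a4, he]
    nlinarith
  have hd1 : ext r - r ≤ 1 / 2 := by
    rw [he]
    linear_combination hr1 + a7 - he
  have hd2 : r - ext r ≤ 1 / 2 := by
    rw [he]
    linear_combination hr2 + a6 + he
  rcases le_total (ext r) r with hle | hle
  · have hβ : g (ext r - r) = g (r - ext r) := by rw [← g_neg, neg_sub]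
    have S : Sit s y r (ext r) r (r - ext r)
        (y - s + (r - ext r) / 2 - h0 * ph (r - ext r)) := by
      refine ⟨Or.inl ⟨rfl, rfl⟩, hr1, hr2, by linear_combination hle, hd2, ?_, ?_, rfl, b1, hy3, h2⟩
      · rw [← hβ]
        linear_combination (1 / 2) * hsum
      · rw [← hβ]
        linear_combination (1 / 2) * hsum
    have := S.sum_ge (x := y) P hspos
    unfold ph at this
    linear_combination (1 / 2) * this
  · have S : Sit s y r r (ext r) (ext r - r)
        (y - s + (ext r - r) / 2 - h0 * ph (ext r - r)) := by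
      refine ⟨Or.inr ⟨rfl, rfl⟩, hr1, hr2, by linear_combination hle, hd1, ?_, ?_, rfl, hr1, hy3, h2⟩
      · linear_combination (1 / 2) * hsum
      · linear_combination (1 / 2) * hsum
    have := S.sum_ge (x := y) P hspos
    unfold ph at this
    linear_combination (1 / 2) * this

end

end Pool.Agent.Strip051.Four
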