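import Pool.Agent.Strip051.N2.MidT1

/-! # Pure real inequalities for the case `s ≤ y ≤ h0`: the virtual centre above `h0 + s` -/

namespace Pool.Agent.Strip051.Four

open Pool.Agent.StripNear Pool.Agent.StripSquare Pool.Agent.Strip051 Pool.Agent.Strip051.N2

theorem ang_of_b {p b : ℝ} (hb0 : 0 ≤ b) (hb1 : b ≤ 1 / 2) (hp : p = h0 * g b - b / 2) :
    Ang (g b) b p (p + b) := by
  have h1 := g_sq (r := b) (by linear_combination (1 / 2) * hb1 + (mul_nonneg (sub_nonneg.mpr hb0) (sub_nonneg.mpr hb1)))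
  exact ⟨by linear_combination h1, hb0, hb1, g_nonneg b, hp, by rw [hp]; ring⟩

/-- The case `h0 + s ≤ c1`, `z1 ≤ 2 h0`. -/
theorem mid_high1 {s y p b : ℝ} (h0s : 0 ≤ s) (hy : y ≤ h0) (hb0 : 0 ≤ b)
    (hb1 : b ≤ 1 / 2) (hp : p = h0 * g b - b / 2) (h3 : h0 + s ≤ y + p)
    (h5 : y + p + b ≤ 2 * h0) :
    2 * (1 + g s) - 4 * g y ≤ 2 * g (h0 + s - y) + g b - g (y + p + b - h0)
      - g (y + p - h0) := by
  have hA := ang_of_b hb0 hb1 hp
  have h1 := psi_nonneg hA (δ := h0 - y) (by linear_combination h5) (by linear_combination h0s + h3)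
  have h2 := shift_mono (a := h0 - y) (x := h0 + s - y) (x' := p) (by linear_combination hy) (by linear_combination h3)
    (by linear_combination h0s) (hA.p_le_h.trans (by linear_combination h0_lt))
  unfold psi at h1
  rw [show p - (h0 - y) = y + p - h0 by ring, show p + b - (h0 - y) = y + p + b - h0 by ring,
    show h0 - (h0 - y) = y by ring] at h1
  rw [show h0 + s - y - (h0 - y) = s by ring, show p - (h0 - y) = y + p - h0 by ring] at h2
  linear_combination h1 + 2 * h2

/-- The other centre is a decreasing function of the first one above `h0`. -/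
theorem other_anti {q q' : ℝ} (h1 : h0 ≤ q') (h2 : q' ≤ q) (h3 : q ≤ 1) :
    q / 2 + h0 * g q ≤ q' / 2 + h0 * g q' := by
  have hh := h0_sq
  have hp := h0_pos
  have hg := h0_gt
  have e1 := g_sub_mul (x := q') (y := q) (by linear_combination h2 + h3 + (mul_nonneg (sub_nonneg.mpr h1) (sub_nonneg.mpr h2)) +
    (mul_nonneg (sub_nonneg.mpr h1) (sub_nonneg.mpr h3)) + (mul_nonneg (sub_nonneg.mpr h2) (sub_nonneg.mpr (le_of_lt hp))) +
    (mul_nonneg (sub_nonneg.mpr h3) (sub_nonneg.mpr (le_of_lt hp)))) (by linear_combination h3 + (mul_nonneg (sub_nonneg.mpr h1) (sub_nonneg.mpr h3)) + (mul_nonneg (sub_nonneg.mpr h2) (sub_nonneg.mpr h3)) +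
    (mul_nonneg (sub_nonneg.mpr h3) (sub_nonneg.mpr (le_of_lt hp))))
  have e2 : g q' ≤ 1 / 2 := by
    have := g_anti hp.le h1
    rwa [g_h0] at this
  have e3 : g q ≤ g q' := g_anti (by linear_combination h1 + hp) h2
  have e4 : (g q' - g q) * (g q' + g q) ≤ (g q' - g q) * 1 :=
    mul_le_mul_of_nonneg_left (by linear_combination 2 * e2 + e3) (by linear_combination e3)
  have e5 : (q - q') * (2 * h0) ≤ q ^ 2 - q' ^ 2 := by
    nlinarith [mul_nonneg (sub_nonneg.2 h2) (show 0 ≤ q + q' - 2 * h0 by linear_combination 2 * h1 + h2)]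
  nlinarith [mul_nonneg hp.le (show 0 ≤ g q' - g q - (q - q') * (2 * h0) by linear_combination -e1 + e4 + e5)]

/-- The case `h0 + s ≤ c1`, `2 h0 ≤ z1`. -/
theorem mid_high2 {s y p b : ℝ} (h0s : 0 ≤ s) (hy : y ≤ h0) (hb0 : 0 ≤ b)
    (hb1 : b ≤ 1 / 2) (hp : p = h0 * g b - b / 2) (h3 : h0 + s ≤ y + p)
    (h5 : 2 * h0 ≤ y + p + b) :
    2 * (1 + g s) - 4 * g y ≤ 2 * g (h0 + s - y) + g b
      - g (y + p - h0) - g (p + b) - 1 / 2 + g (2 * h0 - y) := by
  have hA := ang_of_b hb0 hb1 hp
  have hq1 := hA.q_le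
  have hhl := h0_lt
  have hB := ang_of_q (r := 2 * h0 - y) (by linear_combination hy) (by linear_combination h5 + hq1)
  have h1 := psi_edge hB
  have e1 := hA.gp
  have e2 := hA.gq
  have e3 := hB.gp
  have e4 := hB.gq
  obtain ⟨p', hp'⟩ : ∃ p', p' = (2 * h0 - y) / 2 + h0 * g (2 * h0 - y) := ⟨_, rfl⟩
  have k1 : p ≤ p' := by
    have := other_anti (q := p + b) (q' := 2 * h0 - y) (by linear_combination hy) (by linear_combination h5) hq1
    have k2 : p = (p + b) / 2 + h0 * g (p + b) := by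
      rw [e2]
      have := hA.hp
      have := hA.hq
      have := h0_sq
      nlinarith
    rw [hp']
    linear_combination this + k2
  have k3 := hB.p_le_h
  rw [← hp'] at h1 e3 k3
  unfold psi at h1
  rw [show 2 * h0 - y - h0 = h0 - y by ring, show h0 - (h0 - y) = y by ring,
    show 2 * h0 - y - (h0 - y) = h0 by ring, g_h0] at h1
  have h2 := shift_mono (a := h0 - y) (x := h0 + s - y) (x' := p') (by linear_combination hy) (by linear_combination h3 + k1)
    (by linear_combination h0s) (by linear_combination hhl + k3)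
  have h4 := shift_mono (a := h0 - y) (x := p) (x' := p') (by linear_combination hy) k1
    (by linear_combination h0s + h3) (by linear_combination hhl + k3)
  rw [show h0 + s - y - (h0 - y) = s by ring] at h2
  rw [show p - (h0 - y) = y + p - h0 by ring] at h4
  linear_combination e1 + e2 - e4 - e3 + h1 + 2 * h2 + h4

end Pool.Agent.Strip051.Four
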