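import Pool.Agent.Strip051.Four.MidGainLow
import Pool.Agent.Strip051.Four.MidReal1

/-! # The new point between `s` and `h0`, the near corner above `h0 + s` -/

namespace Pool.Agent.Strip051.Four

open Pool.Agent.StripNear Pool.Agent.StripSquare Pool.Agent.Strip051

section

variable {s t y r q : ℝ}

/-- The body of the third probe at `h0`. -/
theorem a3_h0 (P : Par s t) : (j3 s).a h0 = g s + (1 - g (s / 2)) := by
  have hs0 := P.s0
  simp only [j3, mirP, j2]
  rw [show 2 * h0 + s - h0 = h0 + s by ring, a2_eq3 P (by linear_combination (1 / 2) * hs0) le_rfl,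
    add_sub_cancel_left]

theorem a3_le (z : ℝ) : (j3 s).a z ≤ g (z - h0) + (g (s / 2) - g s) := by
  have := a2_le1 (s := s) (z := 2 * h0 + s - z)
  rw [show 2 * h0 + s - z - (h0 + s) = -(z - h0) by ring, g_neg] at this
  exact this

/-- The second probe: the arc of the new point alone. -/
theorem midhigh_j2 (P : Par s t) (h1 : s ≤ y) (h2 : y ≤ h0) :
    2 * g (h0 + s - y) - 1 + 2 * g (s / 2) - 2 * g s ≤ gn (j2 s) r q y := by
  have hh := h0_lt
  have hg := h0_gt
  have hs0 := P.s0
  have h3 := le_gn (r := r) (q := q) (y := y) (z0 := y)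
    (v := g (h0 + s - y) - (g s + 1 - g (s / 2))) (j2_ok P)
    (by simp only [j2]; linear_combination h1) (by simp only [j2]; linear_combination h2 + hh + hs0)
    (by
      intro z k1 k2
      simp only [j2] at k1 k2 ⊢
      right
      have := a2_touch P h1 h2 k1 k2
      linear_combination this)
  have e : gam r q (y - y) = 0 := by
    unfold gam
    rw [sub_self, if_pos le_rfl, vir_zero]
  rw [e] at h3
  simp only [j2] at h3
  rw [a2_eq1 P h1 h2, show y - (h0 + s) = -(h0 + s - y) by ring, g_neg] at h3
  simp only [j2]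
  linear_combination h3

/-- The third probe, both corners between `h0` and `2 h0`. -/
theorem high_j3a (P : Par s t) (h2 : y ≤ h0) (r1 : 1 / 2 ≤ r) (r2 : r ≤ 1) (h3 : h0 ≤ y + r) :
    g (ext r - r) - g (y + ext r - h0) - g (y + r - h0) + 1 - 2 * g (s / 2) + 2 * g s ≤
      gn (j3 s) r q y := by
  have hh := h0_lt
  have hg := h0_gt
  have hs0 := P.s0
  have h3 := gain_ge (y := y) (r := r) (q := q) (C := h0)
    (α := g (s / 2) - g s) (z0 := h0) (β := g s + (1 - g (s / 2)))
    (j3_ok P) r1 r2 h2 h3 (fun z _ _ => a3_le z)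
    (by simp only [j3, mirP, j2]; linear_combination hh) (by simp only [j3, mirP, j2]; linear_combination hg)
    h2 (by linear_combination r1 + h3) (a3_h0 P).ge
  linear_combination h3

/-- The third probe, the far corner above `2 h0`. -/
theorem high_j3b (P : Par s t) (h2 : y ≤ h0) (r1 : 1 / 2 ≤ r) (r2 : r ≤ 1) (h3 : h0 ≤ y + r)
    (h4 : 2 * h0 ≤ y + max r (ext r)) :
    g (min r (ext r)) - g (y + min r (ext r) - h0) + g (2 * h0 - y) + 1 / 2 - 2 * g (s / 2)
      + 2 * g s ≤ gn (j3 s) r q y := by
  have hh := h0_lt
  have hg := h0_gt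
  have hs0 := P.s0
  obtain ⟨e1, e2, e3, e4, e5⟩ := ext_facts r1 r2
  rcases le_total r (ext r) with h | h
  · rw [max_eq_right h] at h4
    rw [min_eq_left h]
    have h5 := le_gn (r := r) (q := q) (y := y) (z0 := h0)
      (v := g (2 * h0 - y) - (1 / 2 + g (s / 2) - g s)) (j3_ok P)
      (by simp only [j3, mirP, j2]; linear_combination hh) (by simp only [j3, mirP, j2]; linear_combination hg)
      (by
        intro z k1 k2
        simp only [j3, mirP, j2] at k1 k2
        right
        have := a3_le (s := s) z
        have e6 := arc_sub (a := y) (b := h0) (x := z) (y := 2 * h0) h2 (by linear_combination k2)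
          (by linear_combination hg + k1) (by linear_combination h4 + e2)
        rw [show 2 * h0 - h0 = h0 by ring, g_h0] at e6
        linear_combination this + e6)
    have h6 : gam r q (h0 - y) = g (y + r - h0) - g r := by
      unfold gam
      rw [if_pos (by linear_combination h2)]
      unfold vir
      have h6 : g r ≤ g (h0 - y - r) := g_le_of_abs (by linear_combination r1 + h3) (by linear_combination h2)
      rw [max_eq_right (by linear_combination h6), ← g_neg (h0 - y - r),
        show -(h0 - y - r) = y + r - h0 by ring]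
    rw [h6, a3_h0 P] at h5
    linear_combination h5
  · rw [max_eq_left h] at h4
    rw [min_eq_right h]
    have h5 := gain_ge (y := y) (r := r) (q := q) (C := h0)
      (α := g (s / 2) - g s) (z0 := y) (β := g (2 * h0 - y) + (g s + 1 / 2 - g (s / 2)))
      (j3_ok P) r1 r2 h2 h3 (fun z _ _ => a3_le z)
      (by simp only [j3, mirP, j2]; linear_combination r2 + h4) (by simp only [j3, mirP, j2]; linear_combination h2 + hg)
      le_rfl (by linear_combination 2 * r1)
      (by
        simp only [j3, mirP, j2]
        rw [a2_eq4 P (by linear_combination h2) (by linear_combination r2 + h4), show 2 * h0 + s - y - s = 2 * h0 - y by ring])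
    rw [show y + r - y = r by ring] at h5
    linear_combination -e3 + h5

/-- The near corner is above `h0 + s`. -/
theorem mid_high (P : Par s t) (h1 : s ≤ y) (h2 : y ≤ h0) (r1 : 1 / 2 ≤ r) (r2 : r ≤ 1)
    (hc : h0 + s ≤ y + min r (ext r)) :
    1 + g s - 2 * g y ≤ (gn (j2 s) r y y + gn (j3 s) r y y) / 2 := by
  obtain ⟨p, b, hp, hpb, hb0, hb1, hpe, hgb, hp1⟩ := corner r1 r2
  obtain ⟨e1, e2, e3, e4, e5⟩ := ext_facts r1 r2
  have k1 := midhigh_j2 (r := r) (q := y) P h1 h2
  have hs0 := P.s0
  have hr : h0 ≤ y + r := by
    have := min_le_left r (ext r)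
    linear_combination hc + hs0 + this
  have hsum : min r (ext r) + max r (ext r) = r + ext r := min_add_max _ _
  rcases le_total (y + max r (ext r)) (2 * h0) with h | h
  · have k2 := high_j3a (r := r) (q := y) P h2 r1 r2 hr
    rw [← hp] at hc
    rw [← hpb] at h
    have k3 := mid_high1 P.s0 h2 hb0 hb1 hpe hc (by linear_combination h)
    have k4 : g (y + ext r - h0) + g (y + r - h0) = g (y + p + b - h0) + g (y + p - h0) := by
      rcases le_total r (ext r) with h5 | h5
      · rw [min_eq_left h5] at hp
        rw [max_eq_right h5] at hpb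
        rw [← hpb, ← hp]
        ring_nf
      · rw [min_eq_right h5] at hp
        rw [max_eq_left h5] at hpb
        rw [← hp, ← hpb]
        ring_nf
    linear_combination -(1 / 2) * hgb + (1 / 2) * k1 + (1 / 2) * k2 + (1 / 2) * k3 + (1 / 2) * k4
  · have k2 := high_j3b (r := r) (q := y) P h2 r1 r2 hr h
    have hgs : g b = g p + g (p + b) := by
      rw [← hgb, e3]
      rcases le_total r (ext r) with h5 | h5
      · rw [min_eq_left h5] at hp
        rw [max_eq_right h5] at hpb
        rw [hpb, hp]
        ring
      · rw [min_eq_right h5] at hp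
        rw [max_eq_left h5] at hpb
        rw [hpb, hp]
    rw [← hp] at hc k2
    rw [← hpb] at h
    have k3 := mid_high2 P.s0 h2 hb0 hb1 hpe hc (by linear_combination h)
    linear_combination (1 / 2) * k1 + (1 / 2) * k2 + (1 / 2) * hgs + (1 / 2) * k3

end

end Pool.Agent.Strip051.Four
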