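import Pool.Agent.Strip051.Four.MidGainMid
import Pool.Agent.Strip051.Four.MidGainHigh

/-! # The case `s ≤ y ≤ h0` -/

namespace Pool.Agent.Strip051.Four

open Pool.Agent.StripNear Pool.Agent.StripSquare Pool.Agent.Strip051

theorem midB {s t : ℝ} (P : Par s t) : MidB s := by
  intro y r h1 h2 r1 r2 _ _
  rcases le_total (y + min r (ext r)) (h0 + s / 2) with h | h
  · exact mid_low P h1 h2 r1 r2 h
  · rcases le_total (y + min r (ext r)) (h0 + s) with h' | h'
    · exact mid_mid P h1 h2 r1 r2 h h'
    · exact mid_high P h1 h2 r1 r2 h'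

end Pool.Agent.Strip051.Four
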