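import Pool.Agent.Strip051.ProbeMain

/-! # The four probes for the strip of height `2 h0 + s`, `0 ≤ s ≤ h0 / 2` -/

namespace Pool.Agent.Strip051.Four

open Pool.Agent.StripNear Pool.Agent.StripSquare Pool.Agent.Strip051

/-- The mirror image of a probe in the strip of height `H`. -/
noncomputable def mirP (H : ℝ) (j : Probe) : Probe :=
  ⟨H - j.hi, H - j.lo, fun z => j.a (H - z)⟩

/-- The lower wall probe. -/
noncomputable def j1 (t : ℝ) : Probe := ⟨0, t, fun z => g (z - t)⟩

/-- The body of the second probe: four unit arcs. -/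
noncomputable def a2 (s z : ℝ) : ℝ :=
  min (min (g (z - (h0 + s)) + (g (s / 2) - g s)) (g (z - (h0 + s / 2))))
    (min (g (z - h0) + (1 - g (s / 2))) (g (z - s) + (g s + 1 / 2 - g (s / 2))))

/-- The second probe. -/
noncomputable def j2 (s : ℝ) : Probe := ⟨s, s + 1, a2 s⟩

/-- The third probe. -/
noncomputable def j3 (s : ℝ) : Probe := mirP (2 * h0 + s) (j2 s)

/-- The upper wall probe. -/
noncomputable def j4 (s t : ℝ) : Probe := mirP (2 * h0 + s) (j1 t)

/-- The parameters. -/
structure Par (s t : ℝ) : Prop where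
  s0 : 0 ≤ s
  s1 : s ≤ h0 / 2
  t0 : 0 ≤ t
  ts : t ≤ s
  gt : g t = (3 + g s) / 4

/-- The gain of the probe `j`. -/
noncomputable def gn (j : Probe) (r q y : ℝ) : ℝ :=
  j.val (fun z => max (gam r q (z - y)) (g (z - y))) - j.val (fun z => gam r q (z - y))

theorem par_exists {s : ℝ} (h1 : 0 ≤ s) (h2 : s ≤ h0 / 2) : ∃ t, Par s t := by
  have hh := h0_lt
  have hp := h0_pos
  have hc0 := g_nonneg s
  have hc1 := g_le_one s
  have hc := g_sq (r := s) (by linear_combination (8661 / 20000) * h2 + (8661 / 40000) * hh + (mul_nonneg (sub_nonneg.mpr h1) (sub_nonneg.mpr h2)) +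
    (1 / 2) * (mul_nonneg (sub_nonneg.mpr h1) (sub_nonneg.mpr (le_of_lt hh))))
  have hu := g_sq (r := (3 + g s) / 4) (by linear_combination (1 / 16) * (sq_nonneg (s)) + (3 / 8) * hc1 + (1 / 16) * hc)
  refine ⟨g ((3 + g s) / 4), h1, h2, g_nonneg _, ?_, ?_⟩
  · apply abs_le_of_sq_le_sq' _ h1 |>.2
    linear_combination (47 / 96) * (sq_nonneg (s)) - (49 / 96) * hc - (1 / 3) * hu + (1 / 6) * (mul_nonneg (sub_nonneg.mpr (sq_nonneg (g ((3 + g s) / 4)))) (sub_nonneg.mpr (sq_nonneg (s)))) +
      (mul_nonneg (sub_nonneg.mpr (sq_nonneg (g ((3 + g s) / 4)))) (sub_nonneg.mpr hc0)) +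
      (1 / 6) * (mul_nonneg (sub_nonneg.mpr (sq_nonneg (g ((3 + g s) / 4)))) (sub_nonneg.mpr (le_of_eq hc))) +
      (1 / 96) * (mul_nonneg (sub_nonneg.mpr (sq_nonneg (s))) (sub_nonneg.mpr (sq_nonneg (g s)))) +
      (1 / 96) * (mul_nonneg (sub_nonneg.mpr (sq_nonneg (g s))) (sub_nonneg.mpr (le_of_eq hc))) +
      (1 / 3) * (mul_nonneg (sub_nonneg.mpr (sq_nonneg (g s))) (sub_nonneg.mpr (ge_of_eq hu))) +
      (8 / 3) * (mul_nonneg (sub_nonneg.mpr (sq_nonneg ((3 + g s) / 4))) (sub_nonneg.mpr (le_of_eq hu)))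
  · unfold g at *
    rw [show 1 - (√(1 - ((3 + √(1 - s ^ 2)) / 4) ^ 2)) ^ 2 = ((3 + √(1 - s ^ 2)) / 4) ^ 2 by
      rw [hu]; ring, Real.sqrt_sq (by positivity)]

/-! ### Mirror images -/

theorem gam_neg (r q v : ℝ) : gam r q (-v) = gam q r v := by
  unfold gam
  rcases lt_trichotomy v 0 with h | h | h
  · rw [if_pos (by linear_combination h), if_neg (by exact not_le.mpr (by linear_combination h))]
  · rw [h, neg_zero, if_pos le_rfl, if_pos le_rfl, vir_zero, vir_zero]
  · rw [if_neg (by exact not_le.mpr (by linear_combination h)), if_pos h.le, neg_neg]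

theorem mirP_ok {H : ℝ} {j : Probe} (h : j.Ok H) : (mirP H j).Ok H := by
  obtain ⟨h1, h2, h3, A, hA⟩ := h
  refine ⟨by simp only [mirP]; linear_combination h3, by simp only [mirP]; linear_combination h2,
    by simp only [mirP]; linear_combination h1, A, ?_⟩
  intro z h4 h5
  simp only [mirP] at h4 h5 ⊢
  exact hA _ (by linear_combination h5) (by linear_combination h4)

theorem mirP_val (H : ℝ) (j : Probe) (f : ℝ → ℝ) :
    (mirP H j).val f = j.val (fun z => f (H - z)) := by
  unfold Probe.val mirP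
  congr 1
  ext x
  simp only [Set.mem_image, Set.mem_Icc]
  constructor
  · rintro ⟨z, ⟨h1, h2⟩, h3⟩
    exact ⟨H - z, ⟨by linear_combination h2, by linear_combination h1⟩, by rw [sub_sub_cancel]; exact h3⟩
  · rintro ⟨z, ⟨h1, h2⟩, h3⟩
    exact ⟨H - z, ⟨by linear_combination h2, by linear_combination h1⟩, by rw [sub_sub_cancel]; exact h3⟩

theorem mirP_gn (H : ℝ) (j : Probe) (r q y : ℝ) :
    gn (mirP H j) r q y = gn j q r (H - y) := by
  unfold gn
  rw [mirP_val, mirP_val]
  have e1 : ∀ z, gam r q (H - z - y) = gam q r (z - (H - y)) := by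
    intro z
    rw [← gam_neg r q, show -(z - (H - y)) = H - z - y by ring]
  have e2 : ∀ z, g (H - z - y) = g (z - (H - y)) := by
    intro z
    rw [← g_neg, show -(H - z - y) = z - (H - y) by ring]
  simp only [e1, e2]

theorem mirP_mirP (H : ℝ) (j : Probe) : mirP H (mirP H j) = j := by
  unfold mirP
  simp only [sub_sub_cancel]

theorem j1_gn (s t r q y : ℝ) : gn (j4 s t) r q y = gn (j1 t) q r (2 * h0 + s - y) :=
  mirP_gn _ _ _ _ _

theorem j4_gn (s t r q y : ℝ) : gn (j1 t) r q y = gn (j4 s t) q r (2 * h0 + s - y) := by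
  rw [j1_gn, sub_sub_cancel]

theorem j2_gn (s r q y : ℝ) : gn (j3 s) r q y = gn (j2 s) q r (2 * h0 + s - y) :=
  mirP_gn _ _ _ _ _

theorem j3_gn (s r q y : ℝ) : gn (j2 s) r q y = gn (j3 s) q r (2 * h0 + s - y) := by
  rw [j2_gn, sub_sub_cancel]

/-! ### The bodies -/

section

variable {s z : ℝ}

theorem a2_le1 : a2 s z ≤ g (z - (h0 + s)) + (g (s / 2) - g s) :=
  (min_le_left _ _).trans (min_le_left _ _)

theorem a2_le2 : a2 s z ≤ g (z - (h0 + s / 2)) :=
  (min_le_left _ _).trans (min_le_right _ _)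

theorem a2_le3 : a2 s z ≤ g (z - h0) + (1 - g (s / 2)) :=
  (min_le_right _ _).trans (min_le_left _ _)

theorem a2_le4 : a2 s z ≤ g (z - s) + (g s + 1 / 2 - g (s / 2)) :=
  (min_le_right _ _).trans (min_le_right _ _)

end

/-- The difference of two unit arcs is monotone. -/
theorem arc_sub {a b x y : ℝ} (hab : a ≤ b) (hxy : x ≤ y) (h1 : b - x ≤ 1) (h2 : y - a ≤ 1) :
    g (y - a) - g (y - b) ≤ g (x - a) - g (x - b) := by
  rcases le_total (x - a) (y - b) with h | h
  · have := four (x := x - b) (y := x - a) (z := y - b) (w := y - a) (by linear_combination h1) h2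
      (by linear_combination hab) (by linear_combination hxy) (by ring)
    linear_combination this
  · have := four (x := x - b) (y := y - b) (z := x - a) (w := y - a) (by linear_combination h1) h2
      (by linear_combination hxy) (by linear_combination hab) (by ring)
    linear_combination this

section

variable {s t z : ℝ}

theorem arc12 (P : Par s t) (h1 : s ≤ z) (h2 : z ≤ h0) :
    g (z - (h0 + s)) + (g (s / 2) - g s) ≤ g (z - (h0 + s / 2)) := by
  have hh := h0_lt
  have hg := h0_gt
  have := P.s0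
  have := P.s1
  have e1 := arc_sub (a := h0 + s / 2) (b := h0 + s) (x := z) (y := h0) (by linear_combination (1 / 2) * (‹0 ≤ s›)) h2
    (by linear_combination h1 + hh) (by linear_combination (1 / 2) * (‹0 ≤ s›))
  rw [show h0 - (h0 + s / 2) = -(s / 2) by ring, show h0 - (h0 + s) = -s by ring, g_neg, g_neg] at e1
  linear_combination e1

theorem arc21 (P : Par s t) (h1 : h0 ≤ z) (h2 : z ≤ s + 1) :
    g (z - (h0 + s / 2)) ≤ g (z - (h0 + s)) + (g (s / 2) - g s) := by
  have hh := h0_lt
  have hg := h0_gt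
  have := P.s0
  have := P.s1
  have e1 := arc_sub (a := h0 + s / 2) (b := h0 + s) (x := h0) (y := z) (by linear_combination (1 / 2) * (‹0 ≤ s›)) h1
    (by linear_combination (1 / 2) * hh + this) (by linear_combination h2 + (3 / 4) * hg + (1 / 2) * this)
  rw [show h0 - (h0 + s / 2) = -(s / 2) by ring, show h0 - (h0 + s) = -s by ring, g_neg, g_neg] at e1
  linear_combination e1

theorem arc23 (P : Par s t) (h1 : s ≤ z) (h2 : z ≤ h0 + s / 2) :
    g (z - (h0 + s / 2)) ≤ g (z - h0) + (1 - g (s / 2)) := by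
  have hh := h0_lt
  have hg := h0_gt
  have := P.s0
  have := P.s1
  have e1 := arc_sub (a := h0) (b := h0 + s / 2) (x := z) (y := h0 + s / 2) (by linear_combination (1 / 2) * (‹0 ≤ s›)) h2
    (by linear_combination h1 + hh + (1 / 2) * (‹0 ≤ s›)) (by linear_combination h1 + h2 + hh)
  rw [add_sub_cancel_left, sub_self, g_zero] at e1
  linear_combination e1

theorem arc32 (P : Par s t) (h1 : h0 + s / 2 ≤ z) (h2 : z ≤ s + 1) :
    g (z - h0) + (1 - g (s / 2)) ≤ g (z - (h0 + s / 2)) := by
  have hh := h0_lt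
  have hg := h0_gt
  have := P.s0
  have := P.s1
  have e1 := arc_sub (a := h0) (b := h0 + s / 2) (x := h0 + s / 2) (y := z) (by linear_combination (1 / 2) * (‹0 ≤ s›)) h1
    (by linear_combination) (by linear_combination h2 + (1 / 2) * hg + this)
  rw [add_sub_cancel_left, sub_self, g_zero] at e1
  linear_combination e1

theorem arc34 (P : Par s t) (h1 : s ≤ z) (h2 : z ≤ h0 + s) :
    g (z - h0) + (1 - g (s / 2)) ≤ g (z - s) + (g s + 1 / 2 - g (s / 2)) := by
  have hh := h0_lt
  have hg := h0_gt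
  have := P.s0
  have := P.s1
  have e1 := arc_sub (a := s) (b := h0) (x := z) (y := h0 + s) (by linear_combination (1 / 2) * hg + this) h2
    (by linear_combination h1 + hh + (‹0 ≤ s›)) (by linear_combination hh)
  rw [add_sub_cancel_left, add_sub_cancel_right, g_h0] at e1
  linear_combination e1

theorem arc43 (P : Par s t) (h1 : h0 + s ≤ z) (h2 : z ≤ s + 1) :
    g (z - s) + (g s + 1 / 2 - g (s / 2)) ≤ g (z - h0) + (1 - g (s / 2)) := by
  have hh := h0_lt
  have hg := h0_gt
  have := P.s0
  have := P.s1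
  have e1 := arc_sub (a := s) (b := h0) (x := h0 + s) (y := z) (by linear_combination (1 / 2) * hg + this) h1
    (by linear_combination (‹0 ≤ s›)) (by linear_combination h2)
  rw [add_sub_cancel_left, add_sub_cancel_right, g_h0] at e1
  linear_combination e1

/-- The cell `[s, h0]`. -/
theorem a2_eq1 (P : Par s t) (h1 : s ≤ z) (h2 : z ≤ h0) :
    a2 s z = g (z - (h0 + s)) + (g (s / 2) - g s) := by
  have := P.s0
  have e1 := arc12 P h1 h2
  have e2 := arc23 P h1 (by linear_combination h2 + (1 / 2) * this)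
  have e3 := arc34 P h1 (by linear_combination h2 + this)
  unfold a2
  rw [min_eq_left e1, min_eq_left e3, min_eq_left (by linear_combination e1 + e2)]

/-- The cell `[h0, h0 + s / 2]`. -/
theorem a2_eq2 (P : Par s t) (h1 : h0 ≤ z) (h2 : z ≤ h0 + s / 2) :
    a2 s z = g (z - (h0 + s / 2)) := by
  have hh := h0_lt
  have := P.s0
  have := P.s1
  have e1 := arc21 P h1 (by linear_combination h1 + 2 * h2 + hh)
  have e2 := arc23 P (by linear_combination 3 * h1 + 2 * h2 + 2 * this) h2
  have e3 := arc34 P (z := z) (by linear_combination 3 * h1 + 2 * h2 + 2 * this) (by linear_combination h1 + 2 * h2)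
  unfold a2
  rw [min_eq_right e1, min_eq_left e3, min_eq_left (by linarith)]

/-- The cell `[h0 + s / 2, h0 + s]`. -/
theorem a2_eq3 (P : Par s t) (h1 : h0 + s / 2 ≤ z) (h2 : z ≤ h0 + s) :
    a2 s z = g (z - h0) + (1 - g (s / 2)) := by
  have hh := h0_lt
  have := P.s0
  have := P.s1
  have e1 := arc21 P (by linarith) (by linarith)
  have e2 := arc32 P h1 (by linear_combination h2 + hh)
  have e3 := arc34 P (by linear_combination 4 * h1 + 3 * h2 + 2 * this) h2
  unfold a2
  rw [min_eq_right e1, min_eq_left e3, min_eq_right (by linarith)]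

/-- The cell `[h0 + s, s + 1]`. -/
theorem a2_eq4 (P : Par s t) (h1 : h0 + s ≤ z) (h2 : z ≤ s + 1) :
    a2 s z = g (z - s) + (g s + 1 / 2 - g (s / 2)) := by
  have hh := h0_lt
  have := P.s0
  have := P.s1
  have e1 := arc21 P (z := z) (by linear_combination h1 + (‹0 ≤ s›)) (by linear_combination h2)
  have e2 := arc32 P (z := z) (by linear_combination h1 + (1 / 2) * (‹0 ≤ s›)) (by linear_combination h2)
  have e3 := arc43 P h1 h2
  unfold a2
  rw [min_eq_right e1, min_eq_right e3, min_eq_right (by linear_combination e2 + e3)]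

end

/-! ### The probes lie in the strip -/

section

variable {s t : ℝ}

theorem j1_ok (P : Par s t) : (j1 t).Ok (2 * h0 + s) := by
  have hh := h0_pos
  have := P.s0
  have := P.t0
  have := P.ts
  refine ⟨le_rfl, P.t0, by simp only [j1]; linear_combination 2 * hh + this, 1, fun z _ _ => g_le_one _⟩

theorem j2_ok (P : Par s t) : (j2 s).Ok (2 * h0 + s) := by
  have hh := h0_gt
  have := P.s0
  refine ⟨P.s0, by simp only [j2]; linear_combination, by simp only [j2]; linear_combination 2 * hh, 1, fun z _ _ => ?_⟩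
  exact a2_le2.trans (g_le_one _)

theorem j3_ok (P : Par s t) : (j3 s).Ok (2 * h0 + s) := mirP_ok (j2_ok P)

theorem j4_ok (P : Par s t) : (j4 s t).Ok (2 * h0 + s) := mirP_ok (j1_ok P)

/-- A lower bound for the gain of a probe. -/
theorem le_gn {j : Probe} {H r q y z0 v : ℝ} (hj : j.Ok H) (h1 : j.lo ≤ z0) (h2 : z0 ≤ j.hi)
    (h : ∀ z, j.lo ≤ z → z ≤ j.hi →
      j.a z + v ≤ gam r q (z - y) ∨ j.a z + v ≤ g (z - y)) :
    v - (gam r q (z0 - y) - j.a z0) ≤ gn j r q y := by
  have h3 := Probe.val_le hj (f := fun z => gam r q (z - y)) (m := 0)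
    (fun z => gam_nonneg _ _ _) h1 h2
  have h3' : j.val (fun z => gam r q (z - y)) ≤ gam r q (z0 - y) - j.a z0 := h3
  have h4 : v ≤ j.val (fun z => max (gam r q (z - y)) (g (z - y))) := by
    apply Probe.le_val hj
    intro z k1 k2
    rcases h z k1 k2 with k3 | k3
    · exact k3.trans (le_max_left _ _)
    · exact k3.trans (le_max_right _ _)
  unfold gn
  linear_combination h3 + h4

theorem gn_nonneg {j : Probe} {H r q y : ℝ} (hj : j.Ok H) : 0 ≤ gn j r q y := by
  have := Probe.mono hj (f := fun z => gam r q (z - y))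
    (f' := fun z => max (gam r q (z - y)) (g (z - y))) (m := 0)
    (fun z => gam_nonneg _ _ _) (fun z _ _ => le_max_left _ _)
  unfold gn
  linear_combination this

/-- The new point is not above `t`. -/
theorem case_a (P : Par s t) {r q y : ℝ} (h1 : 0 ≤ y) (h2 : y ≤ t) :
    (1 + g s) / 2 ≤ gn (j1 t) r q y := by
  have hh := h0_lt
  have := P.s0
  have := P.s1
  have := P.t0
  have := P.ts
  have hgt := P.gt
  have h3 := le_gn (r := r) (q := q) (y := y) (z0 := y) (v := g (t - y) - 1) (j1_ok P) h1 h2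
    (by
      intro z k1 k2
      simp only [j1] at k1 k2 ⊢
      right
      have := arc_sub (a := y) (b := t) (x := z) (y := t) h2 k2 (by linear_combination (1 / 2) * hh + this + k1 + (‹s ≤ h0 / 2›)) (by linear_combination h1 + (1 / 2) * hh + this + (‹s ≤ h0 / 2›))
      rw [sub_self, g_zero] at this
      linear_combination this)
  simp only [j1, sub_self] at h3
  have h4 : gam r q 0 = 0 := by
    unfold gam
    rw [if_pos le_rfl, vir_zero]
  have h5 : g (y - t) = g (t - y) := by rw [← g_neg, neg_sub]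
  have h6 : g t ≤ g (t - y) := g_anti (by linear_combination h2) (by linear_combination h1)
  rw [h4, h5] at h3
  simp only [j1]
  linear_combination -2 * hgt + h3 + 2 * h6

/-- The lower side when the new point is between `t` and `h0`. -/
theorem lower_gain (P : Par s t) {r y : ℝ} (h1 : t ≤ y) (h2 : y ≤ h0) :
    1 + 2 * g y - 2 * g t ≤ gn (j1 t) r y y := by
  have hh := h0_lt
  have := P.s0
  have := P.s1
  have := P.t0
  have := P.ts
  have h3 := le_gn (r := r) (q := y) (y := y) (z0 := t) (v := g y - g t) (j1_ok P) P.t0 le_rfl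
    (by
      intro z k1 k2
      simp only [j1] at k1 k2 ⊢
      right
      have := arc_sub (a := t) (b := y) (x := 0) (y := z) h1 k1 (by linear_combination h2 + hh) (by linear_combination k2)
      rw [zero_sub, zero_sub, g_neg, g_neg] at this
      linear_combination this)
  simp only [j1, sub_self, g_zero] at h3
  have h4 : gam r y (t - y) ≤ g t - g y := by
    unfold gam
    split
    · next h =>
      rw [show t - y = 0 by exact le_antisymm (by linear_combination h1) (by linear_combination h), vir_zero]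
      rw [show t = y by exact le_antisymm (by linear_combination h1) (by linear_combination h), sub_self]
    · unfold vir
      apply max_le
      · have := g_anti P.t0 h1
        linear_combination this
      · rw [show -(t - y) - y = -t by ring, g_neg]
  simp only [j1]
  linear_combination h3 + h4

/-- Below `h0` the lower virtual disc touches the wall. -/
theorem adm_low {y q : ℝ} (h1 : y ≤ h0) (h : Adm y q) : q = y := by
  rcases h with ⟨a1, a2, a3, a4⟩ | ⟨a1, -⟩
  · have hh := h0_lt
    have hg := h0_gt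
    have hq := h0_sq
    have hp := h0_pos
    have b1 : 1 / 2 ≤ g q := by
      rw [← g_h0]
      exact g_anti (by linear_combination a1) (by linear_combination h1 + a3)
    have b2 := g_le_one q
    have b3 := g_sq (r := q) (by linear_combination (3 / 2) * h1 + (3 / 2) * a3 + (3 / 2) * hh + (mul_nonneg (sub_nonneg.mpr a1) (sub_nonneg.mpr a2)))
    unfold ext at a4
    by_contra hne
    have b4 : q < h0 := by
      rcases (a3.trans h1).lt_or_eq with h | h
      · exact h
      · exact absurd (le_antisymm a3 (by linear_combination h1 - h)) hne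
    have b5 : (1 - g q) * (1 + g q) = q ^ 2 := by linear_combination -b3
    have b6 : 2 * h0 * q < 1 + g q := by linear_combination 2 * hq + b1 + b4 + 2 * (mul_nonneg (sub_nonneg.mpr h1) (sub_nonneg.mpr h1)) +
      2 * (mul_nonneg (sub_nonneg.mpr h1) (sub_nonneg.mpr a1)) + 4 * (mul_nonneg (sub_nonneg.mpr h1) (sub_nonneg.mpr a3)) +
      2 * (mul_nonneg (sub_nonneg.mpr a1) (sub_nonneg.mpr a3)) + 2 * (mul_nonneg (sub_nonneg.mpr a3) (sub_nonneg.mpr a3))
    exact absurd a4 (not_le.mpr (by linear_combination (1 / 3) * h1 - (1 / 3) * b3 + (1 / 6) * b6 + (2 / 3) * (mul_nonneg (sub_nonneg.mpr (sq_nonneg (g q))) (sub_nonneg.mpr h1)) + (2 / 3) * (mul_nonneg (sub_nonneg.mpr (sq_nonneg (q))) (sub_nonneg.mpr h1)) + (2 / 3) * (mul_nonneg (sub_nonneg.mpr h1) (sub_nonneg.mpr b1)) + (2 / 3) * (mul_nonneg (sub_nonneg.mpr a1) (sub_nonneg.mpr (ge_of_eq b3))) + (1 / 3) * (mul_nonneg (sub_nonneg.mpr a1) (sub_nonneg.mpr (le_of_lt b6))) + (2 / 3) * (mul_nonneg (sub_nonneg.mpr a3) (sub_nonneg.mpr (ge_of_eq b3)))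 + (2 / 3) * (mul_nonneg (sub_nonneg.mpr a4) (sub_nonneg.mpr b1))))
  · exact a1

/-- What remains to be proved when the new point is between `t` and `s`. -/
def LowA (s t : ℝ) : Prop := ∀ y r : ℝ, t ≤ y → y ≤ s → 1 / 2 ≤ r → r ≤ 1 →
  1 + g s - 2 * g y ≤ (gn (j2 s) r y y + gn (j3 s) r y y) / 2

/-- What remains to be proved when the new point is between `s` and `h0`. -/
def MidB (s : ℝ) : Prop := ∀ y r : ℝ, s ≤ y → y ≤ h0 → 1 / 2 ≤ r → r ≤ 1 →
  r ≤ 2 * h0 + s - y → ext r ≤ 2 * h0 + s - y →
  1 + g s - 2 * g y ≤ (gn (j2 s) r y y + gn (j3 s) r y y) / 2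

/-- What remains to be proved when the new point is between `h0` and `h0 + s / 2`. -/
def HighC (s t : ℝ) : Prop := ∀ y r q : ℝ, h0 ≤ y → y ≤ h0 + s / 2 → 1 / 2 ≤ r → r ≤ 1 →
  r ≤ 2 * h0 + s - y → ext r ≤ 2 * h0 + s - y → 1 / 2 ≤ q → q ≤ 1 → q ≤ y → ext q ≤ y →
  (1 + g s) / 2 ≤ gn (j1 t) r q y + (gn (j2 s) r q y + gn (j3 s) r q y) / 2

/-- The insertion inequality up to the middle of the strip. -/
theorem half_gain (P : Par s t) (hA : LowA s t) (hB : MidB s) (hC : HighC s t) {y r q : ℝ}
    (h1 : 0 ≤ y) (h2 : y ≤ h0 + s / 2) (hr : Adm (2 * h0 + s - y) r) (hq : Adm y q) :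
    (1 + g s) / 2 ≤ gn (j1 t) r q y + (gn (j2 s) r q y + gn (j3 s) r q y) / 2 +
      gn (j4 s t) r q y := by
  have hh := h0_lt
  have hg := h0_gt
  have hs0 := P.s0
  have hs1 := P.s1
  have ht0 := P.t0
  have hts := P.ts
  have k1 := gn_nonneg (r := r) (q := q) (y := y) (j1_ok P)
  have k2 := gn_nonneg (r := r) (q := q) (y := y) (j2_ok P)
  have k3 := gn_nonneg (r := r) (q := q) (y := y) (j3_ok P)
  have k4 := gn_nonneg (r := r) (q := q) (y := y) (j4_ok P)
  rcases le_total y t with h3 | h3
  · have := case_a (r := r) (q := q) P h1 h3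
    linear_combination (1 / 2) * k2 + (1 / 2) * k3 + k4 + this
  · have hr' : 1 / 2 ≤ r ∧ r ≤ 1 ∧ r ≤ 2 * h0 + s - y ∧ ext r ≤ 2 * h0 + s - y := by
      rcases hr with hr | ⟨-, -, hr⟩
      · exact hr
      · exact absurd h2 (not_le.mpr (by linear_combination (1 / 2) * hs0 + hr))
    obtain ⟨r1, r2, r3, r4⟩ := hr'
    rcases le_total y h0 with h4 | h4
    · have hqy := adm_low h4 hq
      subst hqy
      have k5 := lower_gain (r := r) P h3 h4
      have hgt := P.gt
      have k6 : 1 + g s - 2 * g q ≤ (gn (j2 s) r q q + gn (j3 s) r q q) / 2 := by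
        rcases le_total q s with h5 | h5
        · exact hA q r h3 h5 r1 r2
        · exact hB q r h5 h4 r1 r2 r3 r4
      linear_combination k4 + k5 + 2 * hgt + k6
    · have hq' : 1 / 2 ≤ q ∧ q ≤ 1 ∧ q ≤ y ∧ ext q ≤ y := by
        rcases hq with hq | ⟨-, -, hq⟩
        · exact hq
        · exact absurd h4 (not_le.mpr (by linear_combination hq))
      obtain ⟨q1, q2, q3, q4⟩ := hq'
      have := hC y r q h4 h2 r1 r2 r3 r4 q1 q2 q3 q4
      linear_combination k4 + this

/-- The insertion inequality. -/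
theorem full_gain (P : Par s t) (hA : LowA s t) (hB : MidB s) (hC : HighC s t) {y r q : ℝ}
    (h1 : 0 ≤ y) (h2 : y ≤ 2 * h0 + s) (hr : Adm (2 * h0 + s - y) r) (hq : Adm y q) :
    (1 + g s) / 2 ≤ gn (j1 t) r q y + (gn (j2 s) r q y + gn (j3 s) r q y) / 2 +
      gn (j4 s t) r q y := by
  rcases le_total y (h0 + s / 2) with h3 | h3
  · exact half_gain P hA hB hC h1 h3 hr hq
  · have := half_gain P hA hB hC (y := 2 * h0 + s - y) (r := q) (q := r) (by linear_combination h2)
      (by linear_combination h3) (by rwa [sub_sub_cancel]) hr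
    rw [j4_gn s t q r, j3_gn s q r, j2_gn s q r, j1_gn s t q r, sub_sub_cancel] at this
    linear_combination this

/-- The four probes. -/
noncomputable def probes (s t : ℝ) : Fin 4 → Probe := ![j1 t, j2 s, j3 s, j4 s t]

/-- The four weights. -/
noncomputable def weights (s : ℝ) : Fin 4 → ℝ :=
  ![2 / (1 + g s), 1 / (1 + g s), 1 / (1 + g s), 2 / (1 + g s)]

theorem cert (P : Par s t) (hA : LowA s t) (hB : MidB s) (hC : HighC s t) :
    ProbeCert (2 * h0 + s) (weights s) (probes s t) := by
  have hc : 0 < 1 + g s := by linear_combination (g_nonneg s)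
  refine ⟨?_, ?_, ?_⟩
  · intro i
    fin_cases i <;> simp [weights] <;> positivity
  · intro i
    fin_cases i
    · exact j1_ok P
    · exact j2_ok P
    · exact j3_ok P
    · exact j4_ok P
  · intro y r q h1 h2 hr hq
    have h := full_gain P hA hB hC h1 h2 hr hq
    have e : ∑ i, weights s i * ((probes s t i).val
        (fun z => max (gam r q (z - y)) (g (z - y))) -
        (probes s t i).val (fun z => gam r q (z - y))) =
        (2 / (1 + g s)) * (gn (j1 t) r q y + (gn (j2 s) r q y + gn (j3 s) r q y) / 2 +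
          gn (j4 s t) r q y) := by
      simp only [Fin.sum_univ_four, weights, probes, gn]
      simp
      ring
    rw [e]
    calc (1 : ℝ) = (2 / (1 + g s)) * ((1 + g s) / 2) := by field_simp
      _ ≤ _ := mul_le_mul_of_nonneg_left h (by positivity)

theorem count (P : Par s t) (hA : LowA s t) (hB : MidB s) (hC : HighC s t) :
    CountBound 2 s := by
  have hc : 0 < 1 + g s := by linear_combination (g_nonneg s)
  have hp := h0_pos
  apply countBound_of_probe P.s0 (by linear_combination P.s1 + (1 / 2) * hp) (c := weights s) (j := probes s t)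
  · have := cert P hA hB hC
    push_cast
    exact this
  · simp only [Fin.sum_univ_four, weights]
    simp
    apply le_of_eq
    field_simp
    ring

end

end Pool.Agent.Strip051.Four
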