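import Pool.Agent.Strip051.Four.Defs

/-! # Gains of a probe on the side above the new point

Every arc above the body with centre between the new point and the virtual disc gives a lower bound
for the new value, every height gives an upper bound for the old value. -/

namespace Pool.Agent.Strip051.Four

open Pool.Agent.StripNear Pool.Agent.StripSquare Pool.Agent.Strip051

theorem ext_facts {r : ℝ} (h1 : 1 / 2 ≤ r) (h2 : r ≤ 1) :
    1 / 2 ≤ ext r ∧ ext r ≤ 1 ∧ g (ext r - r) = g (ext r) + g r ∧ r / 2 ≤ ext r ∧
      ext (ext r) = r := by
  obtain ⟨a1, a2, a3, a4, a5, a6⟩ := ext_spec h1 h2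
  have hp := h0_pos
  have hg := g_nonneg r
  have e : ext r = r / 2 + h0 * g r := rfl
  rw [← e] at a3 a4 a5 a6
  have h3 := ext_meet a5 a6
  have e2 : ext r / 2 + h0 * g (ext r) = r := a4
  rw [e2] at h3
  refine ⟨a5, a6, by linear_combination h3, ?_, a4⟩
  rw [e]
  have := mul_nonneg hp.le hg
  linear_combination (1 / 2) * h2 + a5 + e

/-- `g` is even and decreasing. -/
theorem g_le_of_abs {x e : ℝ} (h1 : x ≤ e) (h2 : -e ≤ x) : g e ≤ g x := by
  rcases le_total 0 x with h | h
  · exact g_anti h h1
  · rw [← g_neg x]
    exact g_anti (by linear_combination h) (by linear_combination h2)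

/-- The gain of a probe on the side above the new point: `C`, `α` is any arc above the body with
centre between `y` and `y + r`, `z0` is any height above `y`. -/
theorem gain_ge {j : Probe} {H y r q C α z0 β : ℝ} (hj : j.Ok H) (h1 : 1 / 2 ≤ r)
    (h2 : r ≤ 1) (hC1 : y ≤ C) (hC2 : C ≤ y + r)
    (ha : ∀ z, j.lo ≤ z → z ≤ j.hi → j.a z ≤ g (z - C) + α)
    (hlo : j.lo ≤ z0) (hhi : z0 ≤ j.hi) (hz1 : y ≤ z0) (hz2 : z0 ≤ y + 2 * r) (hβ : β ≤ j.a z0) :
    g (ext r - r) - (g (y + ext r - C) + α) - g (y + r - z0) + β ≤ gn j r q y := by
  obtain ⟨e1, e2, e3, e4, e5⟩ := ext_facts h1 h2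
  have h4 : g (ext r) ≤ g (y + ext r - C) := g_le_of_abs (by linear_combination hC1) (by linear_combination h2 + hC2 + 2 * e1)
  have h3 := le_gn (r := r) (q := q) (y := y) (z0 := z0)
    (v := g (ext r) - g (y + ext r - C) - α) hj hlo hhi (by
      intro z hz1 hz2
      have h3 := ha z hz1 hz2
      have hg0 := g_nonneg (z - y)
      rcases le_total (z - y) (ext r) with hz | hz
      · right
        rcases le_total (-1) (z - C) with h5 | h5
        · have := four (x := z - C) (y := z - y) (z := y + ext r - C) (w := ext r) h5
            (by linear_combination e2) (by linear_combination hC1) (by linear_combination hz) (by ring)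
          linear_combination h3 + this
        · have : g (z - C) = 0 := g_far (by rw [abs_of_nonpos (by linear_combination h5)]; linear_combination h5)
          linear_combination h4 + h3 + hg0 + this
      · left
        unfold gam
        rw [if_pos (by linear_combination e1 + hz)]
        unfold vir
        rcases le_total (z - C) 1 with h5 | h5
        · refine le_trans ?_ (le_max_right _ _)
          have := four (x := ext r - r) (y := z - y - r) (z := y + ext r - C) (w := z - C)
            (by linear_combination h2 + e1) (by linear_combination h5) (by linear_combination hz) (by linear_combination hC2) (by ring)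
          linear_combination -e3 + h3 + this
        · have : g (z - C) = 0 := g_far (h5.trans (le_abs_self _))
          refine le_trans ?_ (le_max_left _ _)
          linear_combination h4 + h3 + this)
  have h5 : gam r q (z0 - y) = g (y + r - z0) - g r := by
    unfold gam
    rw [if_pos (by linear_combination hz1)]
    unfold vir
    have h6 : g r ≤ g (z0 - y - r) := g_le_of_abs (by linear_combination hz2) (by linear_combination hz1)
    rw [max_eq_right (by linear_combination h6), ← g_neg (z0 - y - r),
      show -(z0 - y - r) = y + r - z0 by ring]
  rw [h5] at h3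
  linear_combination hβ + e3 + h3

end Pool.Agent.Strip051.Four
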