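import Pool.Agent.Strip051.Four.Defs

/-! # Gains when the new point is between `h0` and `h0 + s / 2` -/

namespace Pool.Agent.Strip051.Four

open Pool.Agent.StripNear Pool.Agent.StripSquare Pool.Agent.Strip051

variable {s t y r q : ℝ}

theorem gam_zero (r q : ℝ) : gam r q 0 = 0 := by
  unfold gam
  rw [if_pos le_rfl, vir_zero]

/-- The second probe, the new point in `[h0, h0 + s / 2]`. -/
theorem high2 (P : Par s t) (h1 : h0 ≤ y) (h2 : y ≤ h0 + s / 2) :
    2 * g (h0 + s / 2 - y) - 1 ≤ gn (j2 s) r q y := by
  have hh := h0_lt
  have hg := h0_gt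
  have hs0 := P.s0
  have hs1 := P.s1
  have h3 := le_gn (r := r) (q := q) (y := y) (z0 := y) (v := g (h0 + s / 2 - y) - 1) (j2_ok P)
    (by simp only [j2]; linarith) (by simp only [j2]; linarith)
    (by
      intro z k1 k2
      simp only [j2] at k1 k2 ⊢
      right
      rcases le_total z (h0 + s / 2) with k3 | k3
      · have e1 := arc_sub (a := y) (b := h0 + s / 2) (x := z) (y := h0 + s / 2) h2 k3
          (by linarith) (by linarith)
        rw [sub_self, g_zero] at e1
        have e2 := a2_le2 (s := s) (z := z)
        linarith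
      · have e1 := arc_sub (a := h0) (b := y) (x := h0 + s / 2) (y := z) h1 k3
          (by linarith) (by linarith)
        rw [add_sub_cancel_left] at e1
        have e2 := a2_le3 (s := s) (z := z)
        linarith)
  simp only [j2, sub_self, gam_zero] at h3
  rw [a2_eq2 P h1 h2, show y - (h0 + s / 2) = -(h0 + s / 2 - y) by ring, g_neg] at h3
  simp only [j2]
  linarith

/-- The second probe, the new point in `[h0 + s / 2, h0 + s]`. -/
theorem high2' (P : Par s t) (h1 : h0 + s / 2 ≤ y) (h2 : y ≤ h0 + s) :
    2 * g (y - h0) + 1 - 2 * g (s / 2) ≤ gn (j2 s) r q y := by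
  have hh := h0_lt
  have hg := h0_gt
  have hs0 := P.s0
  have hs1 := P.s1
  have h3 := le_gn (r := r) (q := q) (y := y) (z0 := y) (v := g (y - h0) - g (s / 2)) (j2_ok P)
    (by simp only [j2]; linarith) (by simp only [j2]; linarith)
    (by
      intro z k1 k2
      simp only [j2] at k1 k2 ⊢
      right
      rcases le_total z h0 with k3 | k3
      · have e1 := arc_sub (a := y) (b := h0 + s) (x := z) (y := h0) h2 k3
          (by linarith) (by linarith)
        rw [show h0 - y = -(y - h0) by ring, show h0 - (h0 + s) = -s by ring, g_neg, g_neg] at e1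
        have e2 := a2_le1 (s := s) (z := z)
        linarith
      · have e1 := arc_sub (a := h0 + s / 2) (b := y) (x := h0) (y := z) h1 k3
          (by linarith) (by linarith)
        rw [show h0 - y = -(y - h0) by ring, show h0 - (h0 + s / 2) = -(s / 2) by ring,
          g_neg, g_neg] at e1
        have e2 := a2_le2 (s := s) (z := z)
        linarith)
  simp only [j2, sub_self, gam_zero] at h3
  rw [a2_eq3 P h1 h2] at h3
  simp only [j2]
  linarith

/-- The third probe, the new point in `[h0, h0 + s / 2]`. -/
theorem high3 (P : Par s t) (h1 : h0 ≤ y) (h2 : y ≤ h0 + s / 2) :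
    2 * g (h0 + s - y) + 1 - 2 * g (s / 2) ≤ gn (j3 s) r q y := by
  have h3 := high2' P (r := q) (q := r) (y := 2 * h0 + s - y) (by linarith) (by linarith)
  rw [j2_gn]
  rw [show 2 * h0 + s - y - h0 = h0 + s - y by ring] at h3
  exact h3

/-- The two middle probes together. -/
theorem high23 (P : Par s t) (h1 : h0 ≤ y) (h2 : y ≤ h0 + s / 2) :
    g (h0 + s / 2 - y) + g (h0 + s - y) - g (s / 2) ≤
      (gn (j2 s) r q y + gn (j3 s) r q y) / 2 := by
  have h3 := high2 P (r := r) (q := q) h1 h2
  have h4 := high3 P (r := r) (q := q) h1 h2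
  linarith

/-- The lower wall probe and a virtual disc whose centre is not above `t`. -/
theorem high1 (P : Par s t) (h1 : t < y) (hq0 : 1 / 2 ≤ q) (hq1 : q ≤ 1)
    (hq : y - q ≤ t) :
    1 + g q + g (ext q) - g (q - (y - t)) - g (ext q - (y - t)) ≤ gn (j1 t) r q y := by
  have hh := h0_lt
  have hg := h0_gt
  have hs0 := P.s0
  have hs1 := P.s1
  have ht0 := P.t0
  have hts := P.ts
  obtain ⟨a1, a2, a3, a4, a5, a6⟩ := ext_spec hq0 hq1
  have a7 := ext_meet hq0 hq1
  have a8 : q / 2 + h0 * g q = ext q := rfl
  rw [a8] at a5 a6 a7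
  have h3 := le_gn (r := r) (q := q) (y := y) (z0 := t) (v := g (ext q) - g (y - ext q - t))
    (j1_ok P) P.t0 le_rfl
    (by
      intro z k1 k2
      simp only [j1] at k1 k2 ⊢
      rcases le_total (y - ext q) z with k3 | k3
      · right
        have e1 := arc_sub (a := t) (b := y) (x := y - ext q) (y := z) h1.le k3
          (by linarith) (by linarith)
        rw [show y - ext q - y = -ext q by ring, g_neg] at e1
        linarith
      · left
        have e1 := arc_sub (a := y - q) (b := t) (x := z) (y := y - ext q) hq k3
          (by linarith) (by linarith)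
        rw [show y - ext q - (y - q) = q - ext q by ring] at e1
        have e2 : g (z - (y - q)) - g q ≤ gam r q (z - y) := by
          unfold gam
          rw [if_neg (by linarith)]
          unfold vir
          refine le_trans ?_ (le_max_right _ _)
          rw [show -(z - y) - q = -(z - (y - q)) by ring, g_neg]
        linarith)
  have e3 : gam r q (t - y) ≤ g (q - (y - t)) - g q := by
    unfold gam
    rw [if_neg (by linarith)]
    unfold vir
    rw [show -(t - y) - q = -(q - (y - t)) by ring, g_neg]
    apply max_le _ le_rfl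
    have : g q ≤ g (q - (y - t)) := g_anti (by linarith) (by linarith)
    linarith
  simp only [j1, sub_self, g_zero] at h3
  rw [show y - ext q - t = -(ext q - (y - t)) by ring, g_neg] at h3
  simp only [j1]
  linarith

end Pool.Agent.Strip051.Four
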