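import Pool.Agent.Strip051.Four.LowK

/-! # The defect away from the curve where the exit is at `h0 + s` -/

namespace Pool.Agent.Strip051.Four.Low

open Pool.Agent.StripNear Pool.Agent.StripSquare Pool.Agent.Strip051

theorem D3_poly {s Y : ℝ} (hs : 0 ≤ s) (hs2 : s ≤ 43302 / 100000) (hY : 7071 / 10000 ≤ Y)
    (hY2 : Y ≤ 1) :
    0 ≤ 115469 / 100000 * (Y - 1 / 2 - 45549 / 100000 * s) +
      4 * s * (Y - 1 / 2 - 45549 / 100000 * s) ^ 2 - s * (2 * Y ^ 2 - 1) -
      s ^ 3 * (Y ^ 4 / 2 - 1 / 4) - 16 / 100 * s ^ 5 := by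
  have h1 : s ^ 2 ≤ 18751 / 100000 := by linear_combination (21651 / 50000) * hs2 + (mul_nonneg (sub_nonneg.mpr hs) (sub_nonneg.mpr hs2))
  have h2 : s ^ 5 ≤ 3517 / 100000 * s := by
    have : s ^ 5 = s ^ 2 * s ^ 2 * s := by ring
    rw [this]
    apply mul_le_mul_of_nonneg_right _ hs
    linear_combination (18751 / 100000) * h1 + (mul_nonneg (sub_nonneg.mpr (sq_nonneg (s))) (sub_nonneg.mpr h1))
  have h3 : s ^ 3 * (Y ^ 4 / 2 - 1 / 4) ≤ s * (18751 / 100000 * (Y ^ 4 / 2) - s ^ 2 / 4) := by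
    have h4 : 0 ≤ Y ^ 4 / 2 := by positivity
    have h5 := mul_le_mul_of_nonneg_right h1 h4
    have h6 := mul_le_mul_of_nonneg_left h5 hs
    linear_combination h6
  have h7 : 0 ≤ (1 - Y) * (Y - 7071 / 10000) := mul_nonneg (by linear_combination hY2) (by linear_combination hY)
  obtain ⟨v, hv⟩ : ∃ v, v = Y - 1 / 2 := ⟨_, rfl⟩
  have h8 : Y ^ 4 ≤ 25607 / 10000 * v - 2802 / 10000 := by
    have e : Y ^ 4 - (25607 / 10000 * (Y - 1 / 2) - 2802 / 10000) ≤ 0 := by
      nlinarith [mul_nonneg h7 (sq_nonneg Y), mul_nonneg h7 (by linear_combination hY : 0 ≤ Y)]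
    rw [hv]
    linear_combination e
  have h9 := mul_le_mul_of_nonneg_left h8 hs
  have hv1 : 2071 / 10000 ≤ v := by linear_combination hY - hv
  have hv2 : v ≤ 1 / 2 := by linear_combination hY2 + hv
  have k1 : 0 ≤ 86604 / 100000 * v ^ 2 - 4986 / 10000 * v + 853 / 10000 := by
    linear_combination (21651 / 25000) * (sq_nonneg (v - 288 / 1000)) + (747 / 3125000) * hY - (747 / 3125000) * hv
  have k2 : 0 ≤ (43302 / 100000 - s) * (-2 * v ^ 2 + 22401 / 10000 * v + 53 / 10000 +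
      364392 / 100000 * v * (s + 43302 / 100000) -
      107989 / 100000 * (s ^ 2 + s * (43302 / 100000) + (43302 / 100000) ^ 2)) := by
    apply mul_nonneg (by linear_combination hs2)
    have e1 : 3774 / 10000 ≤ -2 * v ^ 2 + 22401 / 10000 * v := by linear_combination (8259 / 10000) * hY + 2 * h7 - (14117 / 10000) * hv + 4 * (mul_nonneg (sub_nonneg.mpr hY) (sub_nonneg.mpr (le_of_eq hv))) +
      2 * (mul_nonneg (sub_nonneg.mpr (ge_of_eq hv)) (sub_nonneg.mpr (le_of_eq hv)))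
    have e2 : 7546 / 10000 * (s + 43302 / 100000) ≤
        364392 / 100000 * v * (s + 43302 / 100000) := by
      have : 7546 / 10000 ≤ 364392 / 100000 * v := by linear_combination (45549 / 12500) * hY - (45549 / 12500) * hv
      exact mul_le_mul_of_nonneg_right this (by linear_combination hs)
    linear_combination (1434930161 / 5000000000) * hs + (107989 / 100000) * h1 + e1 + e2
  have k3 : Y = v + 1 / 2 := by linear_combination -hv
  rw [k3] at h3 h9 ⊢
  linear_combination (292576551032071916181608687393493911 / 15523073159705207593875000000000000000000) * (sq_nonneg (v + 1 / 2)) +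
    (275378251042564027029 / 359619516322375000000000000) * (sq_nonneg (s)) + (260667813358460679 / 100693464570265000000000) * hs +
    (4 / 25) * h2 + h3 + (18751 / 200000) * h9 + (1862673076664830980044469076911820217 / 1862768779164624911265000000000000000) * k1 +
    (20138186905486226657 / 20138692914053000000) * k2 + (21057731547 / 201386929140530) * (mul_nonneg (sub_nonneg.mpr (sq_nonneg (v + 1 / 2 - 1 / 2 - 45549 / 100000 * s))) (sub_nonneg.mpr hs)) +
    (3892327981268 / 218404124652904785) * (mul_nonneg (sub_nonneg.mpr (sq_nonneg (v + 1 / 2 - 1 / 2 - 45549 / 100000 * s))) (sub_nonneg.mpr hY)) +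
    (3892327981268 / 218404124652904785) * (mul_nonneg (sub_nonneg.mpr (sq_nonneg (v + 1 / 2 - 1 / 2 - 45549 / 100000 * s))) (sub_nonneg.mpr (ge_of_eq hv))) +
    (383400235363401 / 10069346457026500000) * (mul_nonneg (sub_nonneg.mpr (sq_nonneg (v + 1 / 2))) (sub_nonneg.mpr hs2)) +
    (3892327981268 / 218404124652904785) * (mul_nonneg (sub_nonneg.mpr (sq_nonneg (v + 1 / 2))) (sub_nonneg.mpr hY2)) +
    (3892327981268 / 218404124652904785) * (mul_nonneg (sub_nonneg.mpr (sq_nonneg (v + 1 / 2))) (sub_nonneg.mpr (le_of_eq hv)))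

/-- The unit arc beyond `h0`. -/
theorem W_lo {E : ℝ} (h1 : 0 ≤ E) (h2 : E ≤ 1 / 7) :
    2 * h0 * E + 4 * E ^ 2 ≤ 1 / 2 - g (h0 + E) := by
  have hh := h0_hi
  have hp := h0_pos
  have hq := h0_sq
  have key : g (h0 + E) ≤ 1 / 2 - 2 * h0 * E - 4 * E ^ 2 := by
    unfold g
    apply Real.sqrt_le_iff.2
    constructor
    · linear_combination (806221 / 350000) * h2 + 4 * (mul_nonneg (sub_nonneg.mpr h1) (sub_nonneg.mpr h2)) +
      2 * (mul_nonneg (sub_nonneg.mpr h1) (sub_nonneg.mpr hh))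
    · have e : (1 / 2 - 2 * h0 * E - 4 * E ^ 2) ^ 2 = 1 / 4 - 2 * h0 * E + 4 * h0 ^ 2 * E ^ 2
          - 4 * E ^ 2 + 16 * h0 * E ^ 3 + 16 * E ^ 4 := by ring
      rw [e, hq]
      have : 0 ≤ 16 * h0 * E ^ 3 + 16 * E ^ 4 := by positivity
      linear_combination -hq + this
  linear_combination key

/-- `β / 2 - h0 ph β` is increasing. -/
theorem beta_mono {s β : ℝ} (h0' : 0 ≤ s) (h1 : s ≤ β) (h2 : β ≤ 1 / 2) :
    s / 2 - h0 * ph s ≤ β / 2 - h0 * ph β := by
  have hp := h0_pos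
  have hq := h0_sq
  have e := diff_hi_aux (a := β) (b := s) (w := 2 * h0) (T := 1 / (2 * h0))
    (by linear_combination 2 * (mul_nonneg (sub_nonneg.mpr h0') (sub_nonneg.mpr h1)) + (mul_nonneg (sub_nonneg.mpr h1) (sub_nonneg.mpr h1))) (by linear_combination (1 / 2) * h2 + (mul_nonneg (sub_nonneg.mpr h0') (sub_nonneg.mpr h2)) +
      (mul_nonneg (sub_nonneg.mpr h1) (sub_nonneg.mpr h2))) (by
      have e1 := g_anti (a := β) (b := 1 / 2) (by linear_combination h0' + h1) h2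
      have e2 := g_anti (a := s) (b := 1 / 2) h0' (by linear_combination h1 + h2)
      have e3 : g (1 / 2) = h0 := by
        unfold g
        rw [show (1 - (1 / 2) ^ 2 : ℝ) = h0 ^ 2 by rw [hq]; norm_num, Real.sqrt_sq hp.le]
      linear_combination e1 + e2 - 2 * e3) (by positivity) (by field_simp; rfl)
  have e2 : h0 * ((β ^ 2 - s ^ 2) * (1 / (2 * h0))) = (β ^ 2 - s ^ 2) / 2 := by
    field_simp
  have e3 := mul_le_mul_of_nonneg_left e hp.le
  rw [e2] at e3
  linear_combination e3 + (1 / 2) * (mul_nonneg (sub_nonneg.mpr h1) (sub_nonneg.mpr h1)) +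
    (mul_nonneg (sub_nonneg.mpr h1) (sub_nonneg.mpr h2))

theorem g_half_eq : g (1 / 2) = h0 := by
  have hp := h0_pos
  have hq := h0_sq
  unfold g
  rw [show (1 - (1 / 2) ^ 2 : ℝ) = h0 ^ 2 by rw [hq]; norm_num, Real.sqrt_sq hp.le]

/-- The exit above `h0 + s`, large angles. -/
theorem D3_nonneg {s β y E : ℝ} (hs : 0 < s) (hs2 : s ^ 2 ≤ 3 / 16) (h1 : s ≤ β)
    (h2 : β ≤ 1 / 2) (h3 : y ≤ s) (h4 : 7071 / 10000 * s ≤ y)
    (hE : E = y - s + β / 2 - h0 * ph β) :
    0 ≤ -ph β + ph (β - E) + (1 / 2 - g (h0 + E)) + 2 * ph s - 4 * ph y := by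
  have hs3 : s ≤ 43302 / 100000 := by exact not_lt.mp (fun hg__ => absurd hs2 (not_le.mpr (by linear_combination (21651 / 25000) * hg__ + (mul_pos (sub_pos.mpr hg__) (sub_pos.mpr hg__)))))
  have hh := h0_hi
  have hl := h0_lo
  have hp := h0_pos
  have hq := h0_sq
  have hy0 : 0 ≤ y := by linear_combination (7071 / 10000) * hs + h4
  have hβ2 : β ^ 2 ≤ 1 := by linear_combination (1 / 2) * h2 + (mul_nonneg (sub_nonneg.mpr (le_of_lt hs)) (sub_nonneg.mpr h2)) +
    (mul_nonneg (sub_nonneg.mpr h1) (sub_nonneg.mpr h2))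
  have b1 := beta_mono hs.le h1 h2
  have b2 := ph_hi4 hs2
  have b3 := ph_lo6 hβ2
  have s4 : s ^ 4 ≤ 3 / 16 * s ^ 2 := by linear_combination (mul_nonneg (sub_nonneg.mpr (sq_nonneg (s))) (sub_nonneg.mpr hs2))
  have hp4 : h0 * ph s ≤ 45549 / 100000 * s ^ 2 := by
    have k1 : ph s ≤ 52595 / 100000 * s ^ 2 := ph_hi2 hs2
    have k2 : h0 * ph s ≤ 86603 / 100000 * (52595 / 100000 * s ^ 2) :=
      mul_le_mul hh k1 (ph_nonneg s) (by norm_num)
    have := sq_nonneg s
    linear_combination k2 + (3043 / 2000000000) * this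
  have hE1 : y - s / 2 - 45549 / 100000 * s ^ 2 ≤ E := by
    rw [hE]
    linear_combination b1 + hp4
  have hE00 : 0 ≤ y - s / 2 - 45549 / 100000 * s ^ 2 := by linear_combination h4 + (49318601 / 2165100000) * (mul_pos (sub_pos.mpr hs) (sub_pos.mpr hs)) +
    (10355 / 21651) * (mul_nonneg (sub_nonneg.mpr (le_of_lt hs)) (sub_nonneg.mpr hs3))
  have hE0 : 0 ≤ E := hE00.trans hE1
  have hE7 : E ≤ 1 / 7 := by
    have k1 : β ^ 2 / 2 ≤ ph β := by
      have : 0 ≤ β ^ 4 / 8 + β ^ 6 / 16 := by positivity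
      linear_combination b3 + this
    have k2 : 86602 / 100000 * (β ^ 2 / 2) ≤ h0 * ph β :=
      mul_le_mul hl k1 (by positivity) hp.le
    rw [hE]
    linear_combination (6699 / 100000) * h2 + h3 + k2 + (43301 / 100000) * (mul_nonneg (sub_nonneg.mpr h2) (sub_nonneg.mpr h2))
  have w := W_lo hE0 hE7
  have hEβ : E ≤ β / 2 := by
    have := mul_nonneg hp.le (ph_nonneg β)
    rw [hE]
    linear_combination h3 + this
  have d := diff_hi_aux (a := β) (b := β - E) (w := 2 * h0) (T := 2 * h0 / 3)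
    (by nlinarith [mul_nonneg hE0 (by linear_combination (3 / 2) * hs + (3 / 2) * h1 + hEβ : (0 : ℝ) ≤ 2 * β - E)]) hβ2 (by
      have e1 := g_anti (a := β) (b := 1 / 2) (by linear_combination hs + h1) h2
      have e2 := g_le_of_abs (x := β - E) (e := 1 / 2) (by linear_combination h2 - hE + b1 + hp4 + hE00) (by linear_combination hs + h1 + hE7)
      rw [g_half_eq] at e1 e2
      linear_combination e1 + e2) (by positivity) (by linear_combination -(4 / 3) * hq)
  have d2 : (β ^ 2 - (β - E) ^ 2) * (2 * h0 / 3) ≤ E * (2 * h0 / 3) := by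
    apply mul_le_mul_of_nonneg_right _ (by positivity)
    linear_combination (sq_nonneg (E)) - hE + 2 * (mul_nonneg (sub_nonneg.mpr (le_of_lt hs)) (sub_nonneg.mpr (le_of_eq hE))) +
      2 * (mul_nonneg (sub_nonneg.mpr h1) (sub_nonneg.mpr (le_of_eq hE))) + 2 * (mul_nonneg (sub_nonneg.mpr h2) (sub_nonneg.mpr b1)) +
      2 * (mul_nonneg (sub_nonneg.mpr h2) (sub_nonneg.mpr hp4)) + 2 * (mul_nonneg (sub_nonneg.mpr h2) (sub_nonneg.mpr hE00))
  have c1 : 115469 / 100000 * E ≤ 2 * h0 * E - E * (2 * h0 / 3) := by linear_combination -(1 / 60000) * hE + (1 / 300000) * b1 + (1 / 300000) * hp4 + (1 / 300000) * hE00 +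
    (4 / 3) * (mul_nonneg (sub_nonneg.mpr (le_of_eq hE)) (sub_nonneg.mpr hh)) + (4 / 3) * (mul_nonneg (sub_nonneg.mpr hl) (sub_nonneg.mpr b1)) +
    (4 / 3) * (mul_nonneg (sub_nonneg.mpr hl) (sub_nonneg.mpr hp4)) + (4 / 3) * (mul_nonneg (sub_nonneg.mpr hl) (sub_nonneg.mpr hE00))
  have c2 : 115469 / 100000 * (y - s / 2 - 45549 / 100000 * s ^ 2) +
      4 * (y - s / 2 - 45549 / 100000 * s ^ 2) ^ 2 ≤ 115469 / 100000 * E + 4 * E ^ 2 := by
    have : (y - s / 2 - 45549 / 100000 * s ^ 2) ^ 2 ≤ E ^ 2 := pow_le_pow_left₀ hE00 hE1 2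
    linear_combination -(115469 / 100000) * hE + (115469 / 100000) * b1 + (115469 / 100000) * hp4 +
      4 * this
  have v1 := ph_lo6 (x := s) (by linear_combination hs2)
  have v2 := ph_hi6 (x := y) (by linear_combination hs2 + (17071 / 10000) * (mul_nonneg (sub_nonneg.mpr (le_of_lt hs)) (sub_nonneg.mpr h3)) +
    (mul_nonneg (sub_nonneg.mpr h3) (sub_nonneg.mpr h4)))
  obtain ⟨Y, hY⟩ : ∃ Y, Y = y / s := ⟨_, rfl⟩
  have hyY : y = Y * s := by
    rw [hY]
    field_simp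
  have hY1 : 7071 / 10000 ≤ Y := by
    rw [hY, le_div_iff₀ hs]
    exact h4
  have hY2 : Y ≤ 1 := by
    rw [hY, div_le_iff₀ hs]
    linear_combination h3
  have key := mul_nonneg hs.le (D3_poly hs.le hs3 hY1 hY2)
  have hY6 : Y ^ 6 ≤ 1 := pow_le_one₀ (by linear_combination hY1) hY2
  have v3 : 712 / 10000 * y ^ 6 ≤ 712 / 10000 * s ^ 6 := by
    rw [hyY]
    have : (Y * s) ^ 6 = Y ^ 6 * s ^ 6 := by ring
    rw [this]
    have := mul_le_mul_of_nonneg_right hY6 (by positivity : 0 ≤ s ^ 6)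
    linear_combination (89 / 1250) * this
  have v4 : 0 ≤ s ^ 6 := by positivity
  rw [hyY] at c2 v2 v3 ⊢
  linear_combination w + d + d2 + c1 + 2 * v1 + 4 * v2 + c2 + key + 4 * v3 + (1 / 5000) * v4

end Pool.Agent.Strip051.Four.Low
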