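import Pool.Agent.Strip051.Four.LowD

/-! # The defect is monotone on both sides of the curve -/

namespace Pool.Agent.Strip051.Four.Low

open Pool.Agent.StripNear Pool.Agent.StripSquare Pool.Agent.Strip051

/-- Crude lower bound for a difference. -/
theorem diff_lo' {a b : ℝ} (h0 : b ^ 2 ≤ a ^ 2) (h1 : a ^ 2 ≤ 1) :
    (a ^ 2 - b ^ 2) / 2 ≤ ph a - ph b := by
  have ga := g_sq h1
  have gb := g_sq (h0.trans h1)
  have a0 := g_nonneg a
  have b0 := g_nonneg b
  have a1 := g_le_one a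
  have b1 := g_le_one b
  have hab : g a ≤ g b := by
    have : g a ^ 2 ≤ g b ^ 2 := by linear_combination h0 + ga - gb
    exact abs_le_of_sq_le_sq' this b0 |>.2
  unfold ph
  nlinarith [mul_nonneg (sub_nonneg.2 hab) (by linear_combination a1 + b1 : 0 ≤ 2 - (g a + g b))]

/-- Crude upper bound for a difference. -/
theorem diff_up {a b : ℝ} (h0 : b ^ 2 ≤ a ^ 2) (h1 : a ^ 2 ≤ 3 / 16) :
    ph a - ph b ≤ (a ^ 2 - b ^ 2) * (555 / 1000) := by
  have key : ∀ x : ℝ, x ^ 2 ≤ 3 / 16 → 90135 / 100000 ≤ g x := by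
    intro x hx
    unfold g
    apply Real.le_sqrt_of_sq_le
    linear_combination hx
  have ka := key a h1
  have kb := key b (h0.trans h1)
  exact diff_hi_aux (w := 2 * (90135 / 100000)) h0 (by linear_combination h1) (by linear_combination ka + kb) (by norm_num)
    (by norm_num)

/-- The exit is not far beyond `h0 + s`. -/
theorem E_le {s β y E : ℝ} (h0' : 0 ≤ β) (h2 : β ≤ 1 / 2) (h3 : y ≤ s)
    (hE : E = y - s + β / 2 - h0 * ph β) : E ≤ 1 / 7 := by
  have hl := h0_lo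
  have hp := h0_pos
  have b3 := ph_lo6 (x := β) (by linear_combination (1 / 2) * h2 + (mul_nonneg (sub_nonneg.mpr h0') (sub_nonneg.mpr h2)))
  have k1 : β ^ 2 / 2 ≤ ph β := by
    have : 0 ≤ β ^ 4 / 8 + β ^ 6 / 16 := by positivity
    linear_combination b3 + this
  have k2 : 86602 / 100000 * (β ^ 2 / 2) ≤ h0 * ph β :=
    mul_le_mul hl k1 (by positivity) hp.le
  rw [hE]
  linear_combination (6699 / 100000) * h2 + h3 + k2 + (43301 / 100000) * (mul_nonneg (sub_nonneg.mpr h2) (sub_nonneg.mpr h2))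

/-- The exit above `h0 + s`, the centre above `h0 + s / 2`. -/
theorem D1'_nonneg {s β y E : ℝ} (hs : 0 < s) (hs2 : s ^ 2 ≤ 3 / 16) (h1 : 0 ≤ β)
    (h2 : β ≤ s / 2) (h3 : y ≤ s) (hE : E = y - s + β / 2 - h0 * ph β) (hE0 : 0 ≤ E) :
    0 ≤ -2 * ph β + ph (s + E) + (1 / 2 - g (h0 + E)) - ph (s / 2) + ph (s + E - β) +
      ph (s / 2 + E - β) + 2 * ph s - 4 * ph y := by
  have hs3 : s ≤ 43302 / 100000 := by exact not_lt.mp (fun hg__ => absurd hs2 (not_le.mpr (by linear_combination (21651 / 25000) * hg__ + (mul_pos (sub_pos.mpr hg__) (sub_pos.mpr hg__)))))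
  have hl := h0_lo
  have hE7 := E_le h1 (by linear_combination h2 + (1 / 2) * hs3) h3 hE
  have hF := F1_nonneg hs hs2 h1 h2
  have w := W_lo hE0 hE7
  have hκ := ph_nonneg β
  have hp := h0_pos
  have hys : s - β / 2 + h0 * ph β = y - E := by
    rw [hE]
    ring
  rw [hys] at hF
  have hyE : 0 ≤ y - E := by
    rw [← hys]
    have := mul_nonneg hp.le hκ
    linear_combination (3 / 4) * hs + (1 / 2) * h2 + this
  have a1 := diff_lo' (a := s + E) (b := s) (by linear_combination (sq_nonneg (E)) + 2 * (mul_nonneg (sub_nonneg.mpr (le_of_lt hs)) (sub_nonneg.mpr hE0))) (by linear_combination hs2 + (2 / 7) * hs3 + (1 / 7) * hE7 + 2 * (mul_nonneg (sub_nonneg.mpr (le_of_lt hs)) (sub_nonneg.mpr hE7)) +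
    (mul_nonneg (sub_nonneg.mpr hE0) (sub_nonneg.mpr hE7)))
  have a2 := diff_lo' (a := s + E - β) (b := s - β) (by linear_combination (sq_nonneg (E)) + (mul_nonneg (sub_nonneg.mpr (le_of_lt hs)) (sub_nonneg.mpr hE0)) +
    2 * (mul_nonneg (sub_nonneg.mpr h2) (sub_nonneg.mpr hE0))) (by linear_combination hs2 + (2 / 7) * hs3 + (1 / 7) * hE7 + (3 / 2) * (mul_nonneg (sub_nonneg.mpr (le_of_lt hs)) (sub_nonneg.mpr h1)) +
    2 * (mul_nonneg (sub_nonneg.mpr (le_of_lt hs)) (sub_nonneg.mpr hE7)) + (mul_nonneg (sub_nonneg.mpr h1) (sub_nonneg.mpr h2)) +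
    2 * (mul_nonneg (sub_nonneg.mpr h1) (sub_nonneg.mpr hE0)) + (mul_nonneg (sub_nonneg.mpr hE0) (sub_nonneg.mpr hE7)))
  have a3 := diff_lo' (a := s / 2 + E - β) (b := s / 2 - β) (by linear_combination (sq_nonneg (E)) + 2 * (mul_nonneg (sub_nonneg.mpr h2) (sub_nonneg.mpr hE0))) (by linear_combination (1 / 4) * hs2 + (1 / 7) * hs3 + (1 / 7) * hE7 + (1 / 2) * (mul_nonneg (sub_nonneg.mpr (le_of_lt hs)) (sub_nonneg.mpr h1)) +
    (mul_nonneg (sub_nonneg.mpr (le_of_lt hs)) (sub_nonneg.mpr hE7)) + (mul_nonneg (sub_nonneg.mpr h1) (sub_nonneg.mpr h2)) +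
    2 * (mul_nonneg (sub_nonneg.mpr h1) (sub_nonneg.mpr hE0)) + (mul_nonneg (sub_nonneg.mpr hE0) (sub_nonneg.mpr hE7)))
  have a4 := diff_up (a := y) (b := y - E) (by linear_combination (sq_nonneg (E)) + 2 * (mul_nonneg (sub_nonneg.mpr hE0) (sub_nonneg.mpr hyE))) (by linear_combination hs2 + (mul_nonneg (sub_nonneg.mpr (le_of_lt hs)) (sub_nonneg.mpr h3)) +
    (mul_nonneg (sub_nonneg.mpr h3) (sub_nonneg.mpr hE0)) + (mul_nonneg (sub_nonneg.mpr h3) (sub_nonneg.mpr hyE)))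
  have a5 : (y ^ 2 - (y - E) ^ 2) * (555 / 1000) ≤ E * (111 / 100 * s) := by
    have : y ^ 2 - (y - E) ^ 2 ≤ E * (2 * s) := by linear_combination (sq_nonneg (E)) + 2 * (mul_nonneg (sub_nonneg.mpr h3) (sub_nonneg.mpr hE0))
    linear_combination (111 / 200) * this
  have a6 : 0 ≤ E * (2 * h0 - 294 / 100 * s) := mul_nonneg hE0 (by linear_combination (147 / 50) * hs3 + 2 * hl)
  nlinarith [mul_nonneg hE0 (by linear_combination h2 : 0 ≤ s / 2 - β)]

/-- The exit above `h0 + s`, the centre below `h0 + s / 2`. -/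
theorem D2'_nonneg {s β y E : ℝ} (hs : 0 < s) (hs2 : s ^ 2 ≤ 3 / 16) (h1 : s / 2 ≤ β)
    (h2 : β ≤ s) (h3 : y ≤ s) (hE : E = y - s + β / 2 - h0 * ph β) (hE0 : 0 ≤ E) :
    0 ≤ -2 * ph β + ph (β - s / 2 - E) - ph (s / 2) + (1 / 2 - g (h0 + E)) + ph (β - E) +
      ph (s + E) + 2 * ph s - 4 * ph y := by
  have hs3 : s ≤ 43302 / 100000 := by exact not_lt.mp (fun hg__ => absurd hs2 (not_le.mpr (by linear_combination (21651 / 25000) * hg__ + (mul_pos (sub_pos.mpr hg__) (sub_pos.mpr hg__)))))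
  have hl := h0_lo
  have hh := h0_hi
  have hβ0 : 0 ≤ β := by linear_combination (1 / 2) * hs + h1
  have hE7 := E_le hβ0 (by linear_combination h2 + hs3) h3 hE
  have hF := F2_nonneg hs hs2 h1 h2
  have w := W_lo hE0 hE7
  have hκ := ph_nonneg β
  have hp := h0_pos
  have hys : s - β / 2 + h0 * ph β = y - E := by
    rw [hE]
    ring
  have hEβ : E ≤ β / 2 := by
    have := mul_nonneg hp.le hκ
    rw [hE]
    linear_combination h3 + this
  have hκs : h0 * ph β ≤ 19724 / 100000 * s := by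
    have k1 : ph β ≤ ph s := ph_mono hβ0 h2
    have k2 : ph s ≤ 52595 / 100000 * s ^ 2 := ph_hi2 hs2
    have k3 : h0 * ph β ≤ 86603 / 100000 * (52595 / 100000 * s ^ 2) :=
      mul_le_mul hh (k1.trans k2) hκ (by norm_num)
    linear_combination k3 + (437903993 / 43302000000000) * (mul_pos (sub_pos.mpr hs) (sub_pos.mpr hs)) +
      (9862 / 21651) * (mul_nonneg (sub_nonneg.mpr (le_of_lt hs)) (sub_nonneg.mpr hs3))
  rw [hys] at hF
  have hyE : 0 ≤ y - E := by
    rw [← hys]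
    have := mul_nonneg hp.le hκ
    linear_combination (1 / 2) * hs + (1 / 2) * h2 + this
  have a1 := diff_lo' (a := s + E) (b := s) (by linear_combination (sq_nonneg (E)) + 2 * (mul_nonneg (sub_nonneg.mpr (le_of_lt hs)) (sub_nonneg.mpr hE0))) (by linear_combination (3 / 2) * hs2 + (21651 / 50000) * h2 + (21651 / 100000) * hs3 + (1 / 7) * hE7 +
    2 * (mul_nonneg (sub_nonneg.mpr (le_of_lt hs)) (sub_nonneg.mpr hEβ)) + (mul_nonneg (sub_nonneg.mpr h1) (sub_nonneg.mpr hs3)) +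
    (mul_nonneg (sub_nonneg.mpr hE0) (sub_nonneg.mpr hE7)))
  have a2 := diff_up (a := β) (b := β - E) (by linear_combination (3 / 4) * (mul_nonneg (sub_nonneg.mpr (le_of_lt hs)) (sub_nonneg.mpr hE0)) +
    (3 / 2) * (mul_nonneg (sub_nonneg.mpr h1) (sub_nonneg.mpr hE0)) + (mul_nonneg (sub_nonneg.mpr hE0) (sub_nonneg.mpr hEβ))) (by linear_combination hs2 + (3 / 2) * (mul_nonneg (sub_nonneg.mpr (le_of_lt hs)) (sub_nonneg.mpr h2)) +
    (mul_nonneg (sub_nonneg.mpr h1) (sub_nonneg.mpr h2)))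
  have a3 : ph (β - s / 2) - ph (β - s / 2 - E) ≤ E * (2 * β - s) * (555 / 1000) := by
    rcases le_total ((β - s / 2 - E) ^ 2) ((β - s / 2) ^ 2) with h | h
    · have := diff_up (a := β - s / 2) (b := β - s / 2 - E) h (by linear_combination (1 / 4) * hs2 + (1 / 2) * (mul_nonneg (sub_nonneg.mpr (le_of_lt hs)) (sub_nonneg.mpr h2)) +
      (mul_nonneg (sub_nonneg.mpr h1) (sub_nonneg.mpr h2)))
      linear_combination (111 / 200) * (sq_nonneg (E)) + this
    · have := diff_lo' (a := β - s / 2 - E) (b := β - s / 2) h (by linear_combination (21651 / 100000) * h2 + (21651 / 200000) * hs3 + (1 / 7) * hE7 +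
      (mul_nonneg (sub_nonneg.mpr h1) (sub_nonneg.mpr h2)) + 2 * (mul_nonneg (sub_nonneg.mpr h1) (sub_nonneg.mpr hE0)) +
      (1 / 2) * (mul_nonneg (sub_nonneg.mpr h1) (sub_nonneg.mpr hs3)) + (mul_nonneg (sub_nonneg.mpr hE0) (sub_nonneg.mpr hE7)))
      have : 0 ≤ E * (2 * β - s) := mul_nonneg hE0 (by linear_combination 2 * h1)
      linear_combination (1 / 2) * h + (111 / 200) * this + (‹((β - s / 2 - E) ^ 2 - (β - s / 2) ^ 2) / 2 ≤ ph (β - s / 2 - E) - ph (β - s / 2)›)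
  have a4 := diff_up (a := y) (b := y - E) (by linear_combination (sq_nonneg (E)) + 2 * (mul_nonneg (sub_nonneg.mpr hE0) (sub_nonneg.mpr hyE))) (by linear_combination hs2 + (mul_nonneg (sub_nonneg.mpr (le_of_lt hs)) (sub_nonneg.mpr h3)) +
    (mul_nonneg (sub_nonneg.mpr h3) (sub_nonneg.mpr hE0)) + (mul_nonneg (sub_nonneg.mpr h3) (sub_nonneg.mpr hyE)))
  have a5 : 0 ≤ E * (2 * h0 + s - 555 / 1000 * (7 * s + 8 * (h0 * ph β))) :=
    mul_nonneg hE0 (by linear_combination (1175233 / 312500) * hs3 + 2 * hl + (111 / 25) * hκs)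
  have a6 : y = s - β / 2 + h0 * ph β + E := by linear_combination -hE
  have a7 : (y ^ 2 - (y - E) ^ 2) = E * (2 * (s - β / 2 + h0 * ph β) + E) := by
    rw [a6]
    ring
  rw [a7] at a4
  linear_combination (567 / 200) * (mul_nonneg hE0 hE0) + hF + w + a1 + a2 + a3 + 4 * a4 + a5

/-- The exit above `h0 + s`, the centre below `h0`. -/
theorem D3'_nonneg {s β y E : ℝ} (hs : 0 < s) (hs2 : s ^ 2 ≤ 3 / 16) (h1 : s / 2 ≤ β)
    (h2 : β ≤ s) (h3 : y ≤ s) (hE : E = y - s + β / 2 - h0 * ph β) (hE0 : 0 ≤ E)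
    (hB : s + E - β ≤ 0) :
    0 ≤ -ph β + ph (β - E) + (1 / 2 - g (h0 + E)) + 2 * ph s - 4 * ph y := by
  have hs3 : s ≤ 43302 / 100000 := by exact not_lt.mp (fun hg__ => absurd hs2 (not_le.mpr (by linear_combination (21651 / 25000) * hg__ + (mul_pos (sub_pos.mpr hg__) (sub_pos.mpr hg__)))))
  have h := D2'_nonneg hs hs2 h1 h2 h3 hE hE0
  have h4 := four (x := s / 2) (y := β - s / 2 - E) (z := s + E) (w := β) (by linear_combination (1 / 2) * hs)
    (by linear_combination h2 + hs3) (by linear_combination hB) (by linear_combination (1 / 2) * hs + hE0) (by ring)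
  unfold ph at h ⊢
  linear_combination h + h4

/-- The exit below `h0 + s`, the centre above `h0 + s / 2`. -/
theorem D1_nonneg {s β y F : ℝ} (hs : 0 < s) (hs2 : s ^ 2 ≤ 3 / 16) (h1 : 0 ≤ β)
    (h2 : β ≤ s / 2) (h3 : y ≤ s) (h4 : 0 ≤ y) (hF : F = s - β / 2 + h0 * ph β - y)
    (hF0 : 0 ≤ F) :
    0 ≤ ph (s - F) + ph (s - β - F) + ph (s / 2 - F) + ph (s / 2 - β - F) - 2 * ph (s / 2) -
      4 * ph y + 2 * ph s - 2 * ph β := by
  have hs3 : s ≤ 43302 / 100000 := by exact not_lt.mp (fun hg__ => absurd hs2 (not_le.mpr (by linear_combination (21651 / 25000) * hg__ + (mul_pos (sub_pos.mpr hg__) (sub_pos.mpr hg__)))))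
  have hl := h0_lo
  have hh := h0_hi
  have hκ := ph_nonneg β
  have hp := h0_pos
  have hK := F1_nonneg hs hs2 h1 h2
  have hys : s - β / 2 + h0 * ph β = y + F := by
    rw [hF]
    ring
  rw [hys] at hK
  have hyF : y + F ≤ s := by
    rw [← hys]
    have k1 := beta_mono (s := 0) (β := β) le_rfl h1 (by linear_combination h2 + (1 / 2) * hs3)
    rw [ph_zero] at k1
    linear_combination k1
  have key : ∀ x : ℝ, 0 ≤ x → x ≤ s →
      ph x - ph (x - F) ≤ F * (2 * x - F) / 2 + 11 / 100 * x * F := by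
    intro x hx hxs
    have hxF : 0 ≤ x * F := mul_nonneg hx hF0
    rcases le_total ((x - F) ^ 2) (x ^ 2) with h | h
    · have := diff_up (a := x) (b := x - F) h (by linear_combination hs2 + (mul_nonneg (sub_nonneg.mpr (le_of_lt hs)) (sub_nonneg.mpr hxs)) +
      (mul_nonneg (sub_nonneg.mpr hx) (sub_nonneg.mpr hxs)))
      linear_combination (11 / 200) * (mul_nonneg hF0 hF0) + this
    · have := diff_lo' (a := x - F) (b := x) h (by linear_combination 2 * hs2 + 2 * hxF + (mul_nonneg (sub_nonneg.mpr (le_of_lt hs)) (sub_nonneg.mpr h4)) +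
      (mul_nonneg (sub_nonneg.mpr (le_of_lt hs)) (sub_nonneg.mpr hxs)) + (mul_nonneg (sub_nonneg.mpr h3) (sub_nonneg.mpr h4)) +
      (mul_nonneg (sub_nonneg.mpr h3) (sub_nonneg.mpr hyF)) + (mul_nonneg (sub_nonneg.mpr hF0) (sub_nonneg.mpr hyF)) +
      (mul_nonneg (sub_nonneg.mpr hx) (sub_nonneg.mpr hxs)))
      linear_combination (11 / 100) * hxF + this
  have a1 := key s hs.le le_rfl
  have a2 := key (s - β) (by linear_combination (1 / 2) * hs + h2) (by linear_combination h1)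
  have a3 := key (s / 2) (by linear_combination (1 / 2) * hs) (by linear_combination (1 / 2) * hs)
  have a4 := key (s / 2 - β) (by linear_combination h2) (by linear_combination (1 / 2) * hs + h1)
  have a5 := diff_lo' (a := y + F) (b := y) (by linear_combination 2 * (mul_nonneg (sub_nonneg.mpr h4) (sub_nonneg.mpr hF0)) + (mul_nonneg (sub_nonneg.mpr hF0) (sub_nonneg.mpr hF0))) (by linear_combination 2 * hs2 + (mul_nonneg (sub_nonneg.mpr (le_of_lt hs)) (sub_nonneg.mpr h4)) +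
    2 * (mul_nonneg (sub_nonneg.mpr (le_of_lt hs)) (sub_nonneg.mpr hyF)) + (mul_nonneg (sub_nonneg.mpr h3) (sub_nonneg.mpr h4)) +
    (mul_nonneg (sub_nonneg.mpr h3) (sub_nonneg.mpr hF0)) + (mul_nonneg (sub_nonneg.mpr hF0) (sub_nonneg.mpr hyF)))
  have a6 : 0 ≤ F * (67 / 100 * s + 22 / 100 * β + 4 * (h0 * ph β)) := by positivity
  have a7 : y = s - β / 2 + h0 * ph β - F := by linear_combination hF
  have a8 : (y + F) ^ 2 - y ^ 2 = F * (2 * (s - β / 2 + h0 * ph β) - F) := by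
    rw [a7]
    ring
  rw [a8] at a5
  linear_combination hK + a1 + a2 + a3 + a4 + 4 * a5 + a6

/-- The exit below `h0 + s`, the centre below `h0 + s / 2`. -/
theorem D2_nonneg {s β y F : ℝ} (hs : 0 < s) (hs2 : s ^ 2 ≤ 3 / 16) (h1 : s / 2 ≤ β)
    (h2 : β ≤ s) (h3 : y ≤ s) (h4 : 7071 / 10000 * s ≤ y)
    (hF : F = s - β / 2 + h0 * ph β - y) (hF0 : 0 ≤ F) :
    0 ≤ -ph β + ph (β - s / 2 + F) + ph (s - F) - ph (s / 2) - 4 * ph y + 2 * ph s := by
  have hs3 : s ≤ 43302 / 100000 := by exact not_lt.mp (fun hg__ => absurd hs2 (not_le.mpr (by linear_combination (21651 / 25000) * hg__ + (mul_pos (sub_pos.mpr hg__) (sub_pos.mpr hg__)))))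
  have hl := h0_lo
  have hh := h0_hi
  have hκ := ph_nonneg β
  have hp := h0_pos
  have hK := F2_nonneg hs hs2 h1 h2
  have hys : s - β / 2 + h0 * ph β = y + F := by
    rw [hF]
    ring
  rw [hys] at hK
  have hyF : y + F ≤ s := by
    rw [← hys]
    have k1 := beta_mono (s := 0) (β := β) le_rfl (by linear_combination (1 / 2) * hs + h1) (by linear_combination h2 + hs3)
    rw [ph_zero] at k1
    linear_combination k1
  have a1 := ph_mono (a := β - s / 2) (b := β - s / 2 + F) (by linear_combination h1) (by linear_combination hF0)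
  have a2 := diff_up (a := s) (b := s - F) (by linear_combination (17071 / 10000) * (mul_nonneg (sub_nonneg.mpr (le_of_lt hs)) (sub_nonneg.mpr hF0)) +
    (mul_nonneg (sub_nonneg.mpr h4) (sub_nonneg.mpr hF0)) + (mul_nonneg (sub_nonneg.mpr hF0) (sub_nonneg.mpr hyF))) hs2
  have a3 := diff_lo' (a := y + F) (b := y) (by linear_combination (7071 / 5000) * (mul_nonneg (sub_nonneg.mpr (le_of_lt hs)) (sub_nonneg.mpr hF0)) +
    2 * (mul_nonneg (sub_nonneg.mpr h4) (sub_nonneg.mpr hF0)) + (mul_nonneg (sub_nonneg.mpr hF0) (sub_nonneg.mpr hF0))) (by linear_combination (2929 / 20000) * (sq_nonneg (s - F)) + (22929 / 20000) * hs2 + (17071 / 10000) * (mul_nonneg (sub_nonneg.mpr (le_of_lt hs)) (sub_nonneg.mpr hyF)) +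
    (mul_nonneg (sub_nonneg.mpr h3) (sub_nonneg.mpr h4)) + (17071 / 20000) * (mul_nonneg (sub_nonneg.mpr h3) (sub_nonneg.mpr hF0)) +
    (22929 / 20000) * (mul_nonneg (sub_nonneg.mpr hF0) (sub_nonneg.mpr hyF)))
  have a4 : 0 ≤ F * (2 * (y + F) + 2 * y - 111 / 100 * s) := mul_nonneg hF0 (by linear_combination (1074 / 625) * hs + 4 * h4 + 2 * hF0)
  linear_combination (111 / 200) * (mul_nonneg hF0 hF0) + hK + a1 + a2 + 4 * a3 + a4

/-- The exit below `h0 + s`, the centre below `h0 + s / 2`, small angles. -/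
theorem D4_nonneg {s β y F : ℝ} (hs : 0 < s) (hs2 : s ^ 2 ≤ 3 / 16) (h1 : 0 ≤ β)
    (h2 : β ≤ s / 2) (h3 : y ≤ s) (h4 : 0 ≤ y) (hF : F = s - β / 2 + h0 * ph β - y)
    (hF0 : 0 ≤ F) (hB0 : 0 ≤ s - β - F) (hB1 : s - β - F ≤ s / 2) (hA : F ≤ s / 2) :
    0 ≤ -ph β + ph (β - s / 2 + F) + ph (s - F) - ph (s / 2) - 4 * ph y + 2 * ph s := by
  have h := D1_nonneg hs hs2 h1 h2 h3 h4 hF hF0
  have a1 := ph_mono (a := s / 2 - F) (b := β) (by linear_combination hA) (by linear_combination hB1)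
  have a2 := ph_mono (a := s - β - F) (b := s / 2) hB0 hB1
  have a3 : ph (s / 2 - β - F) = ph (β - s / 2 + F) := by
    rw [← ph_neg]
    congr 1
    ring
  linear_combination h + a1 + a2 + a3

end Pool.Agent.Strip051.Four.Low
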