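import Pool.Agent.Strip051.Four.LowReal

/-! # The two inequalities on the curve where the exit is at `h0 + s` -/

namespace Pool.Agent.Strip051.Four.Low

open Pool.Agent.StripNear Pool.Agent.StripSquare Pool.Agent.Strip051

/-- The polynomial inequality behind `F1_nonneg`. -/
theorem F1_poly {s b : ℝ} (hs : 0 ≤ s) (hs2 : s ≤ 43302 / 100000) (hb2 : b ≤ 1 / 2) :
    0 ≤ 1 / 2 * (1 - b) - 17536 / 10000 * b * s + 8768 / 10000 * b ^ 2 * s +
      (345 / 1000 - 245 / 1000 * b) * s ^ 2 + 34 / 100 * s ^ 4 := by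
  have h1 : 0 ≤ (1 / 2 - b) * (1 / 2 + s * (17536 / 10000 - 8768 / 10000 * (b + 1 / 2)) +
      245 / 1000 * s ^ 2) := by
    apply mul_nonneg (by linear_combination hb2)
    have : 0 ≤ s * (17536 / 10000 - 8768 / 10000 * (b + 1 / 2)) :=
      mul_nonneg hs (by linear_combination (548 / 625) * hb2)
    positivity
  have h2 : 0 ≤ 1 / 4 - 6576 / 10000 * s + 2225 / 10000 * s ^ 2 := by linear_combination (4649061 / 10000000) * hs2 + (89 / 400) * (mul_nonneg (sub_nonneg.mpr hs2) (sub_nonneg.mpr hs2))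
  have h3 : 0 ≤ s ^ 4 := by positivity
  linear_combination h1 + h2 + (17 / 50) * h3

theorem m1 {b : ℝ} (hb : 0 ≤ b) (hb2 : b ≤ 1 / 2) :
    345 / 1000 - 245 / 1000 * b ≤ (1 / 2 - 1899 / 10000 * b) *
      (4 - 6 * (b * (1 / 2 - 1899 / 10000 * b)) + 15 / 4 * (b * (1 / 2 - 1899 / 10000 * b)) ^ 2) / 2
      - 6406 / 10000 * b ^ 3 - 1459 / 10000 * (2 - b) * (1 + (1 - b) ^ 2)
      - 13 / 100 * (1 - b) * (1 / 4 + (1 / 2 - b) ^ 2) := by
  have h1 : 0 ≤ 1 / 2 - b := by linear_combination hb2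
  linear_combination (4937477029097 / 12800000000000) * (mul_nonneg hb h1) + (2063771733097 / 3200000000000) * (mul_nonneg (mul_nonneg hb hb) h1) +
    (304013562903 / 3200000000000) * (mul_nonneg (mul_nonneg hb h1) (mul_nonneg hb h1)) +
    (20544527097 / 1600000000000) * (mul_nonneg (mul_nonneg (mul_nonneg hb hb) (mul_nonneg hb hb)) h1) +
    (186117029097 / 25600000000000) * hb2

theorem m2 {b : ℝ} (hb : 0 ≤ b) (hb2 : b ≤ 1 / 2) :
    1161 / 1000 ≤ (1 / 2 - 1899 / 10000 * b) *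
      (4 - 6 * (b * (1 / 2 - 1899 / 10000 * b)) + 15 / 4 * (b * (1 / 2 - 1899 / 10000 * b)) ^ 2) := by
  have h1 : 0 ≤ 1 / 2 - b := by linear_combination hb2
  have h2 : 0 ≤ b * (1 / 2 - 1899 / 10000 * b) := mul_nonneg hb (by linear_combination (1899 / 10000) * hb2)
  have h3 : b * (1 / 2 - 1899 / 10000 * b) ≤ 1 / 4 - 0.0474 := by nlinarith
  linear_combination (403854633 / 800000000) * (mul_nonneg (mul_nonneg hb hb) h1) + (1588599633 / 1600000000) * hb2 +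
    (5697 / 8000) * (mul_nonneg (sub_nonneg.mpr (sq_nonneg (b * (1 / 2 - 1899 / 10000 * b)))) (sub_nonneg.mpr hb2)) +
    (87641502903 / 1600000000000) * (mul_nonneg (sub_nonneg.mpr (mul_self_nonneg (b))) (sub_nonneg.mpr (mul_self_nonneg (b)))) +
    (2026760367 / 1600000000) * (mul_nonneg (sub_nonneg.mpr hb2) (sub_nonneg.mpr hb2))

/-- The bracket of `F1_nonneg`. -/
theorem F1_bracket {s b e : ℝ} (hs : 0 ≤ s) (hs2 : s ≤ 43302 / 100000) (hb : 0 ≤ b)
    (hb2 : b ≤ 1 / 2) (he : b / 2 - 4384 / 10000 * b ^ 2 * s ≤ e) (he2 : e ≤ b / 2) :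
    0 ≤ 4 * (e * (2 - e)) * (1 / 2 + s ^ 2 * (1 + (1 - e) ^ 2) / 8 +
        3 * s ^ 4 * (1 + (1 - e) ^ 2) ^ 2 / 64) -
      b * (2 - b) * (1 / 2 + 1459 / 10000 * (s ^ 2 * (1 + (1 - b) ^ 2))) -
      b * (1 - b) * (1 / 2 + 13 / 100 * (s ^ 2 * (1 / 4 + (1 / 2 - b) ^ 2))) - b ^ 2 -
      2562 / 10000 * b ^ 4 * s ^ 2 := by
  obtain ⟨e0, he0⟩ : ∃ e0, e0 = b / 2 - 4384 / 10000 * b ^ 2 * s := ⟨_, rfl⟩
  obtain ⟨e1, he1⟩ : ∃ e1, e1 = b * (1 / 2 - 1899 / 10000 * b) := ⟨_, rfl⟩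
  have hbs : b ^ 2 * s ≤ b ^ 2 * (43302 / 100000) := mul_le_mul_of_nonneg_left hs2 (sq_nonneg b)
  have h10 : e1 ≤ e0 := by
    rw [he1, he0]
    linear_combination (2001 / 31250000) * (sq_nonneg b) + (274 / 625) * hbs
  have h1 : 0 ≤ e1 := by
    rw [he1]
    exact mul_nonneg hb (by linear_combination (1899 / 10000) * hb2)
  have h0e : e0 ≤ e := by rw [he0]; exact he
  have hE : e ≤ 1 / 4 := by linear_combination (1 / 2) * hb2 + he2
  -- first part
  have p1 : 2 * (e0 * (2 - e0)) ≤ 4 * (e * (2 - e)) * (1 / 2) := by linear_combination 3 * he + 4 * he0 + 2 * (mul_nonneg (sub_nonneg.mpr hb) (sub_nonneg.mpr (ge_of_eq he0))) +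
    2 * (mul_nonneg (sub_nonneg.mpr hb2) (sub_nonneg.mpr he)) + 2 * (mul_nonneg (sub_nonneg.mpr he) (sub_nonneg.mpr he)) +
    4 * (mul_nonneg (sub_nonneg.mpr he) (sub_nonneg.mpr he2)) + 4 * (mul_nonneg (sub_nonneg.mpr he) (sub_nonneg.mpr (le_of_eq he0))) +
    4 * (mul_nonneg (sub_nonneg.mpr he2) (sub_nonneg.mpr (le_of_eq he0))) + 2 * (mul_nonneg (sub_nonneg.mpr (le_of_eq he0)) (sub_nonneg.mpr (le_of_eq he0)))
  -- second part
  have p2 : e1 * (4 - 6 * e1 + 15 / 4 * e1 ^ 2) ≤ e * (2 - e) * (1 + (1 - e) ^ 2) := by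
    have q1 : (1 - e) ^ 4 ≤ (1 - e1) ^ 4 := pow_le_pow_left₀ (by linear_combination (1 / 2) * hb2 + he2) (by linear_combination (1978125 / 1977458) * he + (667 / 1977458) * he2 + he1 + (3165 / 7217) * hbs) 4
    have q2 : e * (2 - e) * (1 + (1 - e) ^ 2) = 1 - (1 - e) ^ 4 := by ring
    have q3 : e1 * (4 - 6 * e1 + 15 / 4 * e1 ^ 2) ≤ 1 - (1 - e1) ^ 4 := by
      have : 1 - (1 - e1) ^ 4 - e1 * (4 - 6 * e1 + 15 / 4 * e1 ^ 2) = e1 ^ 3 * (1 / 4 - e1) := by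
        ring
      have := mul_nonneg (pow_nonneg h1 3) (by linear_combination (1 / 2) * hb2 + (1978125 / 1977458) * he + (1978125 / 1977458) * he2 +
        he1 + (3165 / 7217) * hbs : (0 : ℝ) ≤ 1 / 4 - e1)
      linear_combination this
    linear_combination q1 + q3
  obtain ⟨M, hM⟩ : ∃ M, M = (1 / 2 - 1899 / 10000 * b) *
      (4 - 6 * (b * (1 / 2 - 1899 / 10000 * b)) +
        15 / 4 * (b * (1 / 2 - 1899 / 10000 * b)) ^ 2) := ⟨_, rfl⟩
  have hbM : e1 * (4 - 6 * e1 + 15 / 4 * e1 ^ 2) = b * M := by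
    rw [he1, hM]
    ring
  rw [hbM] at p2
  have k1 := m1 hb hb2
  have k2 := m2 hb hb2
  rw [← hM] at k1 k2
  have k3 := F1_poly (b := b) hs hs2 hb2
  have hbM0 : 0 ≤ b * M := mul_nonneg hb (by linear_combination k2)
  have hQ : 25 / 16 ≤ 1 + (1 - e) ^ 2 := by linear_combination (3955583 / 7912500) * (sq_nonneg (1 / 2 - b)) + (2472823 / 3956250) * hb2 +
    (5 / 4) * he2 - (988729 / 3956250) * he1 + (988729 / 1978125) * (mul_nonneg (sub_nonneg.mpr (sq_nonneg (b))) (sub_nonneg.mpr hb2)) +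
    (988729 / 1978125) * (mul_nonneg (sub_nonneg.mpr (sq_nonneg (b))) (sub_nonneg.mpr (le_of_eq he1))) +
    (mul_nonneg (sub_nonneg.mpr (sq_nonneg (1 - b))) (sub_nonneg.mpr he2)) + (988729 / 1978125) * (mul_nonneg (sub_nonneg.mpr (sq_nonneg (1 - b))) (sub_nonneg.mpr (le_of_eq he1))) +
    (mul_nonneg (sub_nonneg.mpr (sq_nonneg (1 / 2 - b))) (sub_nonneg.mpr he)) + (274 / 625) * (mul_nonneg (sub_nonneg.mpr (sq_nonneg (1 / 2 - b))) (sub_nonneg.mpr hbs)) +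
    (1977458 / 1978125) * (mul_nonneg (sub_nonneg.mpr (sq_nonneg (1 / 2 - b))) (sub_nonneg.mpr h1)) +
    (mul_nonneg (sub_nonneg.mpr he2) (sub_nonneg.mpr he2))
  obtain ⟨R, hR⟩ : ∃ R, R = e * (2 - e) * (1 + (1 - e) ^ 2) := ⟨_, rfl⟩
  rw [← hR] at p2
  have p3 : 4 * (e * (2 - e)) * (s ^ 2 * (1 + (1 - e) ^ 2) / 8) = R * s ^ 2 / 2 := by
    rw [hR]
    ring
  have p4 : 75 / 256 * (b * M) * s ^ 4 ≤
      4 * (e * (2 - e)) * (3 * s ^ 4 * (1 + (1 - e) ^ 2) ^ 2 / 64) := by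
    have : 4 * (e * (2 - e)) * (3 * s ^ 4 * (1 + (1 - e) ^ 2) ^ 2 / 64) =
      3 / 16 * (R * (1 + (1 - e) ^ 2)) * s ^ 4 := by
      rw [hR]
      ring
    rw [this]
    have h4 : 0 ≤ s ^ 4 := by positivity
    apply mul_le_mul_of_nonneg_right _ h4
    have : b * M * (25 / 16) ≤ R * (1 + (1 - e) ^ 2) :=
      mul_le_mul p2 hQ (by norm_num) (by linear_combination hbM0 + p2)
    linear_combination (3 / 16) * this
  have p5 : b * M * s ^ 2 / 2 ≤ R * s ^ 2 / 2 := by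
    have := mul_le_mul_of_nonneg_right p2 (sq_nonneg s)
    linear_combination (1 / 2) * this
  have p6 := mul_nonneg hb k3
  have p7 : 34 / 100 * (b * s ^ 4) ≤ 75 / 256 * (b * M) * s ^ 4 := by
    have : (b * s ^ 4) * (34 / 100) ≤ (b * s ^ 4) * (75 / 256 * M) :=
      mul_le_mul_of_nonneg_left (by linear_combination (75 / 256) * k2) (by positivity)
    linear_combination this
  have p8 := mul_le_mul_of_nonneg_left k1 (by positivity : 0 ≤ b * s ^ 2)
  have p9 : 2 * (e0 * (2 - e0)) = 2 * b - 17536 / 10000 * b ^ 2 * s - b ^ 2 / 2 +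
      8768 / 10000 * b ^ 3 * s - 2 * (4384 / 10000) ^ 2 * (b ^ 4 * s ^ 2) := by
    rw [he0]
    ring
  have p10 : 0 ≤ b ^ 4 * s ^ 2 := by positivity
  linear_combination p1 - p3 + p4 + p5 + p6 + p7 + p8 - p9 + (17 / 1562500) * p10

/-- The inequality for `β ≤ s / 2`. -/
theorem F1_nonneg {s β : ℝ} (hs : 0 < s) (hs2 : s ^ 2 ≤ 3 / 16) (h1 : 0 ≤ β) (h2 : β ≤ s / 2) :
    0 ≤ 3 * ph s - ph (s / 2) - 4 * ph (s - β / 2 + h0 * ph β) + ph (s / 2 - β) - 2 * ph β +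
      ph (s - β) := by
  have hs3 : s ≤ 43302 / 100000 := by exact not_lt.mp (fun hg__ => absurd hs2 (not_le.mpr (by linear_combination (21651 / 25000) * hg__ + (mul_pos (sub_pos.mpr hg__) (sub_pos.mpr hg__)))))
  have hβ2 : β ^ 2 ≤ 3 / 64 := by linear_combination (1 / 4) * hs2 + (1 / 2) * (mul_nonneg (sub_nonneg.mpr (le_of_lt hs)) (sub_nonneg.mpr h2)) +
    (mul_nonneg (sub_nonneg.mpr h1) (sub_nonneg.mpr h2))
  have hh := h0_hi
  have hp := h0_pos
  have hκ0 := ph_nonneg β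
  have hκ1 := ph_hi2' hβ2
  have hκq := ph_quad (x := β) (by linear_combination hβ2)
  obtain ⟨b, hb⟩ : ∃ b, b = β / s := ⟨_, rfl⟩
  obtain ⟨e, he⟩ : ∃ e, e = b / 2 - h0 * ph β / s := ⟨_, rfl⟩
  have hβb : β = b * s := by
    rw [hb]
    field_simp
  have hb0 : 0 ≤ b := by
    rw [hb]
    positivity
  have hb2 : b ≤ 1 / 2 := by
    rw [hb, div_le_iff₀ hs]
    linear_combination h2
  have hes : e * s = β / 2 - h0 * ph β := by
    rw [he, hβb]
    field_simp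
  have hy : s - β / 2 + h0 * ph β = s * (1 - e) := by
    have : s * (1 - e) = s - e * s := by ring
    rw [this, hes]
    ring
  have he2 : e ≤ b / 2 := by
    rw [he]
    have : 0 ≤ h0 * ph β / s := by positivity
    linear_combination this
  have he0 : b / 2 - 4384 / 10000 * b ^ 2 * s ≤ e := by
    have k1 : h0 * ph β ≤ 4384 / 10000 * β ^ 2 := by
      have : h0 * ph β ≤ 86603 / 100000 * (5061 / 10000 * β ^ 2) :=
        mul_le_mul hh hκ1 hκ0 (by norm_num)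
      linear_combination (102217 / 1000000000) * (sq_nonneg β) + this
    have k2 : (b / 2 - 4384 / 10000 * b ^ 2 * s) * s ≤ e * s := by
      rw [hes, hβb]
      rw [hβb] at k1
      linear_combination k1
    exact le_of_mul_le_mul_right k2 hs
  have hE : 0 ≤ e := by
    refine le_trans ?_ he0
    nlinarith [mul_nonneg hb0 (by linear_combination (274 / 625) * h2 + (137 / 625) * hs3 - (274 / 625) * hβb : (0 : ℝ) ≤ 1 / 2 - 4384 / 10000 * b * s)]
  have key := F1_bracket hs.le hs3 hb0 hb2 he0 he2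
  have x1 := diff_lo (a := s) (b := s * (1 - e)) (mul_nonneg hs.le (by linear_combination (1 / 2) * hb2 + he2))
    (by linear_combination (mul_nonneg (sub_nonneg.mpr (le_of_lt hs)) (sub_nonneg.mpr hE))) (by linear_combination hs3)
  have x2 := diff_hi (a := s) (b := s - β) (by linear_combination (3 / 2) * (mul_nonneg (sub_nonneg.mpr (le_of_lt hs)) (sub_nonneg.mpr h1)) +
    (mul_nonneg (sub_nonneg.mpr h1) (sub_nonneg.mpr h2))) hs2
  have x3 := diff_hi' (a := s / 2) (b := s / 2 - β) (by linear_combination (1 / 2) * (mul_nonneg (sub_nonneg.mpr (le_of_lt hs)) (sub_nonneg.mpr h1)) +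
    (mul_nonneg (sub_nonneg.mpr h1) (sub_nonneg.mpr h2))) (by linear_combination (1 / 4) * hs2)
  rw [hy]
  have k4 : ph β ^ 2 ≤ 2562 / 10000 * β ^ 4 := by
    have : ph β ^ 2 ≤ (5061 / 10000 * β ^ 2) ^ 2 := pow_le_pow_left₀ hκ0 hκ1 2
    linear_combination (6279 / 100000000) * (pow_nonneg h1 4) + this
  have x1' : s ^ 2 * ((e * (2 - e)) * (1 / 2 + s ^ 2 * (1 + (1 - e) ^ 2) / 8 +
        3 * s ^ 4 * (1 + (1 - e) ^ 2) ^ 2 / 64)) ≤ ph s - ph (s * (1 - e)) := by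
    refine le_trans (le_of_eq ?_) x1
    ring
  have x2' : ph s - ph (s - β) ≤ s ^ 2 * (b * (2 - b) *
      (1 / 2 + 1459 / 10000 * (s ^ 2 * (1 + (1 - b) ^ 2)))) := by
    refine le_trans x2 (le_of_eq ?_)
    rw [hβb]
    ring
  have x3' : ph (s / 2) - ph (s / 2 - β) ≤ s ^ 2 * (b * (1 - b) *
      (1 / 2 + 13 / 100 * (s ^ 2 * (1 / 4 + (1 / 2 - b) ^ 2)))) := by
    refine le_trans x3 (le_of_eq ?_)
    rw [hβb]
    ring
  have k5 : 2 * ph β ≤ s ^ 2 * (b ^ 2 + 2562 / 10000 * b ^ 4 * s ^ 2) := by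
    rw [hκq]
    refine le_trans (add_le_add_right k4 _) (le_of_eq ?_)
    rw [hβb]
    ring
  have k6 := mul_nonneg (sq_nonneg s) key
  linear_combination 4 * x1 + x2' + x3' + k5 + k6

theorem f2_L {b : ℝ} (hb : 1 / 2 ≤ b) (hb2 : b ≤ 1) :
    1 - b / 2 + 375008 / 1000000 * (b ^ 2 / 2 + 2595 / 100000 * b ^ 4) ≤
      898 / 1000 - 2005 / 10000 * b := by
  have h1 := mul_nonneg (sub_nonneg.2 hb) (sub_nonneg.2 hb2)
  have h2 : 0 ≤ b ^ 2 := sq_nonneg b
  nlinarith [mul_nonneg h1 h2, mul_nonneg h1 (by linear_combination hb : 0 ≤ b)]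

theorem f2_f {L : ℝ} (h1 : 6975 / 10000 ≤ L) (h2 : L ≤ 79775 / 100000) :
    L ^ 4 / 2 + 534 / 10000 * L ^ 6 ≤ 9147 / 10000 * L - 51329 / 100000 := by
  have h3 := mul_nonneg (sub_nonneg.2 h1) (sub_nonneg.2 h2)
  have h4 : L ^ 2 ≤ 149525 / 100000 * L - 55643 / 100000 := by linear_combination h3
  have h5 : 4865 / 10000 ≤ L ^ 2 := by linear_combination (279 / 200) * h1 + (mul_nonneg (sub_nonneg.mpr h1) (sub_nonneg.mpr h1))
  have h6 : L ^ 2 ≤ 63641 / 100000 := by linear_combination (5981 / 4000) * h2 + h3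
  obtain ⟨x, hx⟩ : ∃ x, x = L ^ 2 := ⟨_, rfl⟩
  rw [show L ^ 4 = (L ^ 2) ^ 2 by ring, show L ^ 6 = (L ^ 2) ^ 3 by ring, ← hx]
  rw [← hx] at h4 h5 h6
  have h7 := mul_nonneg (sub_nonneg.2 h5) (sub_nonneg.2 h6)
  have h8 : x ^ 2 ≤ (4865 / 10000 + 63641 / 100000) * x - 4865 / 10000 * (63641 / 100000) := by
    linear_combination h7
  nlinarith [mul_nonneg h7 (by linear_combination h5 : 0 ≤ x)]

theorem F2_poly {s b : ℝ} (hs : 0 ≤ s) (hs2 : s ≤ 43302 / 100000) (hb : 1 / 2 ≤ b)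
    (hb2 : b ≤ 1) :
    0 ≤ -1 / 2 + 3 * b / 2 - b ^ 2 / 2 -
      346412 / 100000 * (1 - b / 2) * s * (b ^ 2 / 2 + 2595 / 100000 * b ^ 4) -
      5533 / 10000 * b ^ 4 * s ^ 2 + s ^ 2 * (5886 / 100000 + 18339 / 100000 * b) +
      3 / 16 * s ^ 4 := by
  have hb0 : 0 ≤ b := by linear_combination hb
  have hb4 : b ^ 4 ≤ 1 := pow_le_one₀ hb0 hb2
  have hb4' : 0 ≤ b ^ 4 := by positivity
  have hb3 : (1 / 4 : ℝ) ≤ b ^ 2 := by linear_combination hb + (mul_nonneg (sub_nonneg.mpr hb) (sub_nonneg.mpr hb))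
  -- the value at the largest `s`
  have k1 : 0 ≤ -1 / 2 + 3 * b / 2 - b ^ 2 / 2 -
      346412 / 100000 * (1 - b / 2) * (43302 / 100000) * (b ^ 2 / 2 + 2595 / 100000 * b ^ 4) -
      5533 / 10000 * b ^ 4 * (43302 / 100000) ^ 2 +
      (43302 / 100000) ^ 2 * (5886 / 100000 + 18339 / 100000 * b) +
      3 / 16 * (43302 / 100000) ^ 4 := by
    have h1 := mul_nonneg (sub_nonneg.2 hb) (sub_nonneg.2 hb2)
    linear_combination (33398773661853 / 2000000000000000) * hb2 + (200561350947211 / 200000000000000) * h1 +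
      (324382188669 / 25000000000000) * (mul_nonneg (sub_nonneg.mpr (sq_nonneg (b))) (sub_nonneg.mpr (mul_nonneg h1 (sq_nonneg b)))) +
      (324382188669 / 25000000000000) * (mul_nonneg (sub_nonneg.mpr (sq_nonneg (b))) (sub_nonneg.mpr hb4')) +
      (2565934467789 / 50000000000000) * (mul_nonneg (sub_nonneg.mpr (sq_nonneg (b))) (sub_nonneg.mpr hb3)) +
      (1875041553 / 10000000000) * (mul_nonneg (sub_nonneg.mpr (mul_nonneg h1 hb0)) (sub_nonneg.mpr hb))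
  have k2 : 0 ≤ (43302 / 100000 - s) *
      (346412 / 100000 * (1 - b / 2) * (b ^ 2 / 2 + 2595 / 100000 * b ^ 4) -
      (5886 / 100000 + 18339 / 100000 * b - 5533 / 10000 * b ^ 4) * (s + 43302 / 100000) -
      3 / 16 * (s + 43302 / 100000) * (s ^ 2 + (43302 / 100000) ^ 2)) := by
    apply mul_nonneg (by linear_combination hs2)
    have e1 : 346412 / 100000 * (1 - b / 2) * (b ^ 2 / 2) ≤
        346412 / 100000 * (1 - b / 2) * (b ^ 2 / 2 + 2595 / 100000 * b ^ 4) :=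
      mul_le_mul_of_nonneg_left (by linear_combination (519 / 20000) * hb4') (by linear_combination (86603 / 50000) * hb2)
    have e2 : (5886 / 100000 + 18339 / 100000 * b - 5533 / 10000 * b ^ 4) * (s + 43302 / 100000) ≤
        (5886 / 100000 + 18339 / 100000 * b) * (86604 / 100000) := by linear_combination (30111 / 200000) * hs2 + (119794983 / 2000000000) * hb3 + (119794983 / 500000000) * (mul_nonneg (sub_nonneg.mpr (sq_nonneg (b))) (sub_nonneg.mpr hb3)) +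
          (5533 / 10000) * (mul_nonneg (sub_nonneg.mpr hs) (sub_nonneg.mpr hb4')) + (18339 / 100000) * (mul_nonneg (sub_nonneg.mpr hs2) (sub_nonneg.mpr hb))
    have e3 : 3 / 16 * (s + 43302 / 100000) * (s ^ 2 + (43302 / 100000) ^ 2) ≤ 61 / 1000 := by
      linear_combination (4218892209 / 40000000000) * hs2 + (3 / 16) * (mul_nonneg (sub_nonneg.mpr (sq_nonneg (s))) (sub_nonneg.mpr hs2)) +
        (64953 / 400000) * (mul_nonneg (sub_nonneg.mpr hs) (sub_nonneg.mpr hs2))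
    have e4 : 0 ≤ (b - 1 / 2) * (1 - b) := mul_nonneg (by linear_combination hb) (by linear_combination hb2)
    linear_combination (86603 / 100000) * (mul_nonneg e4 hb0) + (685479811 / 2500000000) * hb +
      (86603 / 200000) * hb3 + e1 + e2 + e3
  linear_combination k1 + k2

/-- The inequality for `s / 2 ≤ β ≤ s`. -/
theorem F2_nonneg {s β : ℝ} (hs : 0 < s) (hs2 : s ^ 2 ≤ 3 / 16) (h1 : s / 2 ≤ β) (h2 : β ≤ s) :
    0 ≤ 3 * ph s - ph (s / 2) - 4 * ph (s - β / 2 + h0 * ph β) + ph (β - s / 2) - ph β := by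
  have hs3 : s ≤ 43302 / 100000 := by exact not_lt.mp (fun hg__ => absurd hs2 (not_le.mpr (by linear_combination (21651 / 25000) * hg__ + (mul_pos (sub_pos.mpr hg__) (sub_pos.mpr hg__)))))
  have hβ0 : 0 ≤ β := by linear_combination (1 / 2) * hs + h1
  have hβ2 : β ^ 2 ≤ 3 / 16 := by linear_combination hs2 + (3 / 2) * (mul_nonneg (sub_nonneg.mpr (le_of_lt hs)) (sub_nonneg.mpr h2)) +
    (mul_nonneg (sub_nonneg.mpr h1) (sub_nonneg.mpr h2))
  have hh := h0_hi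
  have hp := h0_pos
  have hq := h0_sq
  have hκ0 := ph_nonneg β
  have hκ1 := ph_hi4 hβ2
  have hκq := ph_quad (x := β) (by linear_combination hβ2)
  obtain ⟨b, hb⟩ : ∃ b, b = β / s := ⟨_, rfl⟩
  obtain ⟨K, hK⟩ : ∃ K, K = ph β / s ^ 2 := ⟨_, rfl⟩
  have hs2' : 0 < s ^ 2 := by positivity
  have hβb : β = b * s := by
    rw [hb]
    field_simp
  have hKs : ph β = K * s ^ 2 := by
    rw [hK]
    field_simp
  have hb1 : 1 / 2 ≤ b := by
    rw [hb, le_div_iff₀ hs]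
    linear_combination h1
  have hb2 : b ≤ 1 := by
    rw [hb, div_le_iff₀ hs]
    linear_combination h2
  have hb0 : 0 ≤ b := by linear_combination hb1
  have hK0 : 0 ≤ K := by
    rw [hK]
    positivity
  have hb4 : 0 ≤ b ^ 4 := by positivity
  have hK1 : K ≤ b ^ 2 / 2 + 2595 / 100000 * b ^ 4 := by
    have k1 : K * s ^ 2 ≤ (b ^ 2 / 2 + 2595 / 100000 * b ^ 4) * s ^ 2 := by
      rw [← hKs]
      refine hκ1.trans ?_
      rw [hβb]
      have : s ^ 4 ≤ 3 / 16 * s ^ 2 := by linear_combination (mul_nonneg (sub_nonneg.mpr (sq_nonneg (s))) (sub_nonneg.mpr hs2))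
      have := mul_le_mul_of_nonneg_left this hb4
      linear_combination (173 / 1250) * this + (1 / 20000) * (mul_nonneg (sub_nonneg.mpr (sq_nonneg (b * s))) (sub_nonneg.mpr (sq_nonneg (b * s))))
    exact le_of_mul_le_mul_right k1 hs2'
  -- the height
  obtain ⟨Y, hY⟩ : ∃ Y, Y = 1 - b / 2 + h0 * s * K := ⟨_, rfl⟩
  have hy : s - β / 2 + h0 * ph β = Y * s := by
    rw [hY, hKs, hβb]
    ring
  have hhs : h0 * s ≤ 375008 / 1000000 := by linear_combination (86603 / 86604) * hs2 + (mul_nonneg (sub_nonneg.mpr (le_of_lt hs)) (sub_nonneg.mpr hh)) +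
    (86603 / 86604) * (mul_nonneg (sub_nonneg.mpr hs3) (sub_nonneg.mpr hs3))
  have hhs0 : 0 ≤ h0 * s := by positivity
  have hY0 : 0 ≤ Y := by
    rw [hY]
    have := mul_nonneg hhs0 hK0
    linear_combination (1 / 2) * hb2 + this
  have hYL : Y ≤ 898 / 1000 - 2005 / 10000 * b := by
    have := f2_L hb1 hb2
    have k1 : h0 * s * K ≤ 375008 / 1000000 * (b ^ 2 / 2 + 2595 / 100000 * b ^ 4) :=
      mul_le_mul hhs hK1 hK0 (by norm_num)
    rw [hY]
    linear_combination this + k1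
  have hf := f2_f (L := 898 / 1000 - 2005 / 10000 * b) (by linear_combination (401 / 2000) * hb2) (by linear_combination (401 / 2000) * hb1)
  have hY4 : Y ^ 4 ≤ (898 / 1000 - 2005 / 10000 * b) ^ 4 := pow_le_pow_left₀ hY0 hYL 4
  have hY6 : Y ^ 6 ≤ (898 / 1000 - 2005 / 10000 * b) ^ 6 := pow_le_pow_left₀ hY0 hYL 6
  have hY1 : Y ≤ 1 := by linear_combination (401 / 2000) * hb1 + hYL
  -- bounds for the values
  have v1 := ph_lo6 (x := s) (by linear_combination hs2)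
  have v2 := ph_hi4' (x := s / 2) (by linear_combination (1 / 4) * hs2)
  have v3 := ph_hi6 (x := Y * s) (by linear_combination (2273109 / 2560000) * hs2 + (3 / 2) * hκ1 - (3 / 4) * hκq + (3 / 2) * (mul_nonneg (sub_nonneg.mpr (sq_nonneg (s))) (sub_nonneg.mpr hYL)) +
    (8301 / 40000) * (mul_nonneg (sub_nonneg.mpr (sq_nonneg (β))) (sub_nonneg.mpr hβ2)) +
    (mul_nonneg (sub_nonneg.mpr (sq_nonneg (ph β))) (sub_nonneg.mpr (le_of_eq hq))) + (mul_nonneg (sub_nonneg.mpr (mul_nonneg hY0 hs.le)) (sub_nonneg.mpr h1)) +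
    2 * (mul_nonneg (sub_nonneg.mpr (mul_nonneg hY0 hs.le)) (sub_nonneg.mpr (ge_of_eq hy))) +
    (312423 / 640000) * (mul_nonneg (sub_nonneg.mpr (le_of_lt hs)) (sub_nonneg.mpr h2)) +
    (1203 / 4000) * (mul_nonneg (sub_nonneg.mpr (le_of_lt hs)) (sub_nonneg.mpr (le_of_eq hβb))) +
    (3 / 2) * (mul_nonneg (sub_nonneg.mpr (le_of_lt hs)) (sub_nonneg.mpr (le_of_eq hy))) +
    (135097 / 640000) * (mul_nonneg (sub_nonneg.mpr h1) (sub_nonneg.mpr h1)) + (mul_nonneg (sub_nonneg.mpr h1) (sub_nonneg.mpr (ge_of_eq hy))) +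
    (mul_nonneg (sub_nonneg.mpr (le_of_eq hy)) (sub_nonneg.mpr (le_of_eq hy))))
  have v4 := ph_lo6 (x := β - s / 2) (by linear_combination hβ2 + (1 / 4) * hs2' + (mul_nonneg (sub_nonneg.mpr (le_of_lt hs)) (sub_nonneg.mpr h1)))
  have v5 := F2_poly hs.le hs3 hb1 hb2
  rw [hy]
  have w1 : (Y * s) ^ 6 ≤ 3 / 16 * (Y ^ 6 * s ^ 4) := by
    have : (Y * s) ^ 6 = Y ^ 6 * s ^ 4 * s ^ 2 := by ring
    rw [this]
    have := mul_le_mul_of_nonneg_left hs2 (by positivity : 0 ≤ Y ^ 6 * s ^ 4)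
    linear_combination this
  have w2 : (Y ^ 4 / 2 + 534 / 10000 * Y ^ 6) * s ^ 4 ≤
      (9147 / 10000 * (898 / 1000 - 2005 / 10000 * b) - 51329 / 100000) * s ^ 4 :=
    mul_le_mul_of_nonneg_right (by linear_combination hf + (1 / 2) * hY4 + (267 / 5000) * hY6) (by positivity)
  have w3 : 0 ≤ (β - s / 2) ^ 4 / 8 + (β - s / 2) ^ 6 / 16 := by positivity
  have w4 := mul_nonneg hs2'.le v5
  have w5 : 4 * (1 - b / 2) * (h0 * s) * K ≤
      346412 / 100000 * (1 - b / 2) * s * (b ^ 2 / 2 + 2595 / 100000 * b ^ 4) := by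
    have k1 : h0 * s ≤ 86603 / 100000 * s := mul_le_mul_of_nonneg_right hh hs.le
    have k2 : (h0 * s) * K ≤ (86603 / 100000 * s) * (b ^ 2 / 2 + 2595 / 100000 * b ^ 4) :=
      mul_le_mul k1 hK1 hK0 (by positivity)
    have k3 := mul_le_mul_of_nonneg_left k2 (by linear_combination 2 * hb2 : (0 : ℝ) ≤ 4 * (1 - b / 2))
    linear_combination k3
  have w6 : 2 * K ^ 2 ≤ 5533 / 10000 * b ^ 4 := by
    have k1 : K ≤ 52595 / 100000 * b ^ 2 := by
      have : b ^ 4 ≤ b ^ 2 := pow_le_pow_of_le_one hb0 hb2 (by norm_num)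
      linear_combination hK1 + (519 / 20000) * this
    have k2 : K ^ 2 ≤ (52595 / 100000 * b ^ 2) ^ 2 := pow_le_pow_left₀ hK0 k1 2
    linear_combination (10639 / 200000000) * hb4 + 2 * k2
  -- the quadratic part
  have q1 : 3 * (s ^ 2 / 2) - s ^ 2 / 8 - 2 * (Y * s) ^ 2 + (β - s / 2) ^ 2 / 2 - ph β =
      s ^ 2 * (-1 / 2 + 3 * b / 2 - b ^ 2 / 2 - 4 * (1 - b / 2) * (h0 * s) * K -
        2 * K ^ 2 * s ^ 2) := by
    have e1 : ph β = (β ^ 2 + ph β ^ 2) / 2 := by linear_combination (1 / 2) * hκq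
    have e2 : ph β = (b ^ 2 * s ^ 2 + K ^ 2 * s ^ 4) / 2 := by
      rw [e1, hKs, hβb]
      ring
    rw [e2, hY, hβb]
    have : (2 : ℝ) * ((1 - b / 2 + h0 * s * K) * s) ^ 2 =
      2 * s ^ 2 * (1 - b / 2) ^ 2 + 4 * (1 - b / 2) * (h0 * s) * K * s ^ 2 +
        2 * h0 ^ 2 * s ^ 4 * K ^ 2 := by ring
    rw [this, hq]
    ring
  have w5' := mul_le_mul_of_nonneg_left w5 hs2'.le
  have w6' := mul_le_mul_of_nonneg_left w6 (by positivity : 0 ≤ s ^ 4)
  have e4 : (Y * s) ^ 4 = Y ^ 4 * s ^ 4 := by ring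
  have e5 : (s / 2) ^ 4 = s ^ 4 / 16 := by ring
  rw [e4] at v3
  rw [e5] at v2
  have s4 : 0 ≤ s ^ 4 := by positivity
  have bs4 : 0 ≤ b * s ^ 4 := by positivity
  linear_combination 3 * v1 + v2 + 4 * v3 + v4 + (178 / 625) * w1 + w2 + w3 + w4 - q1 +
    w5' + w6' + (163 / 20000000) * s4 + (147 / 20000000) * bs4

end Pool.Agent.Strip051.Four.Low
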