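import Pool.Agent.Strip051.Four.Gain

/-! # Real inequalities for the case `t ≤ y ≤ s` -/

namespace Pool.Agent.Strip051.Four.Low

open Pool.Agent.StripNear Pool.Agent.StripSquare Pool.Agent.Strip051

/-- The complement of the unit arc. -/
noncomputable def ph (x : ℝ) : ℝ := 1 - g x

theorem ph_neg (x : ℝ) : ph (-x) = ph x := by
  unfold ph
  rw [g_neg]

theorem ph_nonneg (x : ℝ) : 0 ≤ ph x := by
  unfold ph
  linear_combination (g_le_one x)

theorem ph_zero : ph 0 = 0 := by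
  unfold ph
  rw [g_zero]
  ring

theorem ph_quad {x : ℝ} (h : x ^ 2 ≤ 1) : 2 * ph x = x ^ 2 + ph x ^ 2 := by
  have := g_sq h
  unfold ph
  linear_combination -this

theorem ph_mono {a b : ℝ} (h1 : 0 ≤ a) (h2 : a ≤ b) : ph a ≤ ph b := by
  have := g_anti h1 h2
  unfold ph
  linear_combination this

theorem ph_abs {a b : ℝ} (h1 : a ≤ b) (h2 : -b ≤ a) : ph a ≤ ph b := by
  have := g_le_of_abs h1 h2
  unfold ph
  linear_combination this

/-- Lower bound of degree six. -/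
theorem ph_lo6 {x : ℝ} (h : x ^ 2 ≤ 1) : x ^ 2 / 2 + x ^ 4 / 8 + x ^ 6 / 16 ≤ ph x := by
  have key : g x ≤ 1 - x ^ 2 / 2 - x ^ 4 / 8 - x ^ 6 / 16 := by
    unfold g
    apply Real.sqrt_le_iff.2
    have h0 := sq_nonneg x
    obtain ⟨u, hu⟩ : ∃ u, u = x ^ 2 := ⟨_, rfl⟩
    rw [show x ^ 4 = (x ^ 2) ^ 2 by ring, show x ^ 6 = (x ^ 2) ^ 3 by ring, ← hu]
    rw [← hu] at h h0
    constructor
    · have h1 : u ^ 2 ≤ 1 := by linear_combination h + (mul_nonneg (sub_nonneg.mpr h0) (sub_nonneg.mpr h))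
      have h2 : u ^ 3 ≤ 1 := by linear_combination h1 + (mul_nonneg (sub_nonneg.mpr (sq_nonneg (u))) (sub_nonneg.mpr h))
      linear_combination (1 / 2) * h + (1 / 8) * h1 + (1 / 16) * h2
    · have : (1 - u / 2 - u ^ 2 / 8 - u ^ 3 / 16) ^ 2 =
        1 - u + 5 * u ^ 4 / 64 + u ^ 5 / 64 + u ^ 6 / 256 := by ring
      rw [this]
      have : 0 ≤ 5 * u ^ 4 / 64 + u ^ 5 / 64 + u ^ 6 / 256 := by positivity
      linear_combination this
  unfold ph
  linear_combination key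

/-- Upper bound of degree six. -/
theorem ph_hi6 {x : ℝ} (h : x ^ 2 ≤ 3 / 16) :
    ph x ≤ x ^ 2 / 2 + x ^ 4 / 8 + 712 / 10000 * x ^ 6 := by
  have key : 1 - x ^ 2 / 2 - x ^ 4 / 8 - 712 / 10000 * x ^ 6 ≤ g x := by
    unfold g
    apply Real.le_sqrt_of_sq_le
    have h0 := sq_nonneg x
    obtain ⟨u, hu⟩ : ∃ u, u = x ^ 2 := ⟨_, rfl⟩
    rw [show x ^ 4 = (x ^ 2) ^ 2 by ring, show x ^ 6 = (x ^ 2) ^ 3 by ring, ← hu]
    rw [← hu] at h h0
    have : (1 - u / 2 - u ^ 2 / 8 - 712 / 10000 * u ^ 3) ^ 2 =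
      1 - u - u ^ 3 * (174 / 10000 - (1 / 64 + 712 / 10000) * u - 178 / 10000 * u ^ 2 -
        (712 / 10000) ^ 2 * u ^ 3) := by ring
    rw [this]
    have h1 : u ^ 2 ≤ 3 / 16 * u := by linear_combination (mul_nonneg (sub_nonneg.mpr h0) (sub_nonneg.mpr h))
    have h2 : u ^ 3 ≤ (3 / 16) ^ 2 * u := by linear_combination (3 / 16) * h1 + (mul_nonneg (sub_nonneg.mpr (sq_nonneg (u))) (sub_nonneg.mpr h))
    have h3 : 0 ≤ u ^ 3 := by positivity
    have h4 : 0 ≤ 174 / 10000 - (1 / 64 + 712 / 10000) * u - 178 / 10000 * u ^ 2 -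
        (712 / 10000) ^ 2 * u ^ 3 := by linear_combination (36136289 / 400000000) * h + (89 / 5000) * h1 + (7921 / 1562500) * h2
    have := mul_nonneg h3 h4
    linear_combination this
  unfold ph
  linear_combination key

theorem ph_hi4 {x : ℝ} (h : x ^ 2 ≤ 3 / 16) :
    ph x ≤ x ^ 2 / 2 + 13835 / 100000 * x ^ 4 := by
  have h1 := ph_hi6 h
  have h2 : x ^ 6 ≤ 3 / 16 * x ^ 4 := by
    have : x ^ 6 = x ^ 2 * x ^ 4 := by ring
    rw [this]
    exact mul_le_mul_of_nonneg_right h (by positivity)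
  have : 0 ≤ x ^ 4 := by positivity
  linear_combination h1 + (89 / 1250) * h2

theorem ph_hi2 {x : ℝ} (h : x ^ 2 ≤ 3 / 16) : ph x ≤ 52595 / 100000 * x ^ 2 := by
  have h1 := ph_hi4 h
  have h2 : x ^ 4 ≤ 3 / 16 * x ^ 2 := by
    have : x ^ 4 = x ^ 2 * x ^ 2 := by ring
    rw [this]
    exact mul_le_mul_of_nonneg_right h (sq_nonneg _)
  linear_combination (3 / 320000) * (sq_nonneg x) + h1 + (2767 / 20000) * h2

theorem ph_hi4' {x : ℝ} (h : x ^ 2 ≤ 3 / 64) :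
    ph x ≤ x ^ 2 / 2 + 12834 / 100000 * x ^ 4 := by
  have h1 := ph_hi6 (x := x) (by linear_combination h)
  have h2 : x ^ 6 ≤ 3 / 64 * x ^ 4 := by
    have : x ^ 6 = x ^ 2 * x ^ 4 := by ring
    rw [this]
    exact mul_le_mul_of_nonneg_right h (by positivity)
  have : 0 ≤ x ^ 4 := by positivity
  linear_combination h1 + (89 / 1250) * h2 + (1 / 400000) * this

theorem ph_hi2' {x : ℝ} (h : x ^ 2 ≤ 3 / 64) : ph x ≤ 5061 / 10000 * x ^ 2 := by
  have h1 := ph_hi4' h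
  have h2 : x ^ 4 ≤ 3 / 64 * x ^ 2 := by
    have : x ^ 4 = x ^ 2 * x ^ 2 := by ring
    rw [this]
    exact mul_le_mul_of_nonneg_right h (sq_nonneg _)
  linear_combination (269 / 3200000) * (sq_nonneg x) + h1 + (6417 / 50000) * h2

/-- Lower bound for a difference. -/
theorem diff_lo {a b : ℝ} (h0 : 0 ≤ b) (h1 : b ≤ a) (h2 : a ≤ 1) :
    (a ^ 2 - b ^ 2) * (1 / 2 + (a ^ 2 + b ^ 2) / 8 + 3 * (a ^ 2 + b ^ 2) ^ 2 / 64) ≤
      ph a - ph b := by
  have ha : a ^ 2 ≤ 1 := by linear_combination h2 + (mul_nonneg (sub_nonneg.mpr h0) (sub_nonneg.mpr h2)) + (mul_nonneg (sub_nonneg.mpr h1) (sub_nonneg.mpr h2))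
  have hb : b ^ 2 ≤ 1 := by linear_combination h1 + h2 + (mul_nonneg (sub_nonneg.mpr h0) (sub_nonneg.mpr h1)) +
    (mul_nonneg (sub_nonneg.mpr h0) (sub_nonneg.mpr h2))
  have ga := g_sq ha
  have gb := g_sq hb
  have pa := ph_lo6 ha
  have pb := ph_lo6 hb
  have hab := g_anti h0 h1
  obtain ⟨q, hq⟩ : ∃ q, q = a ^ 2 + b ^ 2 := ⟨_, rfl⟩
  obtain ⟨D, hD⟩ : ∃ D, D = g b - g a := ⟨_, rfl⟩
  have hq0 : 0 ≤ q := by rw [hq]; positivity
  have hw : g a + g b ≤ 2 - q / 2 - q ^ 2 / 16 := by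
    unfold ph at pa pb
    have : (a ^ 4 + b ^ 4) / 8 ≥ q ^ 2 / 16 := by
      rw [hq]
      linear_combination (1 / 16) * (sq_nonneg (a ^ 2 - b ^ 2))
    have h6 : 0 ≤ a ^ 6 / 16 := by positivity
    have h7 : 0 ≤ b ^ 6 / 16 := by positivity
    linear_combination pa + pb + (1 / 2) * hq + this + h6 + h7
  have hD0 : 0 ≤ D := by rw [hD]; linear_combination hab
  have hD1 : D * (g a + g b) = a ^ 2 - b ^ 2 := by
    rw [hD]
    linear_combination -ga + gb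
  have hD2 : a ^ 2 - b ^ 2 ≤ D * (2 - q / 2 - q ^ 2 / 16) := by
    rw [← hD1]
    exact mul_le_mul_of_nonneg_left hw hD0
  have hT : 0 ≤ 1 / 2 + q / 8 + 3 * q ^ 2 / 64 := by positivity
  have hwT : (2 - q / 2 - q ^ 2 / 16) * (1 / 2 + q / 8 + 3 * q ^ 2 / 64) ≤ 1 := by
    have : (2 - q / 2 - q ^ 2 / 16) * (1 / 2 + q / 8 + 3 * q ^ 2 / 64) =
      1 - q ^ 3 / 32 - 3 * q ^ 4 / 1024 := by ring
    rw [this]
    have : 0 ≤ q ^ 3 / 32 + 3 * q ^ 4 / 1024 := by positivity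
    linear_combination this
  have hfin : ph a - ph b = D := by
    rw [hD]
    unfold ph
    ring
  rw [hfin, ← hq]
  calc (a ^ 2 - b ^ 2) * (1 / 2 + q / 8 + 3 * q ^ 2 / 64)
      ≤ (D * (2 - q / 2 - q ^ 2 / 16)) * (1 / 2 + q / 8 + 3 * q ^ 2 / 64) :=
        mul_le_mul_of_nonneg_right hD2 hT
    _ = D * ((2 - q / 2 - q ^ 2 / 16) * (1 / 2 + q / 8 + 3 * q ^ 2 / 64)) := by ring
    _ ≤ D * 1 := mul_le_mul_of_nonneg_left hwT hD0
    _ = D := mul_one D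

/-- Upper bound for a difference, with the slope as a parameter. -/
theorem diff_hi_aux {a b w T : ℝ} (h0 : b ^ 2 ≤ a ^ 2) (h1 : a ^ 2 ≤ 1) (hw : w ≤ g a + g b)
    (hT : 0 ≤ T) (hwT : 1 ≤ w * T) : ph a - ph b ≤ (a ^ 2 - b ^ 2) * T := by
  have ga := g_sq h1
  have gb := g_sq (h0.trans h1)
  have ha0 := g_nonneg a
  have hb0 := g_nonneg b
  have hab : g a ≤ g b := by
    have : g a ^ 2 ≤ g b ^ 2 := by linear_combination h0 + ga - gb
    exact abs_le_of_sq_le_sq' this hb0 |>.2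
  obtain ⟨D, hD⟩ : ∃ D, D = g b - g a := ⟨_, rfl⟩
  have hD0 : 0 ≤ D := by rw [hD]; linear_combination hab
  have hD1 : D * (g a + g b) = a ^ 2 - b ^ 2 := by
    rw [hD]
    linear_combination -ga + gb
  have hfin : ph a - ph b = D := by
    rw [hD]
    unfold ph
    ring
  rw [hfin]
  calc D = D * 1 := (mul_one D).symm
    _ ≤ D * (w * T) := mul_le_mul_of_nonneg_left hwT hD0
    _ = (D * w) * T := by ring
    _ ≤ (D * (g a + g b)) * T :=
        mul_le_mul_of_nonneg_right (mul_le_mul_of_nonneg_left hw hD0) hT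
    _ = (a ^ 2 - b ^ 2) * T := by rw [hD1]

theorem diff_hi {a b : ℝ} (h0 : b ^ 2 ≤ a ^ 2) (h1 : a ^ 2 ≤ 3 / 16) :
    ph a - ph b ≤ (a ^ 2 - b ^ 2) * (1 / 2 + 1459 / 10000 * (a ^ 2 + b ^ 2)) := by
  have pa := ph_hi2 h1
  have pb := ph_hi2 (h0.trans h1)
  have hq : a ^ 2 + b ^ 2 ≤ 3 / 8 := by linear_combination h0 + 2 * h1
  have hq0 : 0 ≤ a ^ 2 + b ^ 2 := by positivity
  apply diff_hi_aux (w := 2 - 52595 / 100000 * (a ^ 2 + b ^ 2)) h0 (by linear_combination h1)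
  · unfold ph at pa pb
    linear_combination pa + pb
  · positivity
  · linear_combination (78337 / 800000000) * (sq_nonneg (b)) + (46198337 / 600000000) * (mul_nonneg (sub_nonneg.mpr (sq_nonneg (a))) (sub_nonneg.mpr h0)) +
    (1153 / 7500) * (mul_nonneg (sub_nonneg.mpr (sq_nonneg (a))) (sub_nonneg.mpr h1)) +
    (15347221 / 200000000) * (mul_nonneg (sub_nonneg.mpr (sq_nonneg (b))) (sub_nonneg.mpr h0)) +
    (22981663 / 150000000) * (mul_nonneg (sub_nonneg.mpr (sq_nonneg (b))) (sub_nonneg.mpr h1))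

theorem diff_hi' {a b : ℝ} (h0 : b ^ 2 ≤ a ^ 2) (h1 : a ^ 2 ≤ 3 / 64) :
    ph a - ph b ≤ (a ^ 2 - b ^ 2) * (1 / 2 + 13 / 100 * (a ^ 2 + b ^ 2)) := by
  have pa := ph_hi2' h1
  have pb := ph_hi2' (h0.trans h1)
  have hq : a ^ 2 + b ^ 2 ≤ 3 / 32 := by linear_combination h0 + 2 * h1
  have hq0 : 0 ≤ a ^ 2 + b ^ 2 := by positivity
  apply diff_hi_aux (w := 2 - 5061 / 10000 * (a ^ 2 + b ^ 2)) h0 (by linear_combination h1)
  · unfold ph at pa pb
    linear_combination pa + pb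
  · positivity
  · linear_combination (25021 / 16000000) * (sq_nonneg (b)) + (247421 / 3000000) * (mul_nonneg (sub_nonneg.mpr (sq_nonneg (a))) (sub_nonneg.mpr h0)) +
    (278 / 1875) * (mul_nonneg (sub_nonneg.mpr (sq_nonneg (a))) (sub_nonneg.mpr h1)) + (65793 / 1000000) * (mul_nonneg (sub_nonneg.mpr (sq_nonneg (b))) (sub_nonneg.mpr h0)) +
    (86179 / 750000) * (mul_nonneg (sub_nonneg.mpr (sq_nonneg (b))) (sub_nonneg.mpr h1))

theorem h0_hi : h0 ≤ 86603 / 100000 := by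
  have := h0_sq
  have h := h0_pos
  exact not_lt.mp (fun hg__ => absurd hg__ (not_lt.mpr (by linear_combination (50000 / 86603) * this + (50000 / 86603) * (mul_pos (sub_pos.mpr hg__) (sub_pos.mpr hg__)))))

theorem h0_lo : 86602 / 100000 ≤ h0 := by
  have := h0_sq
  have h := h0_pos
  exact not_lt.mp (fun hg__ => absurd hg__ (not_lt.mpr (by linear_combination -(50000 / 43301) * this + (50000 / 43301) * (mul_pos (sub_pos.mpr hg__) (sub_pos.mpr h)))))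

end Pool.Agent.Strip051.Four.Low
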