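import Pool.Agent.Strip051.Four.Defs

/-! # Molnar's bound for the widths between `2 + 2 √3` and `2 + (5 / 2) √3` -/

namespace Pool.Agent.Strip051.Four

open Pool.Agent.StripNear Pool.Agent.StripSquare Pool.Agent.Strip051
open Pool.Agent.StripTwo (rowNumber molnar)

/-- The row number for the widths between `2 + 2 √3` and `2 + 3 √3`. -/
theorem rowNumber_two {w : ℝ} (h1 : 2 + 2 * Real.sqrt 3 ≤ w) (h2 : w < 2 + 3 * Real.sqrt 3) :
    rowNumber w = 2 := by
  have h3 : 0 < Real.sqrt 3 := Real.sqrt_pos.2 (by norm_num)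
  unfold rowNumber
  rw [Nat.floor_eq_iff (div_nonneg (by linarith) h3.le), le_div_iff₀ h3, div_lt_iff₀ h3]
  push_cast
  constructor <;> linarith

/-- From the counting bounds for the heights `2 h0 + s`, `0 ≤ s ≤ h0 / 2`, to densities. -/
theorem molnar_two_of_count (h : ∀ s, 0 ≤ s → s ≤ h0 / 2 → CountBound 2 s) {w : ℝ}
    (h1 : 2 + 2 * Real.sqrt 3 ≤ w) (h2 : w ≤ 2 + 5 / 2 * Real.sqrt 3) {C : Set E2}
    (hC : IsStripPacking w C) {O : E2} {d : ℝ} (hd : HasDensity w C O d) : d ≤ molnar w := by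
  have h3 : 0 < Real.sqrt 3 := Real.sqrt_pos.2 (by norm_num)
  have hr := rowNumber_two h1 (by linarith)
  have hw : 2 ≤ w := by linarith
  obtain ⟨r0, -, -⟩ := rest_spec hw
  apply le_molnar_of_count hw _ hC hd
  rw [hr]
  apply h _ r0
  unfold rest h0
  rw [hr]
  push_cast
  linarith

/-- Everything from the three remaining insertion inequalities. -/
theorem molnar_two (hA : ∀ s t, Par s t → LowA s t) (hB : ∀ s t, Par s t → MidB s)
    (hC : ∀ s t, Par s t → HighC s t) {w : ℝ} (h1 : 2 + 2 * Real.sqrt 3 ≤ w)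
    (h2 : w ≤ 2 + 5 / 2 * Real.sqrt 3) {C : Set E2} (hC' : IsStripPacking w C) {O : E2} {d : ℝ}
    (hd : HasDensity w C O d) : d ≤ molnar w := by
  refine molnar_two_of_count ?_ h1 h2 hC' hd
  intro s hs0 hs1
  obtain ⟨t, P⟩ := par_exists hs0 hs1
  exact count P (hA s t P) (hB s t P) (hC s t P)

end Pool.Agent.Strip051.Four
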