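import Pool.Agent.Strip051.Four.Defs

/-! # Pure real inequalities for the case `s ≤ y ≤ h0` -/

namespace Pool.Agent.Strip051.Four

open Pool.Agent.StripNear Pool.Agent.StripSquare Pool.Agent.Strip051

/-- `g (h0 - w) ≥ 1 / 2 + w` for `0 ≤ w ≤ h0 - 1 / 2`. -/
theorem g_h0_sub {w : ℝ} (h1 : 0 ≤ w) (h2 : w ≤ h0 - 1 / 2) : 1 / 2 + w ≤ g (h0 - w) := by
  have hs := h0_sq
  unfold g
  apply Real.le_sqrt_of_sq_le
  linear_combination hs + 2 * (mul_nonneg (sub_nonneg.mpr h1) (sub_nonneg.mpr h2))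

theorem g_lin3 {y : ℝ} (h1 : 0 ≤ y) (h2 : y ≤ 3 / 5) : 1 - y / 3 ≤ g y := by
  unfold g
  apply Real.le_sqrt_of_sq_le
  linear_combination (10 / 9) * (mul_nonneg (sub_nonneg.mpr h1) (sub_nonneg.mpr h2))

/-- The subcase where the virtual centre is below `h0`. -/
theorem mid_U5 {s y p : ℝ} (h0s : 0 ≤ s) (h2 : s ≤ y) (h3 : 1 / 2 ≤ p)
    (h4 : y + p ≤ h0) :
    2 * (1 + g s) - 4 * g y ≤ g (h0 + s - y) + g p - g (h0 + s - (y + p)) := by
  have hh := h0_lt
  have hg := h0_gt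
  have e1 := g_anti (a := p) (b := h0 - y) (by linear_combination h3) (by linear_combination h4)
  have e2 := g_anti (a := s) (b := h0 + s - (y + p)) h0s (by linear_combination h4)
  have e3 := four (x := s) (y := y) (z := h0 + s - y) (w := h0) (by linear_combination h0s) (by linear_combination hh) h2
    (by linear_combination h3 + h4) (by ring)
  rw [g_h0] at e3
  have e4 := g_h0_sub (w := y) (by linear_combination h0s + h2) (by linear_combination h3 + h4)
  have e5 := g_lin3 (y := y) (by linear_combination h0s + h2) (by linear_combination h3 + h4 + hh)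
  have e6 := g_le_one s
  linear_combination e1 + e2 + e3 + e4 + 3 * e5 + 2 * e6

/-- The decrease of the unit arc is at least the decrease of the parabola. -/
theorem g_para {b c : ℝ} (h1 : 0 ≤ b) (h2 : b ≤ c) (h3 : c ≤ 1) :
    (c ^ 2 - b ^ 2) / 2 ≤ g b - g c := by
  have e1 := g_sq (r := b) (by linear_combination h2 + h3 + (mul_nonneg (sub_nonneg.mpr h1) (sub_nonneg.mpr h2)) +
    (mul_nonneg (sub_nonneg.mpr h1) (sub_nonneg.mpr h3)))
  have e2 := g_sq (r := c) (by linear_combination h3 + (mul_nonneg (sub_nonneg.mpr h1) (sub_nonneg.mpr h3)) + (mul_nonneg (sub_nonneg.mpr h2) (sub_nonneg.mpr h3)))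
  have e3 := g_le_one b
  have e4 := g_le_one c
  have e5 := g_anti h1 h2
  nlinarith [mul_nonneg (sub_nonneg.2 e5) (by linear_combination e3 + e4 : (0 : ℝ) ≤ 2 - (g b + g c))]

theorem g_le_poly (s : ℝ) (h : s ^ 2 ≤ 1) : g s ≤ 1 - s ^ 2 / 2 - s ^ 4 / 8 := by
  unfold g
  apply Real.sqrt_le_iff.2
  have h0 := sq_nonneg s
  constructor
  · linear_combination (1 / 8) * (mul_le_mul h h h0 (by norm_num : (0 : ℝ) ≤ 1)) + (1 / 2) * h
  · have : (1 - s ^ 2 / 2 - s ^ 4 / 8) ^ 2 = 1 - s ^ 2 + (s ^ 2) ^ 3 / 8 + (s ^ 2) ^ 4 / 64 := by ring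
    have h4 : 0 ≤ (s ^ 2) ^ 3 / 8 + (s ^ 2) ^ 4 / 64 := by positivity
    linear_combination h4

theorem poly_le_g {y : ℝ} (h1 : 0 ≤ y) (h2 : y ≤ 583 / 1000) :
    1 - (554 / 1000) * y ^ 2 ≤ g y := by
  unfold g
  apply Real.le_sqrt_of_sq_le
  have h3 : y ^ 2 ≤ 34 / 100 := by linear_combination (583 / 1000) * h2 + (mul_nonneg (sub_nonneg.mpr h1) (sub_nonneg.mpr h2))
  linear_combination (45607 / 12500000) * (sq_nonneg (y)) + (76729 / 250000) * (mul_nonneg (sq_nonneg y) (sub_nonneg.2 h3))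

/-- The subcase where the virtual centre is between `h0` and `h0 + s / 2`. -/
theorem mid_U4 {s y p b : ℝ} (h0s : 0 ≤ s) (h1s : s ≤ h0 / 2) (h2 : s ≤ y) (hb0 : 0 ≤ b)
    (hb1 : b ≤ 1 / 2) (hp : p = h0 * g b - b / 2) (h3 : h0 ≤ y + p) (h4 : y + p ≤ h0 + s / 2) :
    2 * (1 + g s) - 4 * g y ≤ -g (h0 + s - (y + p)) + g (h0 + s - y) + g p
      - g (h0 + s / 2 - (y + p)) + g (s / 2) + g b - g (y + p + b - h0) := by
  have hh := h0_lt
  have hg := h0_gt
  have hq := h0_sq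
  have gb := g_sq (r := b) (by linear_combination (1 / 2) * hb1 + (mul_nonneg (sub_nonneg.mpr hb0) (sub_nonneg.mpr hb1)))
  have gb1 := g_le_one b
  have gb0 : h0 ≤ g b := by
    have : h0 ^ 2 ≤ g b ^ 2 := by linear_combination (1 / 2) * hb1 + hq - gb + (mul_nonneg (sub_nonneg.mpr hb0) (sub_nonneg.mpr hb1))
    exact abs_le_of_sq_le_sq' this (g_nonneg b) |>.2
  obtain ⟨a, ha⟩ : ∃ a, a = y + p - h0 := ⟨_, rfl⟩
  obtain ⟨w, hw⟩ : ∃ w, w = h0 - p := ⟨_, rfl⟩
  have hya : y = a + w := by rw [ha, hw]; ring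
  have hw0 : 0 ≤ w := by
    rw [hw, hp]
    linear_combination (1 / 2) * h0s + h2 - hp + h4
  have hw1 : w ≤ h0 - 1 / 2 := by
    rw [hw, hp]
    linear_combination (1 / 2) * hb1 - hq + 2 * (mul_nonneg (sub_nonneg.mpr h0s) (sub_nonneg.mpr gb0)) +
      2 * (mul_nonneg (sub_nonneg.mpr h1s) (sub_nonneg.mpr gb0))
  -- the angle is large
  have hbw : (h0 + 1 / 2) * w ≤ b := by
    have k1 : 1 - g b ≤ 2 * (1 - h0) * b := by
      have k2 : (1 - g b) * (1 + h0) ≤ (1 - g b) * (1 + g b) :=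
        mul_le_mul_of_nonneg_left (by linear_combination gb0) (by linear_combination gb1)
      have k3 : (1 - g b) * (1 + g b) = b ^ 2 := by linear_combination -gb
      have k4 : (1 - g b) * (1 + h0) ≤ b / 2 := by linear_combination -gb + k2 + (mul_nonneg (sub_nonneg.mpr hb0) (sub_nonneg.mpr hb1))
      linear_combination (1339 / 6339) * hp + (10712 / 19017) * hq - (2678 / 6339) * gb +
        (10712 / 19017) * (mul_nonneg (sub_nonneg.mpr (sq_nonneg (h0))) (sub_nonneg.mpr (ge_of_eq hp))) +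
        (10712 / 19017) * (mul_nonneg (sub_nonneg.mpr (sq_nonneg (h0))) (sub_nonneg.mpr k2)) +
        (10712 / 19017) * (mul_nonneg (sub_nonneg.mpr (sq_nonneg (g b))) (sub_nonneg.mpr (ge_of_eq hq))) +
        (1339 / 6339) * (mul_nonneg (sub_nonneg.mpr h0s) (sub_nonneg.mpr hb1)) + (10712 / 19017) * (mul_nonneg (sub_nonneg.mpr h0s) (sub_nonneg.mpr (ge_of_eq hq))) +
        (2678 / 6339) * (mul_nonneg (sub_nonneg.mpr h2) (sub_nonneg.mpr hb1)) + (10712 / 19017) * (mul_nonneg (sub_nonneg.mpr h2) (sub_nonneg.mpr (ge_of_eq hq))) +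
        (2678 / 6339) * (mul_nonneg (sub_nonneg.mpr hb0) (sub_nonneg.mpr (le_of_eq hp))) + (5356 / 19017) * (mul_nonneg (sub_nonneg.mpr hb0) (sub_nonneg.mpr (le_of_eq hq))) +
        (2678 / 6339) * (mul_nonneg (sub_nonneg.mpr hb0) (sub_nonneg.mpr gb0)) + (2678 / 6339) * (mul_nonneg (sub_nonneg.mpr hb1) (sub_nonneg.mpr h4)) +
        (2678 / 6339) * (mul_nonneg (sub_nonneg.mpr hb1) (sub_nonneg.mpr k4)) + (10712 / 19017) * (mul_nonneg (sub_nonneg.mpr h3) (sub_nonneg.mpr (le_of_eq hq))) +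
        (20000 / 6339) * (mul_nonneg (sub_nonneg.mpr (le_of_lt hh)) (sub_nonneg.mpr k4)) + (49288 / 19017) * (mul_nonneg (sub_nonneg.mpr (le_of_eq hq)) (sub_nonneg.mpr gb1))
    have k5 : w ≤ (2 * h0 - 1) * b := by
      rw [hw, hp]
      linear_combination 2 * (mul_nonneg (sub_nonneg.mpr h0s) (sub_nonneg.mpr k1)) + 2 * (mul_nonneg (sub_nonneg.mpr h1s) (sub_nonneg.mpr k1)) +
        2 * (mul_nonneg (sub_nonneg.mpr hb0) (sub_nonneg.mpr (ge_of_eq hq)))
    linear_combination -(1 / 2) * hp + (1 / 2) * hw + (mul_nonneg (sub_nonneg.mpr h0s) (sub_nonneg.mpr k1)) +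
      2 * (mul_nonneg (sub_nonneg.mpr h0s) (sub_nonneg.mpr k5)) + (mul_nonneg (sub_nonneg.mpr h1s) (sub_nonneg.mpr k1)) +
      2 * (mul_nonneg (sub_nonneg.mpr h1s) (sub_nonneg.mpr k5)) + (mul_nonneg (sub_nonneg.mpr hb0) (sub_nonneg.mpr (le_of_eq hq)))
  have e1 := four (x := s) (y := y) (z := h0 + s - y) (w := h0) (by linear_combination h0s) (by linear_combination hh) h2
    (by linear_combination (1 / 2) * h1s + h4 + (1 / 4) * hh - hw + hw1) (by ring)
  rw [g_h0] at e1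
  have e2 := g_anti (a := s / 2) (b := s - a) (by linear_combination (1 / 2) * h0s) (by linear_combination h4 + ha)
  have e3 := g_le_one (s / 2 - a)
  have e4 := g_para (b := b) (c := a + b) hb0 (by linear_combination h3 - ha) (by linear_combination (1 / 2) * h1s + hb1 + h4 + (1 / 4) * hh + ha)
  have e5 := g_h0_sub hw0 hw1
  rw [show h0 - w = p by rw [hw]; ring] at e5
  rw [show h0 + s - (y + p) = s - a by rw [ha]; ring,
    show h0 + s / 2 - (y + p) = s / 2 - a by rw [ha]; ring,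
    show y + p + b - h0 = a + b by rw [ha]; ring]
  have e6 : 2 + g s ≤ 3 * g y + w + a * b + a ^ 2 / 2 := by
    have k1 := g_le_poly s (by linear_combination (8661 / 20000) * h1s + (8661 / 40000) * hh + (mul_nonneg (sub_nonneg.mpr h0s) (sub_nonneg.mpr h1s)) +
      (1 / 2) * (mul_nonneg (sub_nonneg.mpr h0s) (sub_nonneg.mpr (le_of_lt hh))))
    have ha0 : 0 ≤ a := by linear_combination h3 - ha
    have ha1 : a ≤ s / 2 := by linear_combination h4 + ha
    have hy0 : 0 ≤ y := by linear_combination h0s + h2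
    have hy1 : y ≤ 583 / 1000 := by linear_combination (1 / 2) * h1s + h4 + (5 / 4) * hh - hw + hw1
    have k2 := poly_le_g hy0 hy1
    have k3 : a * ((1366 / 1000) * w) ≤ a * b :=
      mul_le_mul_of_nonneg_left (by linear_combination (433 / 500) * hw + hbw + (1 / 2) * (mul_nonneg (sub_nonneg.mpr h0s) (sub_nonneg.mpr (le_of_lt hg))) +
        2 * (mul_nonneg (sub_nonneg.mpr h0s) (sub_nonneg.mpr (ge_of_eq hw))) + 2 * (mul_nonneg (sub_nonneg.mpr h1s) (sub_nonneg.mpr (ge_of_eq hw))) +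
        (mul_nonneg (sub_nonneg.mpr h2) (sub_nonneg.mpr (le_of_lt hg))) + (mul_nonneg (sub_nonneg.mpr h4) (sub_nonneg.mpr (le_of_lt hg)))) ha0
    have k4 : (y - s / 2) * (1 + (683 / 1000) * s) + s ^ 2 / 8 ≤
        w + a * ((1366 / 1000) * w) + a ^ 2 / 2 := by
      have : w = y - a := by linear_combination ha + hw
      rw [this]
      nlinarith [mul_nonneg (sub_nonneg.2 ha1) (by linear_combination (183 / 1000) * h0s + (1 / 2) * h4 + (683 / 500) * hh - (433 / 500) * ha - (683 / 500) * hw +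
        (683 / 500) * hw1 :
        (0 : ℝ) ≤ 1 - (1366 / 1000) * y + (866 / 1000) * (a + s / 2))]
    have hy2 : y ≤ 3661 / 10000 + s / 2 := by linear_combination h4 + hh - hw + hw1
    have hs2 : s ≤ 4331 / 10000 := by linear_combination h1s + (1 / 2) * hh
    have k5 : 0 ≤ -(1662 / 1000) * y ^ 2 + y * (1 + (683 / 1000) * s) - s / 2
        + (2835 / 10000) * s ^ 2 := by
      have m1 := mul_nonneg (sub_nonneg.2 h2) (sub_nonneg.2 hy2)
      rcases le_total s (216 / 1000) with m2 | m2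
      · have m3 := mul_nonneg hy0 (sub_nonneg.2 m2)
        have m4 := mul_nonneg h0s h0s
        linear_combination (1363 / 12500) * h0s + (2909 / 5000000) * h2 + (831 / 500) * m1 +
          (181 / 100) * m3 + (2229 / 2000) * m4
      · have m3 := mul_nonneg (sub_nonneg.2 hy2) (sub_nonneg.2 m2)
        have m4 := mul_nonneg (sub_nonneg.2 hs2) (sub_nonneg.2 m2)
        have m5 := mul_nonneg (sub_nonneg.2 hs2) (sub_nonneg.2 hs2)
        linear_combination (1766521 / 10000000) * h1s + (2909 / 5000000) * h2 + (1766521 / 20000000) * hh +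
          (831 / 500) * m1 + (181 / 100) * m3 + (419 / 2000) * m5
    have k6 : 0 ≤ s ^ 4 / 8 := by positivity
    linear_combination k1 + 3 * k2 + k3 + k4 + k5 + k6
  linear_combination e1 + e2 + e3 + e4 + e5 + e6

end Pool.Agent.Strip051.Four
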