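import Pool.Agent.Strip051.Four.Gain
import Pool.Agent.Strip051.Four.MidReal

/-! # The new point between `s` and `h0`, the near corner below `h0 + s / 2` -/

namespace Pool.Agent.Strip051.Four

open Pool.Agent.StripNear Pool.Agent.StripSquare Pool.Agent.Strip051

section

variable {s t y r : ℝ}

/-- The arc with centre between `s` and `h0` which touches the body of the second probe at
`h0 + s`. -/
theorem a2_touch (P : Par s t) (h1 : s ≤ y) (h2 : y ≤ h0) {z : ℝ} (k1 : s ≤ z) (k2 : z ≤ s + 1) :
    a2 s z ≤ g (z - y) + (g s + 1 - g (s / 2) - g (h0 + s - y)) := by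
  have hh := h0_lt
  have hg := h0_gt
  have hs0 := P.s0
  have hs1 := P.s1
  rcases le_total z (h0 + s) with h | h
  · have e1 := a2_le3 (s := s) (z := z)
    have e2 := arc_sub (a := y) (b := h0) (x := z) (y := h0 + s) h2 h (by linear_combination k1 + hh + hs0) (by linear_combination h1 + hh)
    rw [add_sub_cancel_left] at e2
    linear_combination e1 + e2
  · have e1 := a2_le4 (s := s) (z := z)
    have e2 := arc_sub (a := s) (b := y) (x := h0 + s) (y := z) h1 h (by linear_combination h2 + hs0) (by linear_combination k2)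
    rw [add_sub_cancel_right, g_h0] at e2
    linear_combination e1 + e2

/-- A virtual disc at least as high as its exit is above `h0`. -/
theorem h0_le_of_ext (h1 : 1 / 2 ≤ r) (h2 : r ≤ 1) (h3 : ext r ≤ r) : h0 ≤ r := by
  have hq := h0_sq
  have hp := h0_pos
  have hg := g_sq (r := r) (by linear_combination (3 / 2) * h2 + (mul_nonneg (sub_nonneg.mpr h1) (sub_nonneg.mpr h2)))
  have hg0 := g_nonneg r
  have e : ext r = r / 2 + h0 * g r := rfl
  have h4 : h0 * g r ≤ r / 2 := by linear_combination h3 - e
  have h5 : (h0 * g r) ^ 2 ≤ (r / 2) ^ 2 := pow_le_pow_left₀ (by positivity) h4 2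
  apply abs_le_of_sq_le_sq' _ (by linear_combination h1) |>.2
  linear_combination h5 + (mul_nonneg (sub_nonneg.mpr (sq_nonneg (h0))) (sub_nonneg.mpr (ge_of_eq hg))) +
    (mul_nonneg (sub_nonneg.mpr (sq_nonneg (r))) (sub_nonneg.mpr (le_of_eq hq)))

/-- The second probe, near corner below `h0`. -/
theorem mid2_a (P : Par s t) (h1 : s ≤ y) (h2 : y ≤ h0) (r1 : 1 / 2 ≤ r) (r2 : r ≤ 1) :
    g (h0 + s - y) + g (min r (ext r)) - g (h0 + s - (y + min r (ext r))) ≤ gn (j2 s) r y y := by
  have hh := h0_lt
  have hg := h0_gt
  have hs0 := P.s0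
  have hs1 := P.s1
  obtain ⟨e1, e2, e3, e4, e5⟩ := ext_facts r1 r2
  rcases le_total r (ext r) with h | h
  · rw [min_eq_left h]
    have h3 := gain_ge (y := y) (r := r) (q := y) (C := y)
      (α := g s + 1 - g (s / 2) - g (h0 + s - y)) (z0 := h0 + s) (β := g s + 1 - g (s / 2))
      (j2_ok P) r1 r2 le_rfl (by linear_combination r1)
      (fun z k1 k2 => a2_touch P h1 h2 (by simpa [j2] using k1) (by simpa [j2] using k2))
      (by simp only [j2]; linear_combination hg) (by simp only [j2]; linear_combination hh) (by linear_combination h2 + hs0) (by linear_combination h1 + 2 * r1 + hh)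
      (by
        simp only [j2]
        rw [a2_eq3 P (by linear_combination (1 / 2) * hs0) le_rfl, add_sub_cancel_left]
        linear_combination)
    rw [show y + ext r - y = ext r by ring, show y + r - (h0 + s) = -(h0 + s - (y + r)) by ring,
      g_neg] at h3
    linear_combination -e3 + h3
  · rw [min_eq_right h]
    have hr := h0_le_of_ext r1 r2 h
    have h3 := gain_ge (y := y) (r := r) (q := y) (C := h0 + s)
      (α := g (s / 2) - g s) (z0 := y) (β := g (y - (h0 + s)) + (g (s / 2) - g s))
      (j2_ok P) r1 r2 (by linear_combination h2 + hs0) (by linear_combination h1 + hr)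
      (fun z k1 k2 => a2_le1)
      (by simp only [j2]; linear_combination h1) (by simp only [j2]; linear_combination h2 + hh + hs0) (by linear_combination) (by linear_combination 2 * r1)
      (by
        simp only [j2]
        rw [a2_eq1 P h1 h2])
    rw [show y + r - y = r by ring, show y + ext r - (h0 + s) = -(h0 + s - (y + ext r)) by ring,
      g_neg, show y - (h0 + s) = -(h0 + s - y) by ring, g_neg] at h3
    linear_combination -e3 + h3

/-- The second probe, near corner between `h0` and `h0 + s / 2`. -/
theorem mid2_b (P : Par s t) (h1 : s ≤ y) (h2 : y ≤ h0) (r1 : 1 / 2 ≤ r) (r2 : r ≤ 1) :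
    g (min r (ext r)) + g (h0 + s - y) - g s - g (h0 + s / 2 - (y + min r (ext r))) + g (s / 2)
      ≤ gn (j2 s) r y y := by
  have hh := h0_lt
  have hg := h0_gt
  have hs0 := P.s0
  have hs1 := P.s1
  obtain ⟨e1, e2, e3, e4, e5⟩ := ext_facts r1 r2
  rcases le_total r (ext r) with h | h
  · rw [min_eq_left h]
    have h3 := gain_ge (y := y) (r := r) (q := y) (C := y)
      (α := g s + 1 - g (s / 2) - g (h0 + s - y)) (z0 := h0 + s / 2) (β := 1)
      (j2_ok P) r1 r2 le_rfl (by linear_combination r1)
      (fun z k1 k2 => a2_touch P h1 h2 (by simpa [j2] using k1) (by simpa [j2] using k2))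
      (by simp only [j2]; linear_combination (1 / 2) * h1 + (1 / 2) * h2 + (1 / 2) * hg) (by simp only [j2]; linear_combination hh + (1 / 2) * hs0) (by linear_combination h2 + (1 / 2) * hs0) (by linear_combination h1 + 2 * r1 + hh + (1 / 2) * hs0)
      (by
        simp only [j2]
        rw [a2_eq2 P (by linear_combination (1 / 2) * hs0) le_rfl, sub_self, g_zero])
    rw [show y + ext r - y = ext r by ring,
      show y + r - (h0 + s / 2) = -(h0 + s / 2 - (y + r)) by ring, g_neg] at h3
    linear_combination -e3 + h3
  · rw [min_eq_right h]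
    have hr := h0_le_of_ext r1 r2 h
    have h3 := gain_ge (y := y) (r := r) (q := y) (C := h0 + s / 2)
      (α := 0) (z0 := y) (β := g (y - (h0 + s)) + (g (s / 2) - g s))
      (j2_ok P) r1 r2 (by linear_combination h2 + (1 / 2) * hs0) (by linear_combination h1 + (1 / 2) * hs0 + hr)
      (fun z k1 k2 => by simpa [j2] using a2_le2)
      (by simp only [j2]; linear_combination h1) (by simp only [j2]; linear_combination h2 + hh + hs0) (by linear_combination) (by linear_combination 2 * r1)
      (by
        simp only [j2]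
        rw [a2_eq1 P h1 h2])
    rw [show y + r - y = r by ring,
      show y + ext r - (h0 + s / 2) = -(h0 + s / 2 - (y + ext r)) by ring,
      g_neg, show y - (h0 + s) = -(h0 + s - y) by ring, g_neg] at h3
    linear_combination -e3 + h3

/-- The third probe, near corner between `h0` and `h0 + s / 2`. -/
theorem mid3_b (P : Par s t) (h1 : s ≤ y) (h2 : y ≤ h0) (r1 : 1 / 2 ≤ r) (r2 : r ≤ 1)
    (hc : h0 ≤ y + min r (ext r)) :
    g (ext r - r) - g (y + max r (ext r) - h0) - g (h0 + s - (y + min r (ext r))) + g s
      ≤ gn (j3 s) r y y := by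
  have hh := h0_lt
  have hg := h0_gt
  have hs0 := P.s0
  have hs1 := P.s1
  obtain ⟨e1, e2, e3, e4, e5⟩ := ext_facts r1 r2
  rcases le_total r (ext r) with h | h
  · rw [min_eq_left h] at hc ⊢
    rw [max_eq_right h]
    have h3 := gain_ge (y := y) (r := r) (q := y) (C := h0)
      (α := g (s / 2) - g s) (z0 := h0 + s) (β := g (s / 2))
      (j3_ok P) r1 r2 h2 (by linear_combination hc)
      (fun z k1 k2 => by
        have := a2_le1 (s := s) (z := 2 * h0 + s - z)
        rw [show 2 * h0 + s - z - (h0 + s) = -(z - h0) by ring, g_neg] at this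
        exact this)
      (by simp only [j3, mirP, j2]; linear_combination hh + hs0) (by simp only [j3, mirP, j2]; linear_combination h1 + h2)
      (by linear_combination h2 + hs0) (by linear_combination h1 + 2 * r1 + hh)
      (by
        simp only [j3, mirP, j2]
        rw [show 2 * h0 + s - (h0 + s) = h0 by ring, a2_eq1 P (by linear_combination h1 + h2) le_rfl,
          show h0 - (h0 + s) = -s by ring, g_neg]
        linear_combination)
    rw [show y + r - (h0 + s) = -(h0 + s - (y + r)) by ring, g_neg] at h3
    linear_combination h3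
  · rw [min_eq_right h] at hc ⊢
    rw [max_eq_left h]
    have hr := h0_le_of_ext r1 r2 h
    have h3 := gain_ge (y := y) (r := r) (q := y) (C := h0 + s)
      (α := 1 - g (s / 2)) (z0 := h0) (β := g s + (1 - g (s / 2)))
      (j3_ok P) r1 r2 (by linear_combination h2 + hs0) (by linear_combination h1 + hr)
      (fun z k1 k2 => by
        have := a2_le3 (s := s) (z := 2 * h0 + s - z)
        rw [show 2 * h0 + s - z - h0 = -(z - (h0 + s)) by ring, g_neg] at this
        exact this)
      (by simp only [j3, mirP, j2]; linear_combination hh) (by simp only [j3, mirP, j2]; linear_combination hg)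
      (by linear_combination h2) (by linear_combination h1 + 2 * r1 + hh + hs0)
      (by
        simp only [j3, mirP, j2]
        rw [show 2 * h0 + s - h0 = h0 + s by ring, a2_eq3 P (by linear_combination (1 / 2) * hs0) le_rfl,
          add_sub_cancel_left])
    rw [show y + ext r - (h0 + s) = -(h0 + s - (y + ext r)) by ring, g_neg] at h3
    linear_combination h3

/-- The two corners in terms of their difference. -/
theorem corner (r1 : 1 / 2 ≤ r) (r2 : r ≤ 1) : ∃ p b : ℝ, p = min r (ext r) ∧
    p + b = max r (ext r) ∧ 0 ≤ b ∧ b ≤ 1 / 2 ∧ p = h0 * g b - b / 2 ∧ g (ext r - r) = g b ∧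
    1 / 2 ≤ p := by
  obtain ⟨e1, e2, e3, e4, e5⟩ := ext_facts r1 r2
  have e : ext r = r / 2 + h0 * g r := rfl
  have e' : ext (ext r) = ext r / 2 + h0 * g (ext r) := rfl
  rw [e5] at e'
  rcases le_total r (ext r) with h | h
  · refine ⟨r, ext r - r, (min_eq_left h).symm, by rw [max_eq_right h]; ring, by linear_combination h,
      by linear_combination r1 + e2, ?_, rfl, r1⟩
    rw [e3]
    linear_combination e + e'
  · refine ⟨ext r, r - ext r, (min_eq_right h).symm, by rw [max_eq_left h]; ring, by linear_combination h,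
      by linear_combination r2 + e1, ?_, ?_, e1⟩
    · rw [← g_neg, neg_sub, e3]
      linear_combination e + e'
    · rw [← g_neg, neg_sub]

/-- The near corner is below `h0 + s / 2`. -/
theorem mid_low (P : Par s t) (h1 : s ≤ y) (h2 : y ≤ h0) (r1 : 1 / 2 ≤ r) (r2 : r ≤ 1)
    (hc : y + min r (ext r) ≤ h0 + s / 2) :
    1 + g s - 2 * g y ≤ (gn (j2 s) r y y + gn (j3 s) r y y) / 2 := by
  obtain ⟨p, b, hp, hpb, hb0, hb1, hpe, hgb, hp1⟩ := corner r1 r2
  rcases le_total (y + min r (ext r)) h0 with h | h
  · have k1 := mid2_a P h1 h2 r1 r2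
    have k2 := gn_nonneg (r := r) (q := y) (y := y) (j3_ok P)
    rw [← hp] at h k1
    have k3 := mid_U5 P.s0 h1 hp1 h
    linear_combination (1 / 2) * k1 + (1 / 2) * k2 + (1 / 2) * k3
  · have k1 := mid2_b P h1 h2 r1 r2
    have k2 := mid3_b P h1 h2 r1 r2 h
    rw [← hp] at h k1 k2 hc
    rw [← hpb, hgb] at k2
    have k3 := mid_U4 P.s0 P.s1 h1 hb0 hb1 hpe h hc
    rw [← add_assoc] at k2
    linear_combination (1 / 2) * k1 + (1 / 2) * k2 + (1 / 2) * k3

end

end Pool.Agent.Strip051.Four
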