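import Pool.Agent.Strip051.Four.MidReal

set_option maxHeartbeats 4000000

/-! # Pure real inequalities for the case `s ≤ y ≤ h0`, virtual centre above `h0 + s / 2` -/

namespace Pool.Agent.Strip051.Four

open Pool.Agent.StripNear Pool.Agent.StripSquare Pool.Agent.Strip051

/-- Upper parabola. -/
theorem g_le_par {x : ℝ} (K : ℝ) (hK : 0 < K) (hx : x ^ 2 ≤ 1) :
    g x ≤ (1 - x ^ 2 + K ^ 2) / (2 * K) := by
  have e1 := g_sq (r := x) hx
  rw [le_div_iff₀ (by linear_combination 2 * hK)]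
  linear_combination (sq_nonneg (g x - K)) + e1

/-- Upper parabola. -/
theorem g_le_par' {x : ℝ} (K c L : ℝ) (hc : 0 < c) (h : 2 * K * c = 1) (hL : L = K ^ 2)
    (hx0 : 0 ≤ x) (hx : x ≤ 1) : g x ≤ (1 - x ^ 2 + L) * c := by
  have h1 : x ^ 2 ≤ 1 := pow_le_one₀ hx0 hx
  have e1 := g_sq (r := x) h1
  have e2 : g x = 2 * K * c * g x := by rw [h, one_mul]
  rw [e2, hL]
  linear_combination (mul_nonneg hc.le (sq_nonneg (g x - K))) + (mul_nonneg (sub_nonneg.mpr (le_of_lt hc)) (sub_nonneg.mpr (le_of_eq e1)))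

/-- Lower parabola. -/
theorem par_le_g {x : ℝ} (K L : ℝ) (hK : 0 < K) (h1 : K ≤ g x) (h2 : g x ≤ L) (hx : x ^ 2 ≤ 1) :
    (1 - x ^ 2 + K * L) / (K + L) ≤ g x := by
  have e1 := g_sq (r := x) hx
  rw [div_le_iff₀ (by linear_combination 2 * hK + h1 + h2)]
  linear_combination (mul_nonneg (sub_nonneg.2 h1) (sub_nonneg.2 h2)) - e1

/-- `g (h0 - u) ≥ 1 / 2 + 1.42 u - 1.155 u ^ 2`. -/
theorem g_h0_par {u : ℝ} (h1 : 0 ≤ u) (h2 : u ≤ h0 - 1 / 2) :
    1 / 2 + (142 / 100) * u - (1155 / 1000) * u ^ 2 ≤ g (h0 - u) := by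
  have hs := h0_sq
  have hg := h0_gt
  have hl := h0_lt
  unfold g
  apply Real.le_sqrt_of_sq_le
  have k1 : u ≤ 3661 / 10000 := by linarith
  have k2 : 0 ≤ u * ((3120 / 10000) - (1 + (142 / 100) ^ 2 - 1155 / 1000) * u
      + 2 * (142 / 100) * (1155 / 1000) * u ^ 2 - (1155 / 1000) ^ 2 * u ^ 3) := by
    apply mul_nonneg h1
    linear_combination (1750010635729 / 3710589600000) * (sq_nonneg (u - 3 / 10)) + (612748363 / 18552948) * (mul_nonneg (sub_nonneg.mpr (sq_nonneg (u - 3 / 10))) (sub_nonneg.mpr (sq_nonneg (u - 3 / 10)))) +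
      (1119681863 / 18552948) * (mul_nonneg (sub_nonneg.mpr (sq_nonneg (u - 3 / 10))) (sub_nonneg.mpr (mul_nonneg h1 (sub_nonneg.2 k1)))) +
      (126733375 / 4638237) * (mul_nonneg (sub_nonneg.mpr (mul_nonneg h1 (sub_nonneg.2 k1))) (sub_nonneg.mpr (mul_nonneg h1 (sub_nonneg.2 k1))))
  exact not_lt.mp (fun hg__ => absurd h1 (not_le.mpr (by linear_combination (244266909553250 / 11446082021) * hg__ + (100175950875619750 / 4956153515093) * hs + (2503523073209750 / 450559410463) * k2 + (44699140625000000 / 4956153515093) * (mul_nonneg (sub_nonneg.mpr (sq_nonneg (1 / 2 + 142 / 100 * u - 1155 / 1000 * u ^ 2))) (sub_nonneg.mpr (ge_of_eq hs))) + (103257312500000 / 11446082021) * (mul_nonneg (sub_nonneg.mpr (sq_nonneg (1 / 2 + 142 / 100 * u - 1155 / 1000 * u ^ 2))) (sub_nonneg.mpr k2)) + (1667531250 / 1040552911) * (mul_nonneg (sub_nonneg.mpr (sq_nonneg (u))) (sub_nonneg.mpr (sq_nonneg (u)))) + (4100250000 / 1040552911) * (mul_nonneg (sub_nonneg.mpr (sq_nonneg (u)))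 (sub_nonneg.mpr h2)) + (1025062500000 / 450559410463) * (mul_nonneg (sub_nonneg.mpr (sq_nonneg (u))) (sub_nonneg.mpr (le_of_eq hs))) + (103257312500000 / 11446082021) * (mul_nonneg (sub_nonneg.mpr (sq_nonneg (h0 - u))) (sub_nonneg.mpr (le_of_eq hs))) + (103257312500000 / 11446082021) * (mul_nonneg (sub_nonneg.mpr (sq_nonneg (h0 - u))) (sub_nonneg.mpr k2)) + (51628656250000 / 11446082021) * (mul_nonneg (sub_nonneg.mpr (sq_nonneg (h0))) (sub_nonneg.mpr (ge_of_eq hs))) + (44699140625000000 / 4956153515093) * (mul_nonneg (sub_nonneg.mpr (sq_nonneg (h0))) (sub_nonneg.mpr k2)) + (178819113875000 / 11446082021) * (mul_nonneg (sub_nonneg.mpr h2) (sub_nonneg.mpr (le_of_eq hs))) + (178819113875000 / 11446082021) * (mul_nonneg (sub_nonneg.mpr h2) (sub_nonneg.mpr k2)) + (51628656250000 / 11446082021) * (mul_nonneg (sub_nonneg.mpr k2) (sub_nonneg.mpr k2)) + (51628656250000 / 11446082021) * (mul_pos (sub_pos.mpr hg__) (sub_pos.mpr hg__)) + (178819113875000 / 11446082021)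 * (mul_nonneg (sub_nonneg.mpr (le_of_lt hg__)) (sub_nonneg.mpr h2)))))

theorem h0_gt' : (86602 / 100000 : ℝ) < h0 := by
  exact not_le.mp (fun hg__ => absurd hg__ (not_le.mpr (by linear_combination -(50000 / 43301) * h0_sq + (50000 / 43301) * (mul_nonneg (sub_nonneg.mpr hg__) (sub_nonneg.mpr (le_of_lt h0_pos))))))

theorem h0_lt' : h0 < (86603 / 100000 : ℝ) := by
  exact not_le.mp (fun hg__ => absurd hg__ (not_le.mpr (by linear_combination (50000 / 86603) * h0_sq + (50000 / 86603) * (mul_nonneg (sub_nonneg.mpr hg__) (sub_nonneg.mpr hg__)))))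

/-- The polynomial inequality for large angles. -/
theorem u3_poly1 {s a b f F : ℝ} (c1 : 0 ≤ s - a) (c2 : 0 ≤ a - s / 2)
    (c3 : 0 ≤ 433015 / 1000000 - s) (c4 : 0 ≤ a + b / 2 + F - s) (c5 : 0 ≤ 86603 / 100000 - a - b)
    (c6 : 0 ≤ b - 1 / 5) (c7 : 0 ≤ 1 / 2 - b) (c8 : 0 ≤ s) (hf : 0 ≤ f)
    (hf1 : f ≤ 2021 / 100000 + (b - 1 / 5) * (37925 / 100000))
    (hf2 : 1339 / 10000 + (b - 1 / 2) * (5775 / 10000) ≤ f)
    (hF1 : 86602 / 100000 * f ≤ F) (hF2 : F ≤ 86603 / 100000 * f)
    (heq : b ^ 2 = 2 * f - f ^ 2) :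
    0 ≤ (142 / 100) * (a + b / 2 + F - s) - (1155 / 1000) * (a + b / 2 + F - s) ^ 2
      + 86602 / 100000 * b - f / 2 - (5125 / 10000) * (s - a) * a - f
      - (1 - (a + b) ^ 2 + 3844 / 10000) * (25 / 31)
      - (1 - a ^ 2 + 8836 / 10000) * (25 / 47)
      - (1 - s ^ 2 + 8464 / 10000) * (25 / 23)
      + (1 - (a + b / 2 + F) ^ 2 + 67 / 100) * (400 / 167) := by
  have e1 := sub_nonneg.2 hf1
  have e2 := sub_nonneg.2 hf2
  have e3 := sub_nonneg.2 hF1
  have e4 := sub_nonneg.2 hF2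
  linear_combination (313 / 4600) * (mul_nonneg c1 c4) + (3994365520212986194563792080377706613471070871 / 36294409717012595526740655816674423328000000000) * (mul_nonneg c1 c6) +
    (3184070607118310447355492288632981142229795433 / 18541709311952086845182726341127151048000000000) * (mul_nonneg c2 c7) +
    (168525 / 5596337) * (mul_nonneg c3 c5) + (730344183 / 447706960) * (mul_nonneg c4 c5) +
    (296366787559483451724324775034234353939603290937 / 1705837256699591989756810823383697896416000000000) * (mul_nonneg c5 c6) +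
    (779500021240348421393775308551491669585167281480361 / 682334902679836795902724329353479158566400000000000) * (mul_nonneg c6 c7) +
    (19703093046754171341167765078984941864450621 / 14215310472496599914640090194864149136800000) * (mul_nonneg e1 c2) +
    (2218612206352502803771323699086489072063 / 1776913809062074989330011274358018642100) * (mul_nonneg e1 c4) +
    (172108185523474384240597252258825310541564649819 / 284306209449931998292801803897282982736000000000) * (mul_nonneg e1 c6) +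
    (1125043391115290165550151147910009010720358057 / 355382761812414997866002254871603728420000000) * (mul_nonneg e1 hf) +
    (9056985021269528353806540055847834129859 / 17769138090620749893300112743580186421000) * (mul_nonneg e2 e4) +
    (1273820379642391551232011089597177797181 / 7107655236248299957320045097432074568400) * (mul_nonneg e3 c1) +
    (539165681145041138301420170472472036311 / 3553827618124149978660022548716037284200) * (mul_nonneg e3 c5) +
    (1287029821134183918052531490408989781893 / 253844829866010712761430182051145520300) * (mul_nonneg e4 c4) +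
    (21375601360219385287172104758045199293683 / 7107655236248299957320045097432074568400) * (mul_nonneg e4 c8) +
    (771654948195197040469607489974944691893 / 507689659732021425522860364102291040600) * (mul_nonneg e4 e4) +
    (181499941383408855726766355074109861799596721 / 88845690453103749466500563717900932105000000) * (mul_nonneg hf c5) +
    (17239597891050701365688598565133589623329623 / 710765523624829995732004509743207456840000000) * c4 - (56304782840589676549778202583305819257085887791141 / 35538276181241499786600225487160372842000000000000) * heq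

/-- The polynomial inequality for small angles. -/
theorem u3_poly2 {s a b f F : ℝ} (c1 : 0 ≤ s - a)
    (c3 : 0 ≤ 433015 / 1000000 - s) (c4 : 0 ≤ a + b / 2 + F - s)
    (c6 : 0 ≤ b) (c7 : 0 ≤ 1 / 5 - b) (c8 : 0 ≤ s) (hf : 0 ≤ f)
    (hf1 : f ≤ (506 / 1000) * b ^ 2)
    (hF1 : 86602 / 100000 * f ≤ F) (hF2 : F ≤ 86603 / 100000 * f)
    (heq : b ^ 2 = 2 * f - f ^ 2) :
    0 ≤ (142 / 100) * (a + b / 2 + F - s) - (1155 / 1000) * (a + b / 2 + F - s) ^ 2
      + 86602 / 100000 * b - f / 2 - (5125 / 10000) * (s - a) * a + a * b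
      - (1198 / 1000) * ((b / 2 + F) * (2 * a + (b / 2 + F))
        + (a + b / 2 + F - s) * (2 * s + (a + b / 2 + F - s))) := by
  have e1 := sub_nonneg.2 hf1
  have e3 := sub_nonneg.2 hF1
  have e4 := sub_nonneg.2 hF2
  linear_combination (3681 / 2000) * (mul_nonneg c1 c4) + (3767 / 2000) * (mul_nonneg c3 c4) +
    (1817 / 4000) * (mul_nonneg c3 c6) + (6523 / 4000) * (mul_nonneg c4 c7) + (862018460752893 / 800000000000000) * (mul_nonneg c6 c7) +
    (28420 / 86603) * (mul_nonneg e3 c3) + (10523 / 2000) * (mul_nonneg e4 c4) + (1421 / 2000) * (mul_nonneg e4 c7) +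
    (446929651 / 173206000) * (mul_nonneg e4 c8) + (3421 / 2000) * (mul_nonneg e4 e4) +
    (318785643 / 200000000) * (mul_nonneg e4 hf) + (911323369 / 200000000) * (mul_nonneg hf c1) +
    (43627906245553 / 17320600000000) * (mul_nonneg hf c3) + (665197643 / 400000000) * (mul_nonneg hf c7) +
    (111306499 / 400000000) * c4 + (1815273284247107 / 4000000000000000) * c6 + (11599767099121 / 1600000000000) * hf1 +
    (26632782691559 / 10000000000000) * heq

/-- Facts on the angle. -/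
theorem ang {b p : ℝ} (hb0 : 0 ≤ b) (hb1 : b ≤ 1 / 2) (hp : p = h0 * g b - b / 2) :
    h0 - p = b / 2 + h0 * (1 - g b) ∧ g p = g b / 2 + h0 * b ∧ b ^ 2 = 2 * (1 - g b) - (1 - g b) ^ 2
      ∧ 0 ≤ 1 - g b ∧ 1 - g b ≤ 134 / 1000 ∧ 1 / 2 ≤ p := by
  have hh := h0_lt'
  have hg := h0_gt'
  have hq := h0_sq
  have gb := g_sq (r := b) (by linear_combination (1 / 2) * hb1 + (mul_nonneg (sub_nonneg.mpr hb0) (sub_nonneg.mpr hb1)))
  have gb1 := g_le_one b
  have gb2 : h0 ≤ g b := by
    have : h0 ^ 2 ≤ g b ^ 2 := by linear_combination (1 / 2) * hb1 + hq - gb + (mul_nonneg (sub_nonneg.mpr hb0) (sub_nonneg.mpr hb1))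
    exact abs_le_of_sq_le_sq' this (g_nonneg b) |>.2
  refine ⟨by rw [hp]; ring, ?_, by linear_combination gb, by linear_combination gb1, by linear_combination hg + gb2, by linear_combination (1 / 2) * hb1 - hp - hq + (43301 / 50000) * gb2 + (mul_nonneg (sub_nonneg.mpr (le_of_lt hg)) (sub_nonneg.mpr gb2))⟩
  have k1 : 0 ≤ g b / 2 + h0 * b := by linear_combination (43301 / 50000) * hb0 + (1 / 2) * hg + (1 / 2) * gb2 + (mul_nonneg (sub_nonneg.mpr hb0) (sub_nonneg.mpr (le_of_lt hg)))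
  have k2 : 1 - p ^ 2 = (g b / 2 + h0 * b) ^ 2 := by
    rw [hp]
    have : b ^ 2 = 1 - g b ^ 2 := by linear_combination gb
    ring_nf
    rw [this, hq]
    ring
  rw [show g p = √(1 - p ^ 2) from rfl, k2, Real.sqrt_sq k1]

theorem g_sub_half {s a : ℝ} (h1 : 0 ≤ s) (h2 : s ≤ h0 / 2) (h3 : a ≤ s) (h4 : s / 2 ≤ a) :
    g (a - s / 2) - g (s / 2) ≤ (5125 / 10000) * (s - a) * a := by
  have hh := h0_lt'
  have e1 := g_sq (r := s / 2) (by linear_combination (86603 / 800000) * h2 + (86603 / 1600000) * hh + (1 / 4) * (mul_nonneg (sub_nonneg.mpr h1) (sub_nonneg.mpr h2)) +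
    (1 / 8) * (mul_nonneg (sub_nonneg.mpr h1) (sub_nonneg.mpr (le_of_lt hh))))
  have e2 := g_sq (r := a - s / 2) (by linear_combination (sq_nonneg (g (s / 2))) + e1 + (1 / 2) * (mul_nonneg (sub_nonneg.mpr h1) (sub_nonneg.mpr h3)) +
    (mul_nonneg (sub_nonneg.mpr h3) (sub_nonneg.mpr h4)))
  have e3 := g_anti (a := a - s / 2) (b := s / 2) (by linear_combination h4) (by linear_combination h3)
  have e4 : 976 / 1000 ≤ g (s / 2) := by
    unfold g
    apply Real.le_sqrt_of_sq_le
    linear_combination (86603 / 800000) * h2 + (86603 / 1600000) * hh + (1 / 4) * (mul_nonneg (sub_nonneg.mpr h1) (sub_nonneg.mpr h2)) +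
      (1 / 8) * (mul_nonneg (sub_nonneg.mpr h1) (sub_nonneg.mpr (le_of_lt hh)))
  have e5 : (g (a - s / 2) - g (s / 2)) * (g (a - s / 2) + g (s / 2)) = (s - a) * a := by
    linear_combination e2 - e1
  nlinarith [mul_nonneg (sub_nonneg.2 e3) (by linear_combination e3 + 2 * e4 :
    (0 : ℝ) ≤ g (a - s / 2) + g (s / 2) - 1952 / 1000),
    mul_nonneg (sub_nonneg.2 h3) (by linear_combination (1 / 2) * h1 + h4 : (0 : ℝ) ≤ a)]

/-- Superadditivity of `1 - g x - x ^ 2 / 2`. -/
theorem g_super {a b : ℝ} (ha : 0 ≤ a) (hb : 0 ≤ b) (hab : a + b ≤ 1) :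
    a * b ≤ g a + g b - g (a + b) - 1 := by
  have e1 := g_sq (r := a) (by linear_combination hb + hab + (mul_nonneg (sub_nonneg.mpr ha) (sub_nonneg.mpr hb)) +
    (mul_nonneg (sub_nonneg.mpr ha) (sub_nonneg.mpr hab)))
  have e2 := g_sq (r := b) (by linear_combination ha + hab + (mul_nonneg (sub_nonneg.mpr ha) (sub_nonneg.mpr hb)) +
    (mul_nonneg (sub_nonneg.mpr hb) (sub_nonneg.mpr hab)))
  have e3 := g_sq (r := a + b) (by linear_combination hab + (mul_nonneg (sub_nonneg.mpr ha) (sub_nonneg.mpr hab)) + (mul_nonneg (sub_nonneg.mpr hb) (sub_nonneg.mpr hab)))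
  have e4 := g_anti (a := a) (b := a + b) ha (by linear_combination hb)
  have e5 := g_anti (a := b) (b := a + b) hb (by linear_combination ha)
  have e6 := g_le_one a
  have e7 := g_le_one b
  have e8 : 2 * (a * b) ≤ (g a + g b - g (a + b) - 1) * (1 + g b) := by
    nlinarith [mul_nonneg (sub_nonneg.2 e4) (by linear_combination e5 + e6 : 0 ≤ 1 + g b - (g a + g (a + b)))]
  have e9 := mul_nonneg ha hb
  by_contra hc
  have e10 : g a + g b - g (a + b) - 1 < a * b := lt_of_not_ge hc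
  have e11 := g_nonneg b
  nlinarith [mul_lt_mul_of_pos_right e10 (by linear_combination e11 : 0 < 1 + g b),
    mul_le_mul_of_nonneg_left (by linear_combination e7 : 1 + g b ≤ 2) e9]

theorem g_sub_le {x y G : ℝ} (hG : 0 < G) (h1 : 0 ≤ x) (h2 : x ≤ y) (h3 : y ≤ 1)
    (h4 : 1 / G ≤ g y) : 2 * (g x - g y) ≤ G * (y ^ 2 - x ^ 2) := by
  have e1 := g_sq (r := x) (by linear_combination h2 + h3 + (mul_nonneg (sub_nonneg.mpr h1) (sub_nonneg.mpr h2)) +
    (mul_nonneg (sub_nonneg.mpr h1) (sub_nonneg.mpr h3)))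
  have e2 := g_sq (r := y) (by linear_combination h3 + (mul_nonneg (sub_nonneg.mpr h1) (sub_nonneg.mpr h3)) + (mul_nonneg (sub_nonneg.mpr h2) (sub_nonneg.mpr h3)))
  have e3 := g_anti h1 h2
  have e4 : 1 ≤ G * g y := by
    rw [div_le_iff₀ hG] at h4
    linear_combination h4
  have e5 : 2 ≤ G * (g x + g y) := by linear_combination 2 * e4 + (mul_nonneg (sub_nonneg.mpr (le_of_lt hG)) (sub_nonneg.mpr e3))
  linear_combination (mul_nonneg (sub_nonneg.2 e3) (sub_nonneg.2 e5)) + (mul_nonneg (sub_nonneg.mpr (le_of_lt hG)) (sub_nonneg.mpr (le_of_eq e1))) +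
    (mul_nonneg (sub_nonneg.mpr (le_of_lt hG)) (sub_nonneg.mpr (ge_of_eq e2)))

theorem gb_small {b : ℝ} (h1 : 0 ≤ b) (h2 : b ≤ 1 / 5) : 1 - g b ≤ 203 / 10000 := by
  have : 1 - (203 / 10000 : ℝ) ≤ g b := by
    unfold g
    apply Real.le_sqrt_of_sq_le
    linear_combination (1 / 5) * h2 + (mul_nonneg (sub_nonneg.mpr h1) (sub_nonneg.mpr h2))
  linear_combination this

theorem gb_chord {b : ℝ} (hb : 1 / 5 ≤ b) (hb1 : b ≤ 1 / 2) :
    1 - g b ≤ 2021 / 100000 + (b - 1 / 5) * (37925 / 100000) := by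
  have : 1 - (2021 / 100000 + (b - 1 / 5) * (37925 / 100000)) ≤ g b := by
    unfold g
    apply Real.le_sqrt_of_sq_le
    linear_combination (18301289 / 16000000) * (mul_nonneg (sub_nonneg.2 hb) (sub_nonneg.2 hb1)) +
      (17237 / 800000000) * hb
  linear_combination this

theorem gb_tan {b : ℝ} (hb1 : b ≤ 1 / 2) :
    1339 / 10000 + (b - 1 / 2) * (5775 / 10000) ≤ 1 - g b := by
  have : g b ≤ 1 - (1339 / 10000 + (b - 1 / 2) * (5775 / 10000)) := by
    unfold g
    apply Real.sqrt_le_iff.2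
    constructor
    · linear_combination (231 / 400) * hb1
    · linear_combination (213361 / 160000) * (sq_nonneg (b - 1 / 2)) + (691 / 2000000) * hb1
  linear_combination this

theorem f_sq_small {b f : ℝ} (h1 : 0 ≤ f) (h2 : f ≤ 203 / 10000) (h3 : b ^ 2 = 2 * f - f ^ 2) :
    f ≤ (506 / 1000) * b ^ 2 := by
  linear_combination (8641 / 9898500) * (sq_nonneg (b)) - (10000 / 19797) * h3 + (10000 / 19797) * (mul_nonneg (sub_nonneg.mpr h1) (sub_nonneg.mpr h2))

theorem f_sq_large {b f : ℝ} (h1 : 0 ≤ f) (h2 : f ≤ 134 / 1000) (h3 : b ^ 2 = 2 * f - f ^ 2) :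
    f ≤ (536 / 1000) * b ^ 2 := by
  linear_combination (11 / 116625) * (sq_nonneg (b)) - (500 / 933) * h3 + (500 / 933) * (mul_nonneg (sub_nonneg.mpr h1) (sub_nonneg.mpr h2))

theorem y_le_large {b f F a y : ℝ} (hb : 1 / 5 ≤ b) (hb1 : b ≤ 1 / 2)
    (hf : f ≤ (536 / 1000) * b ^ 2) (hF : F ≤ 86603 / 100000 * f) (ha : a ≤ 433015 / 1000000)
    (hab : a + b ≤ 86603 / 100000) (hy : y = a + b / 2 + F) : y ≤ 742 / 1000 := by
  rcases le_total b (433 / 1000) with h | h
  · linear_combination (86603 / 100000) * hf + hF + ha + hy + (9922919833 / 12500000000) * h +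
    (5802401 / 12500000) * (mul_nonneg (sub_nonneg.mpr hb) (sub_nonneg.mpr h))
  · linear_combination (5802401 / 12500000) * (mul_nonneg (sub_nonneg.2 h) (sub_nonneg.2 hb1)) +
    (86603 / 100000) * hf + hF + (836359867 / 12500000000) * ha + (11663640133 / 12500000000) * hab +
    hy

theorem le_g_of {y K : ℝ} (h1 : 0 ≤ y) (c : ℝ) (h2 : y ≤ c) (h3 : c ^ 2 + K ^ 2 ≤ 1) :
    K ≤ g y := by
  unfold g
  apply Real.le_sqrt_of_sq_le
  linear_combination h3 + 2 * (mul_nonneg (sub_nonneg.mpr h1) (sub_nonneg.mpr h2)) + (mul_nonneg (sub_nonneg.mpr h2) (sub_nonneg.mpr h2))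

/-- The case `m ≤ c1 ≤ v`, `z1 ≤ 2 h0`. -/
theorem mid_U3a {s y p b : ℝ} (h0s : 0 ≤ s) (h1s : s ≤ h0 / 2) (h2 : s ≤ y) (hb0 : 0 ≤ b)
    (hb1 : b ≤ 1 / 2) (hp : p = h0 * g b - b / 2) (h3 : h0 + s / 2 ≤ y + p) (h4 : y + p ≤ h0 + s)
    (h5 : y + p + b ≤ 2 * h0) :
    2 * (1 + g s) - 4 * g y ≤ g (h0 + s - y) + g p + g (s / 2) - g (y + p - h0 - s / 2)
      + g b - g (y + p + b - h0) - g (y + p - h0) := by
  have hh := h0_lt'
  have hg := h0_gt'
  have hq := h0_sq
  obtain ⟨k1, k2, k3, k4, k5, k6⟩ := ang hb0 hb1 hp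
  obtain ⟨f, hf⟩ : ∃ f, f = 1 - g b := ⟨_, rfl⟩
  obtain ⟨F, hF⟩ : ∃ F, F = h0 * f := ⟨_, rfl⟩
  obtain ⟨a, ha⟩ : ∃ a, a = y + p - h0 := ⟨_, rfl⟩
  rw [← hf] at k1 k3 k4 k5
  have hya : y = a + b / 2 + F := by rw [hF]; linear_combination k1 - ha
  have hgb : g b = 1 - f := by rw [hf]; ring
  rw [hgb] at k2 ⊢
  have F1 : 86602 / 100000 * f ≤ F := by rw [hF]; linear_combination -(43301 / 100000) * k3 + (1 / 2) * (mul_nonneg (sub_nonneg.mpr (sq_nonneg (b))) (sub_nonneg.mpr (le_of_lt hg))) +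
    (1 / 2) * (mul_nonneg (sub_nonneg.mpr (sq_nonneg (f))) (sub_nonneg.mpr (le_of_lt hg))) +
    (mul_nonneg (sub_nonneg.mpr h0s) (sub_nonneg.mpr (le_of_eq k3))) + (mul_nonneg (sub_nonneg.mpr h1s) (sub_nonneg.mpr (le_of_eq k3)))
  have F2 : F ≤ 86603 / 100000 * f := by rw [hF]; linear_combination (86603 / 200000) * k3 + (1 / 2) * (mul_nonneg (sub_nonneg.mpr (sq_nonneg (b))) (sub_nonneg.mpr (le_of_lt hh))) +
    (1 / 2) * (mul_nonneg (sub_nonneg.mpr (sq_nonneg (f))) (sub_nonneg.mpr (le_of_lt hh))) +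
    (mul_nonneg (sub_nonneg.mpr h0s) (sub_nonneg.mpr (ge_of_eq k3))) + (mul_nonneg (sub_nonneg.mpr h1s) (sub_nonneg.mpr (ge_of_eq k3)))
  have ha0 : 0 ≤ a := by linear_combination (1 / 2) * h0s + h3 - ha
  have e1 := g_h0_par (u := y - s) (by linear_combination h2) (by linear_combination h4 + k6)
  rw [show h0 - (y - s) = h0 + s - y by ring] at e1
  have e2 := g_sub_half (a := a) h0s h1s (by linear_combination h4 + ha) (by linear_combination h3 - ha)
  rw [show y + p - h0 - s / 2 = a - s / 2 by rw [ha],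
    show y + p + b - h0 = a + b by rw [ha]; ring, ← ha]
  have e3 : (86602 / 100000) * b ≤ h0 * b := by linear_combination (mul_nonneg (sub_nonneg.mpr hb0) (sub_nonneg.mpr (le_of_lt hg)))
  rcases le_total b (1 / 5) with hb | hb
  · -- small angles
    have f1 : f ≤ 203 / 10000 := by rw [hf]; exact gb_small hb0 hb
    have f2 := f_sq_small k4 f1 k3
    have e4 := u3_poly2 (s := s) (a := a) (b := b) (f := f) (F := F) (by linear_combination h4 + ha)
      (by linear_combination h1s + (1 / 2) * hh) (by linear_combination h2 + k1 - hF - ha) hb0 (by linear_combination hb) h0s k4 f2 F1 F2 k3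
    have e5 := g_super (a := a) (b := b) ha0 hb0 (by linear_combination h5 + hh + ha)
    rw [hgb] at e5
    have y1 : y ≤ 55061 / 100000 := by linear_combination h1s + h4 + (1 / 2) * hh + k1 - hF + F2 + (1 / 2) * hb + (86603 / 100000) * f1
    have e6 : 1 / (1198 / 1000 : ℝ) ≤ g y :=
      le_g_of (by linear_combination h0s + h2) _ y1 (by norm_num)
    have e7 := g_sub_le (x := a) (y := y) (G := 1198 / 1000) (by norm_num) ha0 (by linear_combination h2 + h4 + ha)
      (by linear_combination h1s + h4 + (3 / 2) * hh + k6) e6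
    have e8 := g_sub_le (x := s) (y := y) (G := 1198 / 1000) (by norm_num) h0s (by linear_combination h2)
      (by linear_combination h1s + h4 + (3 / 2) * hh + k6) e6
    have e9 : y ^ 2 - a ^ 2 = (b / 2 + F) * (2 * a + (b / 2 + F)) := by rw [hya]; ring
    have e10 : y ^ 2 - s ^ 2 = (a + b / 2 + F - s) * (2 * s + (a + b / 2 + F - s)) := by
      rw [hya]; ring
    rw [e9] at e7
    rw [e10] at e8
    rw [show y - s = a + b / 2 + F - s by rw [hya]] at e1
    linear_combination -k2 + e1 + e2 + e3 + e4 + e5 + e7 + e8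
  · -- large angles
    have f1 := gb_chord hb hb1
    have f2 := gb_tan hb1
    rw [← hf] at f1 f2
    have e4 := u3_poly1 (s := s) (a := a) (b := b) (f := f) (F := F) (by linear_combination h4 + ha) (by linear_combination h3 - ha)
      (by linear_combination h1s + (1 / 2) * hh) (by linear_combination h2 + k1 - hF - ha) (by linear_combination h5 + hh + ha) (by linear_combination hb) (by linear_combination hb1) h0s k4 f1 f2 F1 F2 k3
    have e5 := g_le_par' (x := a + b) (62 / 100) (25 / 31) (3844 / 10000) (by norm_num)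
      (by norm_num) (by norm_num) (by linear_combination (1 / 2) * h0s + hb0 + h3 - ha) (by linear_combination h5 + hh + ha)
    have e6 := g_le_par' (x := a) (94 / 100) (25 / 47) (8836 / 10000) (by norm_num)
      (by norm_num) (by norm_num) ha0 (by linear_combination hb0 + h5 + hh + ha)
    have e7 := g_le_par' (x := s) (92 / 100) (25 / 46) (8464 / 10000) (by norm_num)
      (by norm_num) (by norm_num) h0s (by linear_combination h1s + (1 / 2) * hh)
    have f3 := f_sq_large k4 k5 k3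
    have y1 := y_le_large hb hb1 f3 F2 (by linear_combination h1s + h4 + (1 / 2) * hh + ha) (by linear_combination h5 + hh + ha) hya
    have e8 : (67 / 100 : ℝ) ≤ g y := le_g_of (by linear_combination h0s + h2) _ y1 (by norm_num)
    have e9 := par_le_g (x := y) (67 / 100) 1 (by norm_num) e8 (g_le_one y)
      (pow_le_one₀ (by linear_combination h0s + h2) (by linear_combination h1s + h4 + (3 / 2) * hh + k6))
    rw [div_le_iff₀ (by norm_num)] at e9
    rw [← hya] at e4
    linear_combination -k2 + e1 + e2 + e3 + e4 + e5 + e6 + 2 * e7 + (400 / 167) * e9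

/-- The polynomial inequality for `z1 ≥ 2 h0`. -/
theorem u3_poly3 {s a b f F : ℝ} (c1 : 0 ≤ s - a) (c3 : 0 ≤ 433015 / 1000000 - s)
    (c4 : 0 ≤ a + b / 2 + F - s) (c5 : 0 ≤ a + b - 86602 / 100000)
    (c6 : 0 ≤ b - 433 / 1000) (c7 : 0 ≤ 1 / 2 - b) (hf : 0 ≤ f)
    (hf1 : f ≤ 9861 / 100000 + (b - 433 / 1000) * (528 / 1000))
    (hf2 : 1339 / 10000 + (b - 1 / 2) * (5775 / 10000) ≤ f)
    (hF1 : 86602 / 100000 * f ≤ F) (hF2 : F ≤ 86603 / 100000 * f)
    (heq : b ^ 2 = 2 * f - f ^ 2) :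
    0 ≤ (142 / 100) * (a + b / 2 + F - s) - (1155 / 1000) * (a + b / 2 + F - s) ^ 2
      + 86602 / 100000 * b - (3 / 2) * f - (5125 / 10000) * (s - a) * a
      + 4 * (a + b - 86603 / 100000) - 1 / 2
      - (1 - a ^ 2 + 837225 / 1000000) * (100 / 183)
      - (1 - s ^ 2 + 837225 / 1000000) * (200 / 183)
      + (1 - (a + b / 2 + F) ^ 2 + 414 / 1000) * (400 / 129) := by
  have e1 := sub_nonneg.2 hf1
  have e2 := sub_nonneg.2 hf2
  have e3 := sub_nonneg.2 hF1
  have e4 := sub_nonneg.2 hF2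
  linear_combination (2273 / 36600) * (mul_nonneg c1 c3) + (3354111 / 1049200) * (mul_nonneg c1 c5) +
    (11500 / 7869) * (mul_nonneg c3 c5) + (420833750989 / 732000000000) * (mul_nonneg c3 c7) +
    (158953752860527 / 31476000000000) * (mul_nonneg c5 c7) + (86603 / 16125) * (mul_nonneg e1 c5) +
    (117482134836676763888278447 / 19357628497122086796000000) * (mul_nonneg e1 e2) + (20005293 / 10000000) * (mul_nonneg e2 c1) +
    (19005815745759602690455892107 / 88722463945142897815000000000) * (mul_nonneg e2 c7) +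
    (27712749799 / 5160652998) * (mul_nonneg e2 e4) + (669152944631 / 344043533200) * (mul_nonneg e3 e4) +
    (835283569 / 1032130599600) * (mul_nonneg e4 c1) + (477011393729 / 206426119920) * (mul_nonneg e4 c4) +
    (800 / 129) * (mul_nonneg e4 c5) + (10242126710845021340529240890867 / 2129339134683429547560000000000) * (mul_nonneg hf c7) +
    (484634829419898977546423511803 / 5323347836708573868900000000000) * c1 + (61080932699979994191967069 / 1064669567341714773780000000) * c4 +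
    (276534112231 / 491812500000) * c5 + (1573182316982879112450185539699073 / 495257814546726450132382260000000) * hF2 - (9282532104577811926152320011793 / 3226271416187014466000000000000) * heq

theorem gb_chord2 {b : ℝ} (hb : 433 / 1000 ≤ b) (hb1 : b ≤ 1 / 2) :
    1 - g b ≤ 9861 / 100000 + (b - 433 / 1000) * (528 / 1000) := by
  have : 1 - (9861 / 100000 + (b - 433 / 1000) * (528 / 1000)) ≤ g b := by
    unfold g
    apply Real.le_sqrt_of_sq_le
    linear_combination (19981 / 15625) * (mul_nonneg (sub_nonneg.2 hb) (sub_nonneg.2 hb1)) +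
      (1479 / 7812500) * hb
  linear_combination this

/-- The arc near its end. -/
theorem g_end {x q e : ℝ} (hq0 : 995 / 1000 ≤ q) (hq1 : q ≤ 1) (he : 0 ≤ e) (he1 : e ≤ 67 / 1000)
    (hx : x = q - e) (hx1 : 93295 / 100000 ≤ x) : g q + 4 * e ≤ g x := by
  have e1 := g_sq (r := q) (by linear_combination (399 / 200) * hq1 + (mul_nonneg (sub_nonneg.mpr hq0) (sub_nonneg.mpr hq1)))
  have e2 := g_sq (r := x) (by linear_combination (sq_nonneg (g q)) + (1923 / 1000) * he + (199 / 100) * hx + e1 +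
    2 * (mul_nonneg (sub_nonneg.mpr hq0) (sub_nonneg.mpr he)) + 2 * (mul_nonneg (sub_nonneg.mpr hq0) (sub_nonneg.mpr (le_of_eq hx))) +
    (mul_nonneg (sub_nonneg.mpr he) (sub_nonneg.mpr he1)) + 2 * (mul_nonneg (sub_nonneg.mpr he) (sub_nonneg.mpr (ge_of_eq hx))) +
    (mul_nonneg (sub_nonneg.mpr (ge_of_eq hx)) (sub_nonneg.mpr (le_of_eq hx))))
  have e3 := g_anti (a := x) (b := q) (by linear_combination hq0 + he1 - hx) (by linear_combination he + hx)
  have e4 : g q ≤ 1 / 10 := by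
    unfold g
    apply Real.sqrt_le_iff.2
    constructor
    · norm_num
    · linear_combination (199 / 100) * hq0 + (mul_nonneg (sub_nonneg.mpr hq0) (sub_nonneg.mpr hq0))
  have e5 : g x ≤ 3601 / 10000 := by
    unfold g
    apply Real.sqrt_le_iff.2
    constructor
    · norm_num
    · linear_combination -(67 / 500) * hx + (232 / 125) * hx1 + (mul_nonneg (sub_nonneg.mpr hq0) (sub_nonneg.mpr hq0)) +
      2 * (mul_nonneg (sub_nonneg.mpr hq0) (sub_nonneg.mpr he1)) + 2 * (mul_nonneg (sub_nonneg.mpr hq0) (sub_nonneg.mpr (ge_of_eq hx))) +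
      2 * (mul_nonneg (sub_nonneg.mpr he) (sub_nonneg.mpr (le_of_eq hx))) + (mul_nonneg (sub_nonneg.mpr he1) (sub_nonneg.mpr he1)) +
      (mul_nonneg (sub_nonneg.mpr (le_of_eq hx)) (sub_nonneg.mpr (le_of_eq hx)))
  have e6 : (g x - g q) * (g x + g q) = e * (2 * q - e) := by
    rw [hx] at e2 ⊢
    linear_combination e2 - e1
  have e7 := g_nonneg q
  nlinarith [mul_nonneg (sub_nonneg.2 e3) (by linear_combination e4 + e5 : (0 : ℝ) ≤ 4602 / 10000 - (g x + g q)),
    mul_nonneg he (by linear_combination 2 * hq0 + he1 : (0 : ℝ) ≤ (2 * q - e) - 1923 / 1000)]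

/-- The other side. -/
theorem ang_q {b p : ℝ} (hb0 : 0 ≤ b) (hb1 : b ≤ 1 / 2) (hp : p = h0 * g b - b / 2) :
    g (p + b) = g b / 2 - h0 * b ∧ p + b ≤ 1 := by
  have hq := h0_sq
  have hp0 := h0_pos
  have gb := g_sq (r := b) (by linear_combination (1 / 2) * hb1 + (mul_nonneg (sub_nonneg.mpr hb0) (sub_nonneg.mpr hb1)))
  have gb2 : h0 ≤ g b := by
    have : h0 ^ 2 ≤ g b ^ 2 := by linear_combination (1 / 2) * hb1 + hq - gb + (mul_nonneg (sub_nonneg.mpr hb0) (sub_nonneg.mpr hb1))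
    exact abs_le_of_sq_le_sq' this (g_nonneg b) |>.2
  have k1 : 0 ≤ g b / 2 - h0 * b := by linear_combination (1 / 2) * gb2 + (mul_nonneg (sub_nonneg.mpr hb1) (sub_nonneg.mpr (le_of_lt hp0)))
  have k2 : 1 - (p + b) ^ 2 = (g b / 2 - h0 * b) ^ 2 := by
    rw [hp]
    have : b ^ 2 = 1 - g b ^ 2 := by linear_combination gb
    ring_nf
    rw [this, hq]
    ring
  refine ⟨?_, ?_⟩
  · rw [show g (p + b) = √(1 - (p + b) ^ 2) from rfl, k2, Real.sqrt_sq k1]
  · have : (p + b) ^ 2 ≤ 1 ^ 2 := by linear_combination (sq_nonneg (g b / 2 - h0 * b)) - k2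
    exact abs_le_of_sq_le_sq' this (by norm_num) |>.2

/-- The case `m ≤ c1 ≤ v`, `2 h0 ≤ z1`. -/
theorem mid_U3b {s y p b : ℝ} (h0s : 0 ≤ s) (h1s : s ≤ h0 / 2) (h2 : s ≤ y) (hb0 : 0 ≤ b)
    (hb1 : b ≤ 1 / 2) (hp : p = h0 * g b - b / 2) (h3 : h0 + s / 2 ≤ y + p) (h4 : y + p ≤ h0 + s)
    (h5 : 2 * h0 ≤ y + p + b) :
    2 * (1 + g s) - 4 * g y ≤ g (h0 + s - y) + g p + g (s / 2) - g (y + p - h0 - s / 2)
      + g b - g (y + p - h0) - g (p + b) - 1 / 2 + g (2 * h0 - y) := by
  have hh := h0_lt'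
  have hg := h0_gt'
  have hq := h0_sq
  obtain ⟨k1, k2, k3, k4, k5, k6⟩ := ang hb0 hb1 hp
  obtain ⟨k7, k8⟩ := ang_q hb0 hb1 hp
  obtain ⟨f, hf⟩ : ∃ f, f = 1 - g b := ⟨_, rfl⟩
  obtain ⟨F, hF⟩ : ∃ F, F = h0 * f := ⟨_, rfl⟩
  obtain ⟨a, ha⟩ : ∃ a, a = y + p - h0 := ⟨_, rfl⟩
  rw [← hf] at k1 k3 k4 k5
  have hya : y = a + b / 2 + F := by rw [hF]; linear_combination k1 - ha
  have hgb : g b = 1 - f := by rw [hf]; ring
  rw [hgb] at k2 k7 ⊢
  have F1 : 86602 / 100000 * f ≤ F := by rw [hF]; linear_combination -(43301 / 100000) * k3 + (1 / 2) * (mul_nonneg (sub_nonneg.mpr (sq_nonneg (b))) (sub_nonneg.mpr (le_of_lt hg))) +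
    (1 / 2) * (mul_nonneg (sub_nonneg.mpr (sq_nonneg (f))) (sub_nonneg.mpr (le_of_lt hg))) +
    (mul_nonneg (sub_nonneg.mpr h0s) (sub_nonneg.mpr (le_of_eq k3))) + (mul_nonneg (sub_nonneg.mpr h1s) (sub_nonneg.mpr (le_of_eq k3)))
  have F2 : F ≤ 86603 / 100000 * f := by rw [hF]; linear_combination (86603 / 200000) * k3 + (1 / 2) * (mul_nonneg (sub_nonneg.mpr (sq_nonneg (b))) (sub_nonneg.mpr (le_of_lt hh))) +
    (1 / 2) * (mul_nonneg (sub_nonneg.mpr (sq_nonneg (f))) (sub_nonneg.mpr (le_of_lt hh))) +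
    (mul_nonneg (sub_nonneg.mpr h0s) (sub_nonneg.mpr (ge_of_eq k3))) + (mul_nonneg (sub_nonneg.mpr h1s) (sub_nonneg.mpr (ge_of_eq k3)))
  have ha0 : 0 ≤ a := by linear_combination hb1 + h5 + hg - ha
  have e1 := g_h0_par (u := y - s) (by linear_combination h2) (by linear_combination h4 + k6)
  rw [show h0 - (y - s) = h0 + s - y by ring] at e1
  have e2 := g_sub_half (a := a) h0s h1s (by linear_combination h4 + ha) (by linear_combination (1 / 2) * h1s + hb1 + h5 + (3 / 4) * hg - ha)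
  rw [show y + p - h0 - s / 2 = a - s / 2 by rw [ha], ← ha]
  have e3 : (86602 / 100000) * b ≤ h0 * b := by linear_combination (mul_nonneg (sub_nonneg.mpr hb0) (sub_nonneg.mpr (le_of_lt hg)))
  have hb : 433 / 1000 ≤ b := by linear_combination h1s + h4 + h5 + (1 / 2) * hg
  have f1 := gb_chord2 hb hb1
  have f2 := gb_tan hb1
  rw [← hf] at f1 f2
  have e4 := u3_poly3 (s := s) (a := a) (b := b) (f := f) (F := F) (by linear_combination h4 + ha) (by linear_combination h1s + (1 / 2) * hh)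
    (by linear_combination h1s + h5 + (3 / 2) * hg + k8 + k1 - hF - ha) (by linear_combination h5 + hg - ha) (by linear_combination h1s + h4 + h5 + (1 / 2) * hg) (by linear_combination hb1) k4 f1 f2 F1 F2 k3
  have e6 := g_le_par' (x := a) (915 / 1000) (100 / 183) (837225 / 1000000) (by norm_num)
    (by norm_num) (by norm_num) ha0 (by linear_combination h1s + h4 + (1 / 2) * hh + ha)
  have e7 := g_le_par' (x := s) (915 / 1000) (100 / 183) (837225 / 1000000) (by norm_num)
    (by norm_num) (by norm_num) h0s (by linear_combination 2 * h1s + hb1 + h4 + h5)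
  have e8 : (6 / 10 : ℝ) ≤ g y := le_g_of (by linear_combination h0s + h2) (8 / 10) (by linear_combination h1s + h4 + (3 / 2) * hh + k6) (by norm_num)
  have e8' : g y ≤ 69 / 100 := by
    have : y ^ 2 ≥ (7239 / 10000) ^ 2 := by
      apply pow_le_pow_left₀ (by norm_num)
      linear_combination h5 + 2 * hg + k8
    unfold g
    apply Real.sqrt_le_iff.2
    constructor
    · norm_num
    · linear_combination this
  have e9 := par_le_g (x := y) (6 / 10) (69 / 100) (by norm_num) e8 e8'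
    (pow_le_one₀ (by linear_combination h0s + h2) (by linear_combination h1s + h4 + (3 / 2) * hh + k6))
  rw [div_le_iff₀ (by norm_num)] at e9
  have e10 := g_end (x := 2 * h0 - y) (q := p + b) (e := y + p + b - 2 * h0)
    (by linear_combination (267101 / 6250000) * h1s + (267101 / 6250000) * h4 + (267101 / 6250000) * h5 +
      (12767101 / 12500000) * hg + k1 - hF + F2 + (86603 / 100000) * f1) k8 (by linear_combination h5) (by linear_combination h1s + hb1 + h4 + (1 / 2) * hg) (by ring) (by linear_combination h1s + h4 + (1 / 2) * hg + k6)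
  rw [← hya] at e4
  linear_combination 4 * hh - k2 + 4 * ha + e1 + e2 + e3 + e4 + e6 + 2 * e7 + (400 / 129) * e9 + e10

end Pool.Agent.Strip051.Four
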