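import Pool.Agent.Strip051.Four.MidGainLow
import Pool.Agent.Strip051.Four.MidReal3

/-! # The new point between `s` and `h0`, the near corner between `h0 + s / 2` and `h0 + s` -/

namespace Pool.Agent.Strip051.Four

open Pool.Agent.StripNear Pool.Agent.StripSquare Pool.Agent.Strip051

section

variable {s t y r : ℝ}

/-- The larger of the two corners is at least `h0`. -/
theorem h0_le_max (r1 : 1 / 2 ≤ r) (r2 : r ≤ 1) : h0 ≤ max r (ext r) := by
  obtain ⟨e1, e2, e3, e4, e5⟩ := ext_facts r1 r2
  rcases le_total r (ext r) with h | h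
  · rw [max_eq_right h]
    exact h0_le_of_ext e1 e2 (by rw [e5]; exact h)
  · rw [max_eq_left h]
    exact h0_le_of_ext r1 r2 h

/-- The second probe, near corner between `h0 + s / 2` and `h0 + s`. -/
theorem mid2_c (P : Par s t) (h1 : s ≤ y) (h2 : y ≤ h0) (r1 : 1 / 2 ≤ r) (r2 : r ≤ 1)
    (hc1 : h0 + s / 2 ≤ y + min r (ext r)) :
    g (min r (ext r)) + g (h0 + s - y) - g s - 1 + 2 * g (s / 2) - g (y + min r (ext r) - h0)
      ≤ gn (j2 s) r y y := by
  have hh := h0_lt
  have hg := h0_gt
  have hs0 := P.s0
  have hs1 := P.s1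
  obtain ⟨e1, e2, e3, e4, e5⟩ := ext_facts r1 r2
  rcases le_total r (ext r) with h | h
  · rw [min_eq_left h] at hc1 ⊢
    have h3 := gain_ge (y := y) (r := r) (q := y) (C := y)
      (α := g s + 1 - g (s / 2) - g (h0 + s - y)) (z0 := h0) (β := g (s / 2))
      (j2_ok P) r1 r2 le_rfl (by linear_combination r1)
      (fun z k1 k2 => a2_touch P h1 h2 (by simpa [j2] using k1) (by simpa [j2] using k2))
      (by simp only [j2]; linear_combination h1 + h2) (by simp only [j2]; linear_combination hh + hs0) h2 (by linear_combination h2 + 2 * hc1 + hs0)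
      (by
        simp only [j2]
        rw [a2_eq2 P le_rfl (by linear_combination (1 / 2) * hs0), show h0 - (h0 + s / 2) = -(s / 2) by ring, g_neg])
    rw [show y + ext r - y = ext r by ring] at h3
    linear_combination -e3 + h3
  · rw [min_eq_right h] at hc1 ⊢
    have hr := h0_le_of_ext r1 r2 h
    have h3 := gain_ge (y := y) (r := r) (q := y) (C := h0)
      (α := 1 - g (s / 2)) (z0 := y) (β := g (y - (h0 + s)) + (g (s / 2) - g s))
      (j2_ok P) r1 r2 h2 (by linear_combination hc1 + (1 / 2) * hs0 + h)
      (fun z k1 k2 => a2_le3)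
      (by simp only [j2]; linear_combination h1) (by simp only [j2]; linear_combination h2 + hh + hs0) (by linear_combination) (by linear_combination 2 * r1)
      (by
        simp only [j2]
        rw [a2_eq1 P h1 h2])
    rw [show y + r - y = r by ring, show y - (h0 + s) = -(h0 + s - y) by ring, g_neg] at h3
    linear_combination -e3 + h3

/-- The third probe, near corner between `h0 + s / 2` and `h0 + s`, far corner below `2 h0`. -/
theorem mid3_c (P : Par s t) (h1 : s ≤ y) (h2 : y ≤ h0) (r1 : 1 / 2 ≤ r) (r2 : r ≤ 1)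
    (hc1 : h0 + s / 2 ≤ y + min r (ext r)) :
    g (ext r - r) - g (y + max r (ext r) - h0) - g (s / 2) + g s + 1
      - g (y + min r (ext r) - (h0 + s / 2)) ≤ gn (j3 s) r y y := by
  have hh := h0_lt
  have hg := h0_gt
  have hs0 := P.s0
  have hs1 := P.s1
  obtain ⟨e1, e2, e3, e4, e5⟩ := ext_facts r1 r2
  rcases le_total r (ext r) with h | h
  · rw [min_eq_left h] at hc1 ⊢
    rw [max_eq_right h]
    have h3 := gain_ge (y := y) (r := r) (q := y) (C := h0)
      (α := g (s / 2) - g s) (z0 := h0 + s / 2) (β := 1)
      (j3_ok P) r1 r2 h2 (by linear_combination hc1 + (1 / 2) * hs0)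
      (fun z k1 k2 => by
        have := a2_le1 (s := s) (z := 2 * h0 + s - z)
        rw [show 2 * h0 + s - z - (h0 + s) = -(z - h0) by ring, g_neg] at this
        exact this)
      (by simp only [j3, mirP, j2]; linear_combination hh + (1 / 2) * hs0) (by simp only [j3, mirP, j2]; linear_combination (1 / 2) * h1 + (1 / 2) * h2 + (1 / 2) * hg)
      (by linear_combination h2 + (1 / 2) * hs0) (by linear_combination r1 + hc1)
      (by
        simp only [j3, mirP, j2]
        rw [show 2 * h0 + s - (h0 + s / 2) = h0 + s / 2 by ring,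
          a2_eq2 P (by linear_combination (1 / 2) * hs0) le_rfl, sub_self, g_zero])
    linear_combination h3
  · rw [min_eq_right h] at hc1 ⊢
    rw [max_eq_left h]
    have hr := h0_le_of_ext r1 r2 h
    have h3 := gain_ge (y := y) (r := r) (q := y) (C := h0 + s / 2)
      (α := 0) (z0 := h0) (β := g s + (1 - g (s / 2)))
      (j3_ok P) r1 r2 (by linear_combination h2 + (1 / 2) * hs0) (by linear_combination hc1 + h)
      (fun z k1 k2 => by
        have := a2_le2 (s := s) (z := 2 * h0 + s - z)
        rw [show 2 * h0 + s - z - (h0 + s / 2) = -(z - (h0 + s / 2)) by ring, g_neg] at this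
        rw [add_zero]
        exact this)
      (by simp only [j3, mirP, j2]; linear_combination hh) (by simp only [j3, mirP, j2]; linear_combination hg)
      (by linear_combination h2) (by linear_combination h1 + 2 * r1 + hh + hs0)
      (by
        simp only [j3, mirP, j2]
        rw [show 2 * h0 + s - h0 = h0 + s by ring, a2_eq3 P (by linear_combination (1 / 2) * hs0) le_rfl,
          add_sub_cancel_left])
    linear_combination h3

/-- The third probe, near corner between `h0 + s / 2` and `h0 + s`, far corner above `2 h0`. -/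
theorem mid3_d (P : Par s t) (h1 : s ≤ y) (h2 : y ≤ h0) (r1 : 1 / 2 ≤ r) (r2 : r ≤ 1)
    (hc1 : h0 + s / 2 ≤ y + min r (ext r)) (hc2 : 2 * h0 ≤ y + max r (ext r)) :
    g (min r (ext r)) + g (2 * h0 - y) + g s + 1 / 2 - g (s / 2)
      - g (y + min r (ext r) - (h0 + s / 2)) ≤ gn (j3 s) r y y := by
  have hh := h0_lt
  have hg := h0_gt
  have hs0 := P.s0
  have hs1 := P.s1
  obtain ⟨e1, e2, e3, e4, e5⟩ := ext_facts r1 r2
  have hy : 2 * h0 - 1 ≤ y := by
    have : max r (ext r) ≤ 1 := max_le r2 e2
    linear_combination hc2 + this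
  rcases le_total r (ext r) with h | h
  · rw [min_eq_left h] at hc1 ⊢
    rw [max_eq_right h] at hc2
    have h3 := gain_ge (y := y) (r := r) (q := y) (C := y)
      (α := 1 / 2 + g (s / 2) - g s - g (2 * h0 - y)) (z0 := h0 + s / 2) (β := 1)
      (j3_ok P) r1 r2 le_rfl (by linear_combination r1)
      (fun z k1 k2 => by
        simp only [j3, mirP, j2] at k1 k2
        have k3 := a2_le1 (s := s) (z := 2 * h0 + s - z)
        rw [show 2 * h0 + s - z - (h0 + s) = -(z - h0) by ring, g_neg] at k3
        have k4 := arc_sub (a := y) (b := h0) (x := z) (y := 2 * h0) h2 (by linear_combination k2)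
          (by linear_combination hg + k1) (by linear_combination hc2 + e2)
        rw [show 2 * h0 - h0 = h0 by ring, g_h0] at k4
        simp only [j3, mirP, j2]
        linear_combination k3 + k4)
      (by simp only [j3, mirP, j2]; linear_combination hh + (1 / 2) * hs0) (by simp only [j3, mirP, j2]; linear_combination (1 / 2) * h1 + (1 / 2) * h2 + (1 / 2) * hg)
      (by linear_combination h2 + (1 / 2) * hs0) (by linear_combination r1 + hc1)
      (by
        simp only [j3, mirP, j2]
        rw [show 2 * h0 + s - (h0 + s / 2) = h0 + s / 2 by ring,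
          a2_eq2 P (by linear_combination (1 / 2) * hs0) le_rfl, sub_self, g_zero])
    rw [show y + ext r - y = ext r by ring] at h3
    linear_combination -e3 + h3
  · rw [min_eq_right h] at hc1 ⊢
    rw [max_eq_left h] at hc2
    have hr := h0_le_of_ext r1 r2 h
    have h3 := gain_ge (y := y) (r := r) (q := y) (C := h0 + s / 2)
      (α := 0) (z0 := y) (β := g (2 * h0 - y) + (g s + 1 / 2 - g (s / 2)))
      (j3_ok P) r1 r2 (by linear_combination h2 + (1 / 2) * hs0) (by linear_combination (1 / 2) * h1 + (1 / 2) * r1 + (1 / 2) * hc2)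
      (fun z k1 k2 => by
        have := a2_le2 (s := s) (z := 2 * h0 + s - z)
        rw [show 2 * h0 + s - z - (h0 + s / 2) = -(z - (h0 + s / 2)) by ring, g_neg] at this
        rw [add_zero]
        exact this)
      (by simp only [j3, mirP, j2]; linear_combination r2 + hc2) (by simp only [j3, mirP, j2]; linear_combination h2 + hg)
      (by linear_combination) (by linear_combination 2 * r1)
      (by
        simp only [j3, mirP, j2]
        rw [a2_eq4 P (by linear_combination h2) (by linear_combination r2 + hc2), show 2 * h0 + s - y - s = 2 * h0 - y by ring])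
    rw [show y + r - y = r by ring] at h3
    linear_combination -e3 + h3

/-- The near corner is between `h0 + s / 2` and `h0 + s`. -/
theorem mid_mid (P : Par s t) (h1 : s ≤ y) (h2 : y ≤ h0) (r1 : 1 / 2 ≤ r) (r2 : r ≤ 1)
    (hc : h0 + s / 2 ≤ y + min r (ext r)) (hc' : y + min r (ext r) ≤ h0 + s) :
    1 + g s - 2 * g y ≤ (gn (j2 s) r y y + gn (j3 s) r y y) / 2 := by
  obtain ⟨p, b, hp, hpb, hb0, hb1, hpe, hgb, hp1⟩ := corner r1 r2
  have k1 := mid2_c P h1 h2 r1 r2 hc
  rw [← hp] at hc hc' k1
  rcases le_total (y + max r (ext r)) (2 * h0) with h | h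
  · have k2 := mid3_c P h1 h2 r1 r2 (by rw [← hp]; exact hc)
    rw [← hp, ← hpb, hgb] at k2
    rw [← hpb] at h
    have k3 := mid_U3a P.s0 P.s1 h1 hb0 hb1 hpe hc hc' (by linear_combination h)
    rw [← add_assoc] at k2
    rw [show y + p - (h0 + s / 2) = y + p - h0 - s / 2 by ring] at k2
    linear_combination (1 / 2) * k1 + (1 / 2) * k2 + (1 / 2) * k3
  · have k2 := mid3_d P h1 h2 r1 r2 (by rw [← hp]; exact hc) h
    rw [← hp] at k2
    rw [← hpb] at h
    have k3 := mid_U3b P.s0 P.s1 h1 hb0 hb1 hpe hc hc' (by linear_combination h)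
    have k4 : g b = g p + g (p + b) := by
      obtain ⟨e1, e2, e3, e4, e5⟩ := ext_facts r1 r2
      rw [← hgb, e3]
      rcases le_total r (ext r) with h | h
      · rw [hpb, hp, min_eq_left h, max_eq_right h]
        ring
      · rw [hpb, hp, min_eq_right h, max_eq_left h]
    rw [show y + p - (h0 + s / 2) = y + p - h0 - s / 2 by ring] at k2
    linear_combination (1 / 2) * k1 + (1 / 2) * k2 + (1 / 2) * k3 + (1 / 2) * k4

end

end Pool.Agent.Strip051.Four
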