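import Pool.Agent.Strip051.Four.MidReal3

set_option maxHeartbeats 4000000

/-! # Pure real inequalities for the case `s ≤ y ≤ h0`, virtual centre above `h0 + s` -/

namespace Pool.Agent.Strip051.Four

open Pool.Agent.StripNear Pool.Agent.StripSquare Pool.Agent.Strip051

theorem gh2_sq : g (h0 / 2) ^ 2 = 13 / 16 := by
  have hq := h0_sq
  rw [g_sq (by nlinarith)]
  nlinarith

theorem gh2_gt : (9013 / 10000 : ℝ) < g (h0 / 2) := by
  have := gh2_sq
  have := g_nonneg (h0 / 2)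
  nlinarith

theorem gh2_lt : g (h0 / 2) < (9014 / 10000 : ℝ) := by
  have := gh2_sq
  have := g_nonneg (h0 / 2)
  nlinarith

theorem four_gap {y : ℝ} (h1 : h0 / 2 ≤ y) (h2 : y ≤ h0) :
    1 / 2 + g (h0 / 2) + (5 / 2) * ((y - h0 / 2) * (h0 - y)) ≤ g (3 * h0 / 2 - y) + g y := by
  have hh := h0_lt'
  have hg := h0_gt'
  have hq := h0_sq
  have k1 := gh2_sq
  have k2 := gh2_gt
  have k3 := gh2_lt
  obtain ⟨κ, hκ⟩ : ∃ κ, κ = g (h0 / 2) := ⟨_, rfl⟩
  rw [← hκ] at k1 k2 k3 ⊢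
  obtain ⟨X, hX⟩ : ∃ X, X = g (3 * h0 / 2 - y) := ⟨_, rfl⟩
  obtain ⟨Y, hY⟩ : ∃ Y, Y = g y := ⟨_, rfl⟩
  have x0 : 0 ≤ X := by rw [hX]; exact g_nonneg _
  have y0 : 0 ≤ Y := by rw [hY]; exact g_nonneg _
  have x1 : X ^ 2 = 1 - (3 * h0 / 2 - y) ^ 2 := by
    rw [hX]
    exact g_sq (pow_le_one₀ (by linarith) (by linarith))
  have y1 : Y ^ 2 = 1 - y ^ 2 := by
    rw [hY]
    exact g_sq (pow_le_one₀ (by linarith) (by linarith))
  rw [← hX, ← hY]
  obtain ⟨E, hE⟩ : ∃ E, E = (y - h0 / 2) * (h0 - y) := ⟨_, rfl⟩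
  rw [← hE]
  have E0 : 0 ≤ E := by
    rw [hE]
    exact mul_nonneg (by linarith) (by linarith)
  have E1 : E ≤ 3 / 64 := by
    rw [hE]
    nlinarith [sq_nonneg (y - 3 * h0 / 4)]
  have s1 : X ^ 2 + Y ^ 2 = 17 / 16 + 2 * E := by
    rw [x1, y1, hE]
    nlinarith
  have s2 : X ^ 2 * Y ^ 2 = 13 / 64 + (11 / 4) * E + E ^ 2 := by
    have e1 : y * (3 * h0 / 2 - y) = E + 3 / 8 := by
      rw [hE]
      nlinarith
    have e2 : X ^ 2 * Y ^ 2 = 1 - (2 - (X ^ 2 + Y ^ 2)) + (y * (3 * h0 / 2 - y)) ^ 2 := by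
      rw [x1, y1]
      ring
    rw [e2, e1, s1]
    ring
  have s3 : κ / 2 + (271 / 100) * E ≤ X * Y := by
    apply abs_le_of_sq_le_sq' _ (mul_nonneg x0 y0) |>.2
    rw [mul_pow, s2]
    have : κ / 2 + 271 / 100 * E = κ / 2 + 271 / 100 * E := rfl
    nlinarith [mul_nonneg E0 (sub_nonneg.2 E1), mul_nonneg E0 (sub_nonneg.2 k3.le)]
  have s4 : (1 / 2 + κ + 5 / 2 * E) ^ 2 ≤ (X + Y) ^ 2 := by
    nlinarith [mul_nonneg E0 (sub_nonneg.2 E1), mul_nonneg E0 (sub_nonneg.2 k3.le)]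
  exact abs_le_of_sq_le_sq' s4 (add_nonneg x0 y0) |>.2

theorem v_poly {m b f : ℝ} (h1 : b ≤ 2 * (86603 / 100000 - m)) (h2 : 0 ≤ b) (h3 : b ≤ 434 / 1000)
    (h5 : f ≤ (527 / 1000) * b ^ 2) (h6 : 0 ≤ f) (h7 : 0 ≤ m) (h8 : m ≤ 86603 / 100000) :
    0 ≤ (2 - f) * (5 / 9 + (25 / 9) * m ^ 2 - (25 / 36) * b ^ 2)
      + 3 * (13 / 10 - (927 / 1000) * (m + 86603 / 100000 * f)) + (9 / 16) * f
      - 8 * (86603 / 100000) * m - 3 * f := by
  have e1 : 0 ≤ (5011 / 1000) - (971 / 100) * m + (555 / 100) * m ^ 2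
      - b ^ 2 * (424 / 100 + (147 / 100) * m ^ 2) := by
    rcases le_total m (66 / 100) with h | h
    · have e2 : b ^ 2 ≤ (434 / 1000) ^ 2 := pow_le_pow_left₀ h2 h3 2
      have e3 := mul_le_mul_of_nonneg_right e2
        (by positivity : 0 ≤ 424 / 100 + (147 / 100) * m ^ 2)
      nlinarith [mul_nonneg h7 (sub_nonneg.2 h)]
    · have e2 : b ^ 2 ≤ (2 * (86603 / 100000 - m)) ^ 2 := pow_le_pow_left₀ h2 h1 2
      have e3 : b ^ 2 * (424 / 100 + (147 / 100) * m ^ 2) ≤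
          (2 * (86603 / 100000 - m)) ^ 2 * (5343 / 1000) :=
        mul_le_mul e2 (by nlinarith) (by positivity) (by positivity)
      nlinarith [mul_nonneg (sub_nonneg.2 h) (sub_nonneg.2 h8)]
  have e4 : f * m ^ 2 ≤ (527 / 1000) * b ^ 2 * m ^ 2 := mul_le_mul_of_nonneg_right h5 (sq_nonneg _)
  have e5 : 0 ≤ f * b ^ 2 := mul_nonneg h6 (sq_nonneg _)
  nlinarith [sq_nonneg m]
theorem g_lin_large {y : ℝ} (h1 : 433 / 1000 ≤ y) (h2 : y ≤ 86603 / 100000) :
    13 / 10 - (927 / 1000) * y ≤ g y := by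
  unfold g
  apply Real.le_sqrt_of_sq_le
  nlinarith [mul_nonneg (sub_nonneg.2 h1) (sub_nonneg.2 h2)]

/-- The product of two arcs. -/
theorem arc_mul_le {a b r X : ℝ} (hb : 0 ≤ b) (ha : 0 ≤ a) (hab : a + b < 1)
    (hX : X = 1 - a * (a + b)) (hr : r * X ≤ 1) :
    g a * g (a + b) ≤ X - r * b ^ 2 / 2 := by
  have e1 := g_sq (r := a) (by nlinarith)
  have e2 := g_sq (r := a + b) (by nlinarith)
  have e3 : (g a * g (a + b)) ^ 2 = X ^ 2 - b ^ 2 := by
    rw [mul_pow, e1, e2, hX]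
    ring
  have e4 : 0 < X := by rw [hX]; nlinarith
  have e5 : b ^ 2 ≤ X ^ 2 := by nlinarith [sq_nonneg (g a * g (a + b))]
  have e6 : 0 ≤ X - r * b ^ 2 / 2 := by
    have e7 : 0 ≤ X * (X - r * b ^ 2 / 2) := by
      nlinarith [mul_nonneg (sub_nonneg.2 hr) (sq_nonneg b)]
    exact nonneg_of_mul_nonneg_right e7 e4
  apply abs_le_of_sq_le_sq' _ e6 |>.2
  rw [e3]
  nlinarith [mul_nonneg (sub_nonneg.2 hr) (sq_nonneg b), sq_nonneg (r * b ^ 2)]

theorem v_bound {a b f F y : ℝ} (ha : h0 / 2 ≤ a) (hab : a + b ≤ h0) (hb : 0 ≤ b) (hf : 0 ≤ f)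
    (hf1 : f ≤ (527 / 1000) * b ^ 2) (heq : b ^ 2 = 2 * f - f ^ 2) (hF : F = h0 * f)
    (hy : y = a + b / 2 + F) (hy1 : y ≤ h0) : g a + g (a + b) ≤ 2 * g y + (3 / 4) * f := by
  have hh := h0_lt'
  have hg := h0_gt'
  have hq := h0_sq
  have F0 : 0 ≤ F := by rw [hF]; exact mul_nonneg (by linarith) hf
  have F1 : F ≤ 86603 / 100000 * f := by rw [hF]; exact mul_le_mul_of_nonneg_right hh.le hf
  have F2 : F ^ 2 = (3 / 4) * f ^ 2 := by rw [hF, mul_pow, hq]
  obtain ⟨m, hm⟩ : ∃ m, m = a + b / 2 := ⟨_, rfl⟩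
  have ham : a = m - b / 2 := by rw [hm]; ring
  obtain ⟨r, hr⟩ : ∃ r, r = 5 / 9 + (25 / 9) * m ^ 2 - (25 / 36) * b ^ 2 := ⟨_, rfl⟩
  have e1 := arc_mul_le (a := a) (b := b) (r := r) (X := 1 - a * (a + b)) hb (by linarith)
    (by linarith) rfl (by
      rw [hr, ham]
      nlinarith [sq_nonneg (1 - (5 / 3) * (1 - (m - b / 2) * (m - b / 2 + b)))])
  have e2 := g_sq (r := a) (pow_le_one₀ (by linarith) (by linarith))
  have e3 := g_sq (r := a + b) (pow_le_one₀ (by linarith) (by linarith))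
  have e4 := g_sq (r := y) (pow_le_one₀ (by linarith) (by linarith))
  have e5 := g_lin_large (y := y) (by linarith) (by linarith)
  have e6 := v_poly (m := m) (b := b) (f := f) (by linarith) hb (by linarith) hf1 hf
    (by linarith) (by linarith)
  have e7 : (g a + g (a + b)) ^ 2 ≤ (2 * g y + (3 / 4) * f) ^ 2 := by
    have l1 : (g a + g (a + b)) ^ 2 ≤ 4 - 4 * m ^ 2 - r * b ^ 2 := by
      have : (g a + g (a + b)) ^ 2 = 1 - a ^ 2 + (1 - (a + b) ^ 2) + 2 * (g a * g (a + b)) := by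
        rw [← e2, ← e3]; ring
      rw [this]
      have : a ^ 2 + (a + b) ^ 2 + 2 * (a * (a + b)) = 4 * m ^ 2 := by rw [ham]; ring
      linarith
    have l2 : (2 * g y + (3 / 4) * f) ^ 2 = 4 * (1 - y ^ 2) + 3 * (f * g y) + (9 / 16) * f ^ 2 := by
      rw [← e4]; ring
    have l3 : f * (13 / 10 - (927 / 1000) * (m + 86603 / 100000 * f)) ≤ f * g y := by
      apply mul_le_mul_of_nonneg_left _ hf
      have : y = m + F := by rw [hy, hm]
      linarith
    have l4 : y ^ 2 = m ^ 2 + 2 * (m * F) + (3 / 4) * f ^ 2 := by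
      rw [hy, ← hm, ← F2]; ring
    have l5 : m * F ≤ m * (86603 / 100000 * f) := mul_le_mul_of_nonneg_left F1 (by linarith)
    have l6 := mul_nonneg hf e6
    have l7 : r * b ^ 2 = f * ((2 - f) * (5 / 9 + (25 / 9) * m ^ 2 - (25 / 36) * b ^ 2)) := by
      rw [hr]
      linear_combination (5 / 9 + (25 / 9) * m ^ 2 - (25 / 36) * b ^ 2) * heq
    rw [l2, l4]
    rw [l7] at l1
    linarith
  exact abs_le_of_sq_le_sq' e7 (by have := g_nonneg y; linarith) |>.2

theorem e_poly {b f F : ℝ} (hb : 0 ≤ b) (hb1 : b ≤ 434 / 1000) (hf : 0 ≤ f)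
    (hf1 : f ≤ (527 / 1000) * b ^ 2) (hF : 0 ≤ F) (hF1 : F ≤ 86603 / 100000 * f) :
    (7 / 4) * f ≤ 5 * ((b / 2 - F) * (433 / 1000 - (b / 2 - F))) := by
  have e1 : b / 2 - (457 / 1000) * b ^ 2 ≤ b / 2 - F := by linarith
  have e2 : b / 2 - F ≤ 217 / 1000 := by linarith
  have e3 : 0 ≤ (b / 2 - F - (b / 2 - (457 / 1000) * b ^ 2))
      * (433 / 1000 - (b / 2 - F) - (b / 2 - (457 / 1000) * b ^ 2)) := by
    apply mul_nonneg (by linarith)
    nlinarith
  have e4 : (925 / 1000) * b ^ 2 ≤ 5 * ((b / 2 - (457 / 1000) * b ^ 2)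
      * (433 / 1000 - (b / 2 - (457 / 1000) * b ^ 2))) := by
    have : 0 ≤ b * (5 * ((1 / 2 - (457 / 1000) * b)
      * (433 / 1000 - (b / 2 - (457 / 1000) * b ^ 2))) - (925 / 1000) * b) := by
      apply mul_nonneg hb
      nlinarith [mul_nonneg hb (sub_nonneg.2 hb1), mul_nonneg (mul_nonneg hb hb) (sub_nonneg.2 hb1)]
    linarith
  nlinarith

theorem F_le_half {b f F : ℝ} (hb : 0 ≤ b) (hb1 : b ≤ 434 / 1000)
    (hf1 : f ≤ (527 / 1000) * b ^ 2) (hF1 : F ≤ 86603 / 100000 * f) : F ≤ b / 2 := by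
  have : b ^ 2 ≤ (434 / 1000) * b := by
    rw [sq]
    exact mul_le_mul_of_nonneg_right hb1 hb
  linarith

theorem f_sq_mid {b f : ℝ} (h1 : 0 ≤ f) (h2 : f ≤ 1 / 10) (h3 : b ^ 2 = 2 * f - f ^ 2) :
    f ≤ (527 / 1000) * b ^ 2 := by
  nlinarith

theorem e_quad {y h b F : ℝ} (h0 : 0 ≤ F) (h1 : 0 ≤ y - h / 2 - (b / 2 + F))
    (h2 : 0 ≤ h - y - (b / 2 - F)) :
    (b / 2 - F) * (h / 2 - (b / 2 - F)) ≤ (y - h / 2) * (h - y) := by
  nlinarith [mul_nonneg h1 h2, mul_nonneg h0 h2]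

/-- The case `v ≤ c1`, `z1 ≤ 2 h0`. -/
theorem mid_U1' {s y p b : ℝ} (h0s : 0 ≤ s) (h1s : s ≤ h0 / 2) (hb0 : 0 ≤ b)
    (hb1 : b ≤ 1 / 2) (hp : p = h0 * g b - b / 2) (h3 : h0 + s ≤ y + p) (h4 : y ≤ h0)
    (h5 : y + p + b ≤ 2 * h0) :
    2 * (1 + g s) - 4 * g y ≤ 2 * g (h0 + s - y) + g b - g (y + p + b - h0) - g (y + p - h0) := by
  have hh := h0_lt'
  have hg := h0_gt'
  have hq := h0_sq
  obtain ⟨k1, k2, k3, k4, k5, k6⟩ := ang hb0 hb1 hp
  have hw : 0 ≤ b / 2 + h0 * (1 - g b) := by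
    have := mul_nonneg (by linarith : 0 ≤ h0) k4
    linarith
  rcases le_total (y + p - h0) (h0 / 2) with ha | ha
  · have e1 := mid_U3a (s := y + p - h0) (y := y) (p := p) (b := b) (by linarith) ha
      (by linarith) hb0 hb1 hp (by linarith) (by linarith) h5
    rw [show h0 + (y + p - h0) - y = p by ring,
      show y + p - h0 - (y + p - h0) / 2 = (y + p - h0) / 2 by ring] at e1
    have e2 := four (x := s) (y := h0 + s - y) (z := y + p - h0) (w := p) (by linarith)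
      (by linarith) (by linarith) (by linarith) (by ring)
    linarith
  · obtain ⟨a, hya⟩ : ∃ a, a = y + p - h0 := ⟨_, rfl⟩
    obtain ⟨f, hf⟩ : ∃ f, f = 1 - g b := ⟨_, rfl⟩
    obtain ⟨F, hF⟩ : ∃ F, F = h0 * f := ⟨_, rfl⟩
    rw [← hf] at k1 k3 k4 k5
    rw [← hF] at k1
    have hb2 : b ≤ 434 / 1000 := by linarith
    have F0 : 0 ≤ F := by rw [hF]; exact mul_nonneg (by linarith) k4
    have F1 : F ≤ 86603 / 100000 * f := by rw [hF]; exact mul_le_mul_of_nonneg_right hh.le k4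
    have f1 : f ≤ (527 / 1000) * b ^ 2 := by
      have : f ≤ 1 / 10 := by
        rw [hf]
        have : (9 / 10 : ℝ) ≤ g b := le_g_of hb0 _ hb2 (by norm_num)
        linarith
      exact f_sq_mid k4 this k3
    have e1 := v_bound (a := a) (b := b) (f := f) (F := F) (y := y) (by linarith) (by linarith)
      hb0 k4 f1 k3 hF (by linarith) h4
    have e2 := four_gap (y := y) (by linarith) h4
    have e3 := e_poly hb0 hb2 k4 f1 F0 F1
    have e4 := e_quad (y := y) (h := h0) (b := b) F0 (by linarith) (by linarith)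
    have e5 : (b / 2 - F) * (433 / 1000 - (b / 2 - F)) ≤
        (b / 2 - F) * (h0 / 2 - (b / 2 - F)) := by
      have := F_le_half hb0 hb2 f1 F1
      exact mul_le_mul_of_nonneg_left (by linarith) (by linarith)
    have e6 := four (x := s) (y := h0 + s - y) (z := h0 / 2) (w := 3 * h0 / 2 - y) (by linarith)
      (by linarith) (by linarith) (by linarith) (by ring)
    rw [show y + p + b - h0 = a + b by rw [hya]; ring, show y + p - h0 = a by rw [hya]]
    linarith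

theorem gb_tan2 {b : ℝ} (hb1 : b ≤ 1 / 2) :
    986 / 10000 + (b - 433 / 1000) * (4804 / 10000) ≤ 1 - g b := by
  have : g b ≤ 1 - (986 / 10000 + (b - 433 / 1000) * (4804 / 10000)) := by
    unfold g
    apply Real.sqrt_le_iff.2
    constructor
    · linarith
    · nlinarith [sq_nonneg (b - 433 / 1000)]
  linarith

theorem u2_poly {b f F e : ℝ} (hb : 0 ≤ b) (hb1 : b ≤ 1 / 2) (hf1 : f ≤ (268 / 1000) * b)
    (hF : 0 ≤ F) (he1 : e ≤ 1312 / 10000) (he2 : e ≤ b / 2) :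
    0 ≤ (1 - f + 2 * (86602 / 100000) * b) * (186 / 100 - (6295 / 1000) * e)
      - 2 * (86603 / 100000 - b / 2 - F) + e := by
  have k1 : 0 ≤ 186 / 100 - (6295 / 1000) * e := by linarith
  have k2 : (1 + (1464 / 1000) * b) * (186 / 100 - (6295 / 1000) * e) ≤
      (1 - f + 2 * (86602 / 100000) * b) * (186 / 100 - (6295 / 1000) * e) :=
    mul_le_mul_of_nonneg_right (by linarith) k1
  have k3 : b * e ≤ b * (1312 / 10000) := mul_le_mul_of_nonneg_left he1 hb
  linarith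

theorem u2_core {A B D E G p b f F e : ℝ} (hb : 0 ≤ b) (hb1 : b ≤ 1 / 2)
    (hf1 : f ≤ (268 / 1000) * b) (hF : 0 ≤ F) (he : 0 ≤ e) (he1 : e ≤ 1312 / 10000)
    (he2 : e ≤ b / 2) (hA : 2 * h0 * e - e ^ 2 ≤ (11783 / 10000) * A)
    (hB : (17269 / 10000) * B ≤ h0 * e + e ^ 2) (hD : (5743 / 10000) * D ≤ 2 * h0 * e + e ^ 2)
    (hE : 2 * G * E ≤ e * (2 * p - e)) (hG : 2 * G = 1 - f + 2 * h0 * b)
    (hp : p = h0 - b / 2 - F) (G0 : 0 < G) : 0 ≤ 4 * A - 2 * B - D - E := by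
  have hh := h0_lt'
  have hg := h0_gt'
  have k1 := u2_poly hb hb1 hf1 hF he1 he2
  have k2 : e * (186 / 100 - (6295 / 1000) * e) ≤ 4 * A - 2 * B - D := by
    have l1 : 86602 / 100000 * e ≤ h0 * e := mul_le_mul_of_nonneg_right hg.le he
    have l2 : h0 * e ≤ 86603 / 100000 * e := mul_le_mul_of_nonneg_right hh.le he
    nlinarith
  have k3 : e * (2 * p - e) ≤ 2 * G * (e * (186 / 100 - (6295 / 1000) * e)) := by
    have l1 : 0 ≤ 186 / 100 - (6295 / 1000) * e := by linarith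
    have l2 : 2 * p - e ≤ 2 * G * (186 / 100 - (6295 / 1000) * e) := by
      have l3 : (1 - f + 2 * (86602 / 100000) * b) * (186 / 100 - (6295 / 1000) * e) ≤
          2 * G * (186 / 100 - (6295 / 1000) * e) := by
        apply mul_le_mul_of_nonneg_right _ l1
        rw [hG]
        have := mul_le_mul_of_nonneg_right hg.le hb
        linarith
      rw [hp]
      linarith
    have l4 := mul_le_mul_of_nonneg_left l2 he
    linarith
  have k4 : 2 * G * (e * (186 / 100 - (6295 / 1000) * e)) ≤ 2 * G * (4 * A - 2 * B - D) :=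
    mul_le_mul_of_nonneg_left k2 (by linarith)
  have k5 : 0 ≤ G * (4 * A - 2 * B - D - E) := by linarith
  exact nonneg_of_mul_nonneg_right k5 G0

theorem g_le_of {y K : ℝ} (hK : 0 ≤ K) (c : ℝ) (hc : 0 ≤ c) (h2 : c ≤ y) (h3 : 1 ≤ c ^ 2 + K ^ 2) :
    g y ≤ K := by
  unfold g
  apply Real.sqrt_le_iff.2
  refine ⟨hK, ?_⟩
  have := pow_le_pow_left₀ hc h2 2
  linarith

/-- The case `v ≤ c1`, `2 h0 ≤ z1`. -/
theorem mid_U2' {s y p b : ℝ} (h0s : 0 ≤ s) (h1s : s ≤ h0 / 2) (hb0 : 0 ≤ b)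
    (hb1 : b ≤ 1 / 2) (hp : p = h0 * g b - b / 2) (h3 : h0 + s ≤ y + p) (h4 : y ≤ h0)
    (h5 : 2 * h0 ≤ y + p + b) :
    2 * (1 + g s) - 4 * g y ≤ 2 * g (h0 + s - y) + g b - g (y + p - h0) - g (p + b) - 1 / 2
      + g (2 * h0 - y) := by
  have hh := h0_lt'
  have hg := h0_gt'
  have hq := h0_sq
  obtain ⟨k1, k2, k3, k4, k5, k6⟩ := ang hb0 hb1 hp
  obtain ⟨k7, k8⟩ := ang_q hb0 hb1 hp
  have hw : 0 ≤ b / 2 + h0 * (1 - g b) := by
    have := mul_nonneg (by linarith : 0 ≤ h0) k4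
    linarith
  rcases le_total (y + p - h0) (h0 / 2) with ha | ha
  · have e1 := mid_U3b (s := y + p - h0) (y := y) (p := p) (b := b) (by linarith) ha
      (by linarith) hb0 hb1 hp (by linarith) (by linarith) h5
    rw [show h0 + (y + p - h0) - y = p by ring,
      show y + p - h0 - (y + p - h0) / 2 = (y + p - h0) / 2 by ring] at e1
    have e2 := four (x := s) (y := h0 + s - y) (z := y + p - h0) (w := p) (by linarith)
      (by linarith) (by linarith) (by linarith) (by ring)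
    linarith
  · obtain ⟨a, hya⟩ : ∃ a, a = y + p - h0 := ⟨_, rfl⟩
    obtain ⟨f, hf⟩ : ∃ f, f = 1 - g b := ⟨_, rfl⟩
    obtain ⟨F, hF⟩ : ∃ F, F = h0 * f := ⟨_, rfl⟩
    obtain ⟨e, he⟩ : ∃ e, e = h0 - y := ⟨_, rfl⟩
    have t2 := gb_tan2 hb1
    rw [← hf] at k1 k3 k4 k5 t2
    rw [← hF] at k1
    have F0 : 0 ≤ F := by rw [hF]; exact mul_nonneg (by linarith) k4
    have F1 : F ≥ 86602 / 100000 * f := by rw [hF]; exact mul_le_mul_of_nonneg_right hg.le k4
    have f1 : f ≤ (268 / 1000) * b := by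
      have : (1 : ℝ) - (268 / 1000) * b ≤ g b := by
        unfold g
        apply Real.le_sqrt_of_sq_le
        nlinarith
      linarith
    have e0 : 0 ≤ e := by linarith
    have e1 : e ≤ 1312 / 10000 := by linarith
    have e2 : e ≤ b / 2 := by linarith
    -- the five differences
    have a1 := g_sq (r := y) (pow_le_one₀ (by linarith) (by linarith))
    have a2 : g y ≤ 6783 / 10000 :=
      g_le_of (by norm_num) (7348 / 10000) (by norm_num) (by linarith) (by norm_num)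
    have a3 : 1 / 2 ≤ g y := by
      rw [← g_h0]
      exact g_anti (by linarith) h4
    have hA : 2 * h0 * e - e ^ 2 ≤ (11783 / 10000) * (g y - 1 / 2) := by
      have l1 : 2 * h0 * e - e ^ 2 = (g y + 1 / 2) * (g y - 1 / 2) := by
        rw [he]
        linear_combination hq - a1
      rw [l1]
      exact mul_le_mul_of_nonneg_right (by linarith) (by linarith)
    have b1 := g_sq (r := 3 * h0 / 2 - y) (pow_le_one₀ (by linarith) (by linarith))
    have b2 := gh2_sq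
    have b3 := gh2_gt
    have b4 : (8256 / 10000 : ℝ) ≤ g (3 * h0 / 2 - y) :=
      le_g_of (by linarith) (56423 / 100000) (by linarith) (by norm_num)
    have b5 : g (3 * h0 / 2 - y) ≤ g (h0 / 2) := g_anti (by linarith) (by linarith)
    have hB : (17269 / 10000) * (g (h0 / 2) - g (3 * h0 / 2 - y)) ≤ h0 * e + e ^ 2 := by
      have l1 : h0 * e + e ^ 2 = (g (h0 / 2) + g (3 * h0 / 2 - y)) *
          (g (h0 / 2) - g (3 * h0 / 2 - y)) := by
        rw [he]
        linear_combination b1 - b2 - (1 / 4) * hq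
      rw [l1]
      exact mul_le_mul_of_nonneg_right (by linarith) (by linarith)
    have c1 := g_sq (r := 2 * h0 - y) (pow_le_one₀ (by linarith) (by linarith))
    have c2 : (743 / 10000 : ℝ) ≤ g (2 * h0 - y) :=
      le_g_of (by linarith) (99723 / 100000) (by linarith) (by norm_num)
    have c3 : g (2 * h0 - y) ≤ 1 / 2 := by
      rw [← g_h0]
      exact g_anti (by linarith) (by linarith)
    have hD : (5743 / 10000) * (1 / 2 - g (2 * h0 - y)) ≤ 2 * h0 * e + e ^ 2 := by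
      have l1 : 2 * h0 * e + e ^ 2 = (1 / 2 + g (2 * h0 - y)) * (1 / 2 - g (2 * h0 - y)) := by
        rw [he]
        linear_combination c1 - hq
      rw [l1]
      exact mul_le_mul_of_nonneg_right (by linarith) (by linarith)
    have d1 := g_sq (r := a) (pow_le_one₀ (by linarith) (by linarith))
    have d2 := g_sq (r := p) (pow_le_one₀ (by linarith) (by linarith))
    have d3 : g p ≤ g a := g_anti (by linarith) (by linarith)
    have hE : 2 * g p * (g a - g p) ≤ e * (2 * p - e) := by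
      have l1 : e * (2 * p - e) = (g a + g p) * (g a - g p) := by
        rw [show e = p - a by linarith]
        linear_combination d2 - d1
      rw [l1]
      exact mul_le_mul_of_nonneg_right (by linarith) (by linarith)
    have G0 : 0 < g p := by
      rw [k2]
      have := mul_nonneg (by linarith : 0 ≤ h0) hb0
      linarith
    have key := u2_core hb0 hb1 f1 F0 e0 e1 e2 hA hB hD hE (by rw [k2]; linarith) (by linarith) G0
    have e6 := four (x := s) (y := h0 + s - y) (z := h0 / 2) (w := 3 * h0 / 2 - y) (by linarith)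
      (by linarith) (by linarith) (by linarith) (by ring)
    rw [← hya]
    linarith

end Pool.Agent.Strip051.Four
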